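import Pool.Agent.Helper7.RD.Sys
import Pool.Agent.Helper89.RAK.Cmp
import Pool.Agent.Helper26.MT.Zw

/-! VOLUMES OF CLASSES OF LABELS: `volC C A Q D` is the volume of the optimal forms of degree `D` of the point `Q` for the
class `C` and the conditions `A` (any finite family), `volCO` the infimum over all degrees. Deep zoom in the coordinates of
rows: volumes of the zoom and of the system, and the same for any pair of points (prefixes). -/

set_option autoImplicit false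

namespace Pool.Agent.Helper7.RD

open Finset Filter Topology Matrix Pool.Agent.Helper69.RK Pool.Agent.Helper31.EC Pool.Agent.Helper31.EC.Sp
open Pool.Agent.Helper40.EL Pool.Agent.Helper89.LX Pool.Agent.Helper3.LF Pool.Agent.Helper84.MT
open Pool.Agent.Helper95.LF Pool.Agent.Helper7.GZ
open Pool.Agent.Helper14.MC (vol_eq vx_UB vx_nonneg cnt_vol)
open Pool.Agent.Helper89.RAD (cnA cnA_pcd cnA_mono cnA_fine DMA DMA_pcd)
open Pool.Agent.Helper89.RAK (DomJ)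

noncomputable section

variable {S : Sp} {M M' : ℕ} {E : ℕ → ℕ} {ι : Type} {κ κ' : Type}

/-! ### volumes of a class -/

section vol

variable {C C' : LC S} {A : κ → Part S} {A' : κ' → Part S} {Q : S.VV M} {D : ℕ}

/-- the optimal form of a class dominates all forms of the class -/
theorem optK_dom {x y : ∀ k, FD (S.F k) (Mon M D)} (hx : (gaq Q D).OptfK C A x) (hy : (gaq Q D).AdfK C A y) :
    DomJ x y := fun e he => Gau.OptfK.dom (gaq Q D) hx hy e he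

theorem optK_vol_le {x y : ∀ k, FD (S.F k) (Mon M D)} (hx : (gaq Q D).OptfK C A x) (hy : (gaq Q D).AdfK C A y) :
    vol Q D x ≤ vol Q D y := (optK_dom hx hy).vol_le hx.1.1 hy.1

theorem optK_vol_eq {x y : ∀ k, FD (S.F k) (Mon M D)} (hx : (gaq Q D).OptfK C A x) (hy : (gaq Q D).OptfK C A y) :
    vol Q D x = vol Q D y := le_antisymm (optK_vol_le hx hy.1) (optK_vol_le hy hx.1)

variable (C A Q D) in
/-- THE VOLUME of the optimal forms of the class `C` for the conditions `A` -/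
def volC : ℝ := vol Q D ((gaq Q D).exists_optfK C A).choose

theorem volC_eq {x : ∀ k, FD (S.F k) (Mon M D)} (hx : (gaq Q D).OptfK C A x) : volC C A Q D = vol Q D x :=
  optK_vol_eq ((gaq Q D).exists_optfK C A).choose_spec hx

theorem volC_le_of {x : ∀ k, FD (S.F k) (Mon M D)} (hx : (gaq Q D).AdfK C A x) : volC C A Q D ≤ vol Q D x :=
  optK_vol_le ((gaq Q D).exists_optfK C A).choose_spec hx

/-- a form of a class is a form of a larger class for weaker conditions -/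
theorem adfK_mono [Finite κ'] {x : ∀ k, FD (S.F k) (Mon M D)} (hx : (gaq Q D).AdfK C A x)
    (h : ∀ i, ∃ j, PLe (A j) (A' i)) (hC : ∀ l : Lab S, C.ev l → C'.ev l) : (gaq Q D).AdfK C' A' x :=
  ⟨hx.1.mono_of h, hC _ hx.2⟩

/-- more labels have a smaller volume -/
theorem volC_mono [Finite κ'] (h : ∀ i, ∃ j, PLe (A j) (A' i)) (hC : ∀ l : Lab S, C.ev l → C'.ev l) :
    volC C' A' Q D ≤ volC C A Q D := by
  obtain ⟨x, hx⟩ := (gaq Q D).exists_optfK C A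
  rw [volC_eq hx]
  exact volC_le_of (adfK_mono hx.1 h hC)

theorem volC_le_M : volC C A Q D ≤ M := by
  obtain ⟨x, hx⟩ := (gaq Q D).exists_optfK C A
  rw [volC_eq hx]
  exact Pool.Agent.Helper14.MC.vol_le hx.1.1

theorem volC_zero : volC C A Q 0 = M := vol_deg_zero _ _

theorem volC_nonneg : 0 ≤ volC C A Q D := by
  rcases Nat.eq_zero_or_pos D with h0 | h0
  · subst h0
    rw [volC_zero]
    exact Nat.cast_nonneg M
  · obtain ⟨x, hx⟩ := (gaq Q D).exists_optfK C A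
    rw [volC_eq hx]
    exact (H_nonneg _).trans (cnt_vol Q h0 x hx.1.1)

variable (C A Q) in
/-- the volume in all degrees -/
def volCO : ℝ := ⨅ D : ℕ, volC C A Q D

theorem volCO_bdd : BddBelow (Set.range fun D => volC C A Q D) := by
  refine ⟨0, ?_⟩
  rintro _ ⟨D, rfl⟩
  exact volC_nonneg

theorem volCO_le (D : ℕ) : volCO C A Q ≤ volC C A Q D := ciInf_le volCO_bdd D

theorem volCO_le_M : volCO C A Q ≤ M := (volCO_le 0).trans volC_le_M

theorem volCO_nonneg : 0 ≤ volCO C A Q := le_ciInf fun _ => volC_nonneg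

theorem volCO_mono [Finite κ'] (h : ∀ i, ∃ j, PLe (A j) (A' i)) (hC : ∀ l : Lab S, C.ev l → C'.ev l) :
    volCO C' A' Q ≤ volCO C A Q := le_ciInf fun D => (volCO_le D).trans (volC_mono h hC)

end vol

/-! ### pairs of points -/

section pairs

variable {Z : ZU S} {Q : S.VV M} (z : PZ Z Q M)

/-- VOLUMES of a pair of points: `lam` is a lower bound of the Jacobian of the rows -/
theorem PZ.volC_le [Finite κ] {A : κ → Part S} {B : κ' → Part Z.sp} (hl : Z.l.DMf A)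
    (hAB : ∀ i, ∃ j, PLe (B j) (upz Z (A i))) {C : Part S} (hC : (LC.kz C).ev Z.l) {D DD : ℕ} (hD : 1 ≤ D)
    (hDD : D * z.D ≤ DD) (lam : ∀ k, (Z.l k).T.Ω → ℝ) (Cl : ℝ)
    (hlb : ∀ᶠ k in UF, ∀ ω, (Z.l k).T.μ ω ≠ 0 → |lam k ω| ≤ Cl)
    (K : ℕ → ℝ) (hK : S.Sub K) (hdet : Typ (S := Z.l.sp) (fun k (ω : (Z.l k).T.Ω) =>
      2 ^ (2 * lam k ω * (S.F k).n) ≤ K k * (jac (z.R.p k ω) (Q.v k ((Z.l k).p.π ω))).det ^ 2)) :
    volC (LC.kz C) A Q DD ≤
      M - ul (fun k => ∑ ω, (Z.l k).T.μ ω * lam k ω) - Z.u * (M - volC (LC.kz (upz Z C)) B z.X D) := by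
  obtain ⟨y, hy⟩ := (gaq z.X D).exists_optfK (LC.kz (upz Z C)) B
  rw [volC_eq hy]
  exact (volC_le_of (z.out_adK hl hAB hC hDD hy.1)).trans (z.vol_out_le hl hAB hD hDD hy.1.1 lam Cl hlb K hK hdet)

/-- volumes of a pair of points, all degrees -/
theorem PZ.volCO_le [Finite κ] {A : κ → Part S} {B : κ' → Part Z.sp} (hl : Z.l.DMf A)
    (hAB : ∀ i, ∃ j, PLe (B j) (upz Z (A i))) {C : Part S} (hC : (LC.kz C).ev Z.l)
    (lam : ∀ k, (Z.l k).T.Ω → ℝ) (Cl : ℝ)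
    (hlb : ∀ᶠ k in UF, ∀ ω, (Z.l k).T.μ ω ≠ 0 → |lam k ω| ≤ Cl)
    (K : ℕ → ℝ) (hK : S.Sub K) (hdet : Typ (S := Z.l.sp) (fun k (ω : (Z.l k).T.Ω) =>
      2 ^ (2 * lam k ω * (S.F k).n) ≤ K k * (jac (z.R.p k ω) (Q.v k ((Z.l k).p.π ω))).det ^ 2)) :
    volCO (LC.kz C) A Q ≤
      M - ul (fun k => ∑ ω, (Z.l k).T.μ ω * lam k ω) - Z.u * (M - volCO (LC.kz (upz Z C)) B z.X) := by
  set Λ := ul (fun k => ∑ ω, (Z.l k).T.μ ω * lam k ω) with hΛ
  have h5 := Z.hu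
  have h1 : ∀ D : ℕ, 1 ≤ D → volCO (LC.kz C) A Q ≤ M - Λ - Z.u * (M - volC (LC.kz (upz Z C)) B z.X D) := fun D hD =>
    (RD.volCO_le (D * z.D)).trans (z.volC_le hl hAB hC hD le_rfl lam Cl hlb K hK hdet)
  have h2 : ∀ D : ℕ, volCO (LC.kz C) A Q ≤ M - Λ - Z.u * (M - volC (LC.kz (upz Z C)) B z.X D) := by
    intro D
    rcases Nat.eq_zero_or_pos D with h0 | h0
    · rw [h0, volC_zero]
      have h3 := h1 1 le_rfl
      have h4 := mul_nonneg h5.le (sub_nonneg.2 (volC_le_M (C := LC.kz (upz Z C)) (A := B) (Q := z.X) (D := 1)))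
      linarith
    · exact h1 D h0
  have h3 : (M - (M - Λ - volCO (LC.kz C) A Q) / Z.u) ≤ volCO (LC.kz (upz Z C)) B z.X := by
    refine le_ciInf fun D => ?_
    have h4 := h2 D
    have h7 : M - volC (LC.kz (upz Z C)) B z.X D ≤ (M - Λ - volCO (LC.kz C) A Q) / Z.u := by
      rw [le_div_iff₀ h5]
      linarith
    linarith
  have h6 : M - volCO (LC.kz (upz Z C)) B z.X ≤ (M - Λ - volCO (LC.kz C) A Q) / Z.u := by linarith
  rw [le_div_iff₀ h5] at h6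
  linarith

end pairs

/-! ### the deep zoom -/

namespace RW

variable {s : MSys S M E ι} (z : RW s M) [Finite ι] {A : Part S} {b : ℝ}

/-- VOLUME of the form of the zoom in the system -/
theorem vol_out_le (hA : Nul S fun k => (z.Z.l k).leak (A k)) {D DD : ℕ} (hD : 1 ≤ D) (hDD : D * z.D ≤ DD)
    (hb : 0 ≤ b) {y : ∀ k, FD (z.Z.sp.F k) (Mon M D)} (hy : (gaq z.sys.Q D).Adf (cnA z.sys (z.upz A) b) y)
    (lam : ∀ k, (z.Z.l k).T.Ω → ℝ) (Cl : ℝ) (hlb : ∀ᶠ k in UF, ∀ ω, (z.Z.l k).T.μ ω ≠ 0 → |lam k ω| ≤ Cl)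
    (K : ℕ → ℝ) (hK : S.Sub K) (hdet : Typ (S := z.Z.l.sp) (fun k (ω : (z.Z.l k).T.Ω) =>
      2 ^ (2 * lam k ω * (S.F k).n) ≤ K k * (jac (z.R.p k ω) (s.Q.v k ((z.Z.l k).p.π ω))).det ^ 2)) :
    vol s.Q DD (z.out DD y) ≤
      M - ul (fun k => ∑ ω, (z.Z.l k).T.μ ω * lam k ω) - z.Z.u * (M - vol z.sys.Q D y) :=
  z.pz.vol_out_le (z.dmA' hA hb) (fun i => ⟨i, z.cnA_up (PLe.refl _) hb i⟩) hD hDD hy lam Cl hlb K hK hdet

/-- VOLUMES of the windows of the zoom and of the system, K-labels -/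
theorem volC_le (hA : Nul S fun k => (z.Z.l k).leak (A k)) {C : Part S} (hC : (LC.kz C).ev z.Z.l) {D DD : ℕ}
    (hD : 1 ≤ D) (hDD : D * z.D ≤ DD) (hb : 0 ≤ b)
    (lam : ∀ k, (z.Z.l k).T.Ω → ℝ) (Cl : ℝ) (hlb : ∀ᶠ k in UF, ∀ ω, (z.Z.l k).T.μ ω ≠ 0 → |lam k ω| ≤ Cl)
    (K : ℕ → ℝ) (hK : S.Sub K) (hdet : Typ (S := z.Z.l.sp) (fun k (ω : (z.Z.l k).T.Ω) =>
      2 ^ (2 * lam k ω * (S.F k).n) ≤ K k * (jac (z.R.p k ω) (s.Q.v k ((z.Z.l k).p.π ω))).det ^ 2)) :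
    volC (LC.kz C) (cnA s A (z.Z.c + z.Z.u * b)) s.Q DD ≤ M - ul (fun k => ∑ ω, (z.Z.l k).T.μ ω * lam k ω) -
      z.Z.u * (M - volC (LC.kz (z.upz C)) (cnA z.sys (z.upz A) b) z.sys.Q D) :=
  z.pz.volC_le (z.dmA' hA hb) (fun i => ⟨i, z.cnA_up (PLe.refl _) hb i⟩) hC hD hDD lam Cl hlb K hK hdet

/-- volumes in all degrees -/
theorem volCO_le (hA : Nul S fun k => (z.Z.l k).leak (A k)) {C : Part S} (hC : (LC.kz C).ev z.Z.l)
    (hb : 0 ≤ b) (lam : ∀ k, (z.Z.l k).T.Ω → ℝ) (Cl : ℝ)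
    (hlb : ∀ᶠ k in UF, ∀ ω, (z.Z.l k).T.μ ω ≠ 0 → |lam k ω| ≤ Cl)
    (K : ℕ → ℝ) (hK : S.Sub K) (hdet : Typ (S := z.Z.l.sp) (fun k (ω : (z.Z.l k).T.Ω) =>
      2 ^ (2 * lam k ω * (S.F k).n) ≤ K k * (jac (z.R.p k ω) (s.Q.v k ((z.Z.l k).p.π ω))).det ^ 2)) :
    volCO (LC.kz C) (cnA s A (z.Z.c + z.Z.u * b)) s.Q ≤ M - ul (fun k => ∑ ω, (z.Z.l k).T.μ ω * lam k ω) -
      z.Z.u * (M - volCO (LC.kz (z.upz C)) (cnA z.sys (z.upz A) b) z.sys.Q) :=
  z.pz.volCO_le (z.dmA' hA hb) (fun i => ⟨i, z.cnA_up (PLe.refl _) hb i⟩) hC lam Cl hlb K hK hdet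

end RW

/-- a smaller condition at the point and finer windows -/
theorem cnA_le {s : MSys S M E ι} {A B : Part S} (hAB : PLe A B) {a b : ℝ} (hab : a ≤ b)
    (i : Option ι) : PLe (cnA s A a i) (cnA s B b i) :=
  (cnA_fine s hAB a i).trans (cnA_mono s B hab i)

/-- volumes decrease with the window and with the condition at the point -/
theorem volCO_cnA [Finite ι] {s : MSys S M E ι} {Q : S.VV M'} {A B C C' : Part S} (hAB : PLe A B)
    (hC : ∀ᶠ k in UF, C' k ≤ C k) {a b : ℝ} (hab : a ≤ b) :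
    volCO (LC.kz C) (cnA s B b) Q ≤ volCO (LC.kz C') (cnA s A a) Q :=
  volCO_mono (fun i => ⟨i, cnA_le hAB hab i⟩) fun _ h => LC.kz_mono hC h

end

end Pool.Agent.Helper7.RD
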