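import Pool.Agent.Helper7.RD.Br

/-! PREFIXES OF ZOOMS. Sub-pairs of a pair of points: coordinates `σ` of the old point, rows `τ` the variables of which are
coordinates `σ`. For zooms in flag rows: volumes of the prefixes of the zoom and of the system. -/

set_option autoImplicit false

namespace Pool.Agent.Helper7.RD

open Finset Filter Topology Matrix Pool.Agent.Helper69.RK Pool.Agent.Helper31.EC Pool.Agent.Helper31.EC.Sp
open Pool.Agent.Helper40.EL Pool.Agent.Helper89.LX Pool.Agent.Helper3.LF Pool.Agent.Helper84.MT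
open Pool.Agent.Helper95.LF Pool.Agent.Helper7.GZ
open Pool.Agent.Helper89.RAD (cnA cnA_pcd cnA_mono cnA_fine DMA DMA_pcd)
open Pool.Agent.Helper49.MD Pool.Agent.Helper36.AM
open Pool.Agent.Helper87.NSL (cndR KnS)
open Pool.Agent.Helper29.MX (Rsl rpull rover KLb KAd KOp volK volKO volP pfx Pt vis HK Flg OptLam KZ)
open Pool.Agent.Helper18.PRM (vcrd scrd)

noncomputable section

variable {S : Sp} {M M' m m' : ℕ} {E E' : ℕ → ℕ} {ι : Type}

/-! ### restriction of the variables -/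

section kc

variable {σ : Fin m → Fin M} (hσ : Function.Injective σ)

/-- restriction of the variables -/
def kc (p : MvPolynomial (Fin M) ℝ) : MvPolynomial (Fin m) ℝ := MvPolynomial.killCompl hσ p

variable {p : MvPolynomial (Fin M) ℝ} (hv : ∀ i ∈ p.vars, i ∈ Set.range σ)

include hv

theorem kc_ren : MvPolynomial.rename σ (kc hσ p) = p := by
  obtain ⟨q, rfl⟩ := MvPolynomial.exists_rename_eq_of_vars_subset_range p σ hσ fun i hi => hv i hi
  rw [kc, MvPolynomial.killCompl_rename_app]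

theorem kc_eval (y : Fin M → ℝ) : MvPolynomial.eval (fun i => y (σ i)) (kc hσ p) = MvPolynomial.eval y p := by
  have h := MvPolynomial.eval_rename σ y (kc hσ p)
  rw [kc_ren hσ hv] at h
  exact h.symm

theorem kc_coeff (a : Fin m →₀ ℕ) : (kc hσ p).coeff a = p.coeff (a.mapDomain σ) := by
  have h := MvPolynomial.coeff_rename_mapDomain σ hσ (kc hσ p) a
  rw [kc_ren hσ hv] at h
  exact h.symm

theorem kc_deg : (kc hσ p).totalDegree ≤ p.totalDegree := by
  apply Finset.sup_le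
  intro a ha
  rw [MvPolynomial.mem_support_iff, kc_coeff hσ hv, ← MvPolynomial.mem_support_iff] at ha
  have h1 := MvPolynomial.le_totalDegree ha
  rwa [Finsupp.sum_mapDomain_index (fun _ => rfl) fun _ _ _ => rfl] at h1

theorem kc_pd (y : Fin M → ℝ) (i : Fin m) :
    MvPolynomial.eval (fun i => y (σ i)) (MvPolynomial.pderiv i (kc hσ p)) =
      MvPolynomial.eval y (MvPolynomial.pderiv (σ i) p) := by
  have h1 := MvPolynomial.pderiv_rename (f := σ) hσ i (kc hσ p)
  rw [kc_ren hσ hv] at h1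
  rw [h1, MvPolynomial.eval_rename]
  rfl

end kc

/-! ### sub-rows -/

section rows

variable {Q : S.VV M} {l : Lab S} {D : ℕ} {Λ u : ℝ}

/-- extension of a point of the prefix -/
def ex (σ : Fin m → Fin M) (q : Fin M → ℝ) (y : Fin m → ℝ) (i : Fin M) : ℝ :=
  open Classical in if h : ∃ a, σ a = i then y h.choose else q i

theorem ex_app {σ : Fin m → Fin M} (hσ : Function.Injective σ) (q : Fin M → ℝ) (y : Fin m → ℝ) (a : Fin m) :
    ex σ q y (σ a) = y a := by
  have h : ∃ b, σ b = σ a := ⟨a, rfl⟩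
  rw [ex, dif_pos h, hσ h.choose_spec]

theorem ex_near {σ : Fin m → Fin M} (q : Fin M → ℝ) (y : Fin m → ℝ) {r : ℝ} (h0 : 0 ≤ r)
    (hy : ∀ a, |y a - q (σ a)| ≤ r) (i : Fin M) : |ex σ q y i - q i| ≤ r := by
  rw [ex]
  split_ifs with h
  · have h1 := hy h.choose
    rwa [h.choose_spec] at h1
  · rw [sub_self, abs_zero]
    exact h0

/-- SUB-ROWS -/
def subR (R : Rows Q l M' D Λ u) {σ : Fin m → Fin M} (hσ : Function.Injective σ) (τ : Fin m' → Fin M')
    (hv : ∀ k ω i, ∀ x ∈ (R.p k ω (τ i)).vars, x ∈ Set.range σ) : Rows (vcrd σ Q) l m' D Λ u where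
  p := fun k ω i => kc hσ (R.p k ω (τ i))
  deg := fun k ω i => (kc_deg hσ (hv k ω i)).trans (R.deg k ω (τ i))
  fn := by
    filter_upwards [R.fn] with k h ω ω' a b c d
    funext i
    rw [h ω ω' a b c d]
  cf := by
    obtain ⟨K, hK, h⟩ := R.cf
    refine ⟨K, hK, ?_⟩
    filter_upwards [h] with k h1 ω hω i a
    rw [kc_coeff hσ (hv k ω i)]
    exact h1 ω hω (τ i) _
  bd := by
    obtain ⟨K, hK, h⟩ := R.bd
    refine ⟨K, hK, h.mono (Eventually.of_forall fun k ω _ h1 i => ?_)⟩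
    have h2 := kc_eval hσ (hv k ω i) (Q.v k ((l k).p.π ω))
    have h3 := h1 (τ i)
    rw [← h2] at h3
    exact h3
  lp := by
    intro L hL
    obtain ⟨K, hK, h⟩ := R.lp L hL
    refine ⟨K, hK, h.mono ?_⟩
    filter_upwards [hL.1] with k hk ω _ h1 y hy i
    have h4 : 0 ≤ L k * S.dl 1 k := mul_nonneg hk (S.dl_pos 1 k).le
    have h3 := h1 (ex σ (Q.v k ((l k).p.π ω)) y) (ex_near _ _ h4 hy) (τ i)
    have h5 := kc_eval hσ (hv k ω i) (ex σ (Q.v k ((l k).p.π ω)) y)
    have h6 : (fun a => ex σ (Q.v k ((l k).p.π ω)) y (σ a)) = y := funext fun a => ex_app hσ _ _ a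
    rw [h6] at h5
    have h7 := kc_eval hσ (hv k ω i) (Q.v k ((l k).p.π ω))
    rw [← h5, ← h7] at h3
    exact h3

end rows

/-! ### sub-pairs -/

section pz

variable {Q : S.VV M} {Z : ZU S}

/-- SUB-PAIRS -/
def PZ.sub (z : PZ Z Q M') {σ : Fin m → Fin M} (hσ : Function.Injective σ) (τ : Fin m' → Fin M')
    (hv : ∀ k ω i, ∀ x ∈ (z.R.p k ω (τ i)).vars, x ∈ Set.range σ) : PZ Z (vcrd σ Q) m' where
  D := z.D
  Λ := z.Λ
  R := subR z.R hσ τ hv
  X := vcrd τ z.X
  hX := by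
    obtain ⟨K, hK, h⟩ := z.hX
    refine ⟨K, hK, h.mono (Eventually.of_forall fun k ω _ h1 i => ?_)⟩
    have h2 := kc_eval hσ (hv k ω i) (Q.v k ((Z.l k).p.π ω))
    have h3 := h1 (τ i)
    unfold Rows.val at h3
    rw [← h2] at h3
    exact h3

theorem PZ.sub_jac (z : PZ Z Q M') {σ : Fin m → Fin M} (hσ : Function.Injective σ) (τ : Fin m' → Fin M')
    (hv : ∀ k ω i, ∀ x ∈ (z.R.p k ω (τ i)).vars, x ∈ Set.range σ) (k : ℕ) (ω : (Z.l k).T.Ω) (i : Fin m') (a : Fin m) :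
    jac ((z.sub hσ τ hv).R.p k ω) ((vcrd σ Q).v k ((Z.l k).p.π ω)) i a =
      jac (z.R.p k ω) (Q.v k ((Z.l k).p.π ω)) (τ i) (σ a) :=
  kc_pd hσ (hv k ω i) (Q.v k ((Z.l k).p.π ω)) a

/-- the rows are triangular -/
def PZ.Tri (z : PZ Z Q M) : Prop := ∀ k ω j, ∀ i ∈ (z.R.p k ω j).vars, i ≤ j

theorem PZ.Tri.pv {z : PZ Z Q M} (h : z.Tri) (hm : m ≤ M) (k : ℕ) (ω : (Z.l k).T.Ω) (i : Fin m) (x : Fin M)
    (hx : x ∈ (z.R.p k ω (Fin.castLE hm i)).vars) : x ∈ Set.range (Fin.castLE hm) := by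
  have h1 : (x : ℕ) ≤ i := h k ω _ x hx
  exact ⟨⟨x, h1.trans_lt i.2⟩, rfl⟩

/-- PREFIX OF A PAIR OF POINTS -/
def PZ.pre (z : PZ Z Q M) (h : z.Tri) (hm : m ≤ M) : PZ Z (pfx Q hm) m :=
  z.sub (Fin.castLE_injective hm) (Fin.castLE hm) (h.pv hm)

theorem PZ.pre_det (z : PZ Z Q M) (h : z.Tri) (hm : m ≤ M) (k : ℕ) (ω : (Z.l k).T.Ω) :
    (jac ((z.pre h hm).R.p k ω) ((pfx Q hm).v k ((Z.l k).p.π ω))).det = ∏ i : Fin m,
      MvPolynomial.eval (Q.v k ((Z.l k).p.π ω)) (MvPolynomial.pderiv (Fin.castLE hm i) (z.R.p k ω (Fin.castLE hm i))) := by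
  rw [Matrix.det_of_isLowerTriangular]
  · exact Finset.prod_congr rfl fun i _ => z.sub_jac (Fin.castLE_injective hm) (Fin.castLE hm) (h.pv hm) k ω i i
  · intro i a hia
    have h1 : i < a := hia
    have h2 := z.sub_jac (Fin.castLE_injective hm) (Fin.castLE hm) (h.pv hm) k ω i a
    refine h2.trans ?_
    show MvPolynomial.eval _ (MvPolynomial.pderiv (Fin.castLE hm a) (z.R.p k ω (Fin.castLE hm i))) = 0
    rw [MvPolynomial.pderiv_eq_zero_of_notMem_vars, map_zero]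
    intro h3
    have h4 : (a : ℕ) ≤ i := h k ω _ _ h3
    exact absurd h1 (not_lt.2 h4)

theorem PZ.pre_low (z : PZ Z Q M) (h : z.Tri) (hm : m ≤ M) (lam : Fin M → ℝ) (k : ℕ) (ω : (Z.l k).T.Ω)
    (h2 : ∀ j, 2 ^ (lam j * (S.F k).n) ≤
      |MvPolynomial.eval (Q.v k ((Z.l k).p.π ω)) (MvPolynomial.pderiv j (z.R.p k ω j))|) :
    2 ^ (2 * (∑ i : Fin m, lam (Fin.castLE hm i)) * (S.F k).n) ≤
      1 * (jac ((z.pre h hm).R.p k ω) ((pfx Q hm).v k ((Z.l k).p.π ω))).det ^ 2 := by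
  rw [one_mul, z.pre_det h hm, ← sq_abs, Finset.abs_prod]
  have h3 : (2 : ℝ) ^ (2 * (∑ i : Fin m, lam (Fin.castLE hm i)) * (S.F k).n) =
      (∏ i : Fin m, (2 : ℝ) ^ (lam (Fin.castLE hm i) * (S.F k).n)) ^ 2 := by
    rw [← Real.rpow_sum_of_pos (by norm_num), ← Real.rpow_natCast, ← Real.rpow_mul (by norm_num), ← Finset.sum_mul]
    congr 1
    push_cast
    ring
  rw [h3]
  refine pow_le_pow_left₀ (Finset.prod_nonneg fun i _ => by positivity) ?_ 2
  exact Finset.prod_le_prod (fun i _ => by positivity) fun i _ => h2 _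

/-- VOLUMES OF THE PREFIXES of a pair of points, `lam` are lower bounds of the exponents of the rows -/
theorem PZ.volP_le {κ κ' : Type} [Finite κ] {A : κ → Part S} {B : κ' → Part Z.sp} (z : PZ Z Q M) (h : z.Tri)
    (hl : Z.l.DMf A) (hAB : ∀ i, ∃ j, PLe (B j) (upz Z (A i))) {C : Part S} (hC : (LC.kz C).ev Z.l) (lam : Fin M → ℝ)
    (hex : ∀ e : ℝ, 0 < e → Typ (S := Z.l.sp) (fun k (ω : (Z.l k).T.Ω) => ∀ j, 2 ^ ((lam j - e) * (S.F k).n) ≤
      |MvPolynomial.eval (Q.v k ((Z.l k).p.π ω)) (MvPolynomial.pderiv j (z.R.p k ω j))|)) (hm : m ≤ M) :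
    volCO (LC.kz C) A (pfx Q hm) ≤ m - ∑ i : Fin m, lam (Fin.castLE hm i) -
      Z.u * (m - volCO (LC.kz (upz Z C)) B (pfx z.X hm)) := by
  apply le_of_forall_pos_le_add
  intro ε hε
  set e : ℝ := ε / (m + 1) with he
  have hm0 : (0 : ℝ) < m + 1 := by positivity
  have he0 : 0 < e := div_pos hε hm0
  have h1 := (z.pre h hm).volCO_le (A := A) (B := B) hl hAB hC
    (fun _ _ => ∑ i : Fin m, (lam (Fin.castLE hm i) - e)) |∑ i : Fin m, (lam (Fin.castLE hm i) - e)|
    (Eventually.of_forall fun k ω _ => le_rfl) (fun _ => 1) (S.Sub_const zero_le_one)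
    ((hex e he0).mono (Eventually.of_forall fun k ω _ h2 => z.pre_low h hm (fun j => lam j - e) k ω h2))
  have h4 : ul (fun k => ∑ ω, (Z.l k).T.μ ω * ∑ i : Fin m, (lam (Fin.castLE hm i) - e)) =
      ∑ i : Fin m, (lam (Fin.castLE hm i) - e) := by
    have h5 : (fun k => ∑ ω, (Z.l k).T.μ ω * ∑ i : Fin m, (lam (Fin.castLE hm i) - e)) =
        fun _ => ∑ i : Fin m, (lam (Fin.castLE hm i) - e) := by
      funext k
      rw [← Finset.sum_mul, Pool.Agent.Helper3.PR.sum_mu, one_mul]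
    rw [h5, ul_const]
  rw [h4, Finset.sum_sub_distrib, Finset.sum_const, Finset.card_univ, Fintype.card_fin, nsmul_eq_mul] at h1
  have h6 : (m : ℝ) * e ≤ ε := by
    have h7 : e * (m + 1) = ε := by rw [he]; field_simp
    nlinarith
  have h8 : (z.pre h hm).X = pfx z.X hm := rfl
  rw [h8] at h1
  linarith

end pz

/-! ### the prefixes of the deep zoom in flag rows -/

theorem volP_cnA (s : MSys S M E ι) (R : Rsl S) (c : ℝ) (hm : m ≤ M) :
    volP s R c hm = volCO (LC.kz (pR R)) (cnA s (pR R) c) (pfx s.Q hm) := by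
  rw [volP, cndR_cnA]

theorem volP_nonneg {s : MSys S M E ι} {R : Rsl S} {c : ℝ} (hm : m ≤ M) : 0 ≤ volP s R c hm := volCO_nonneg

theorem volP_le {s : MSys S M E ι} {R : Rsl S} {c : ℝ} (hm : m ≤ M) : volP s R c hm ≤ m := volCO_le_M

theorem volP_zero {s : MSys S M E ι} {R : Rsl S} {c : ℝ} (h0 : 0 ≤ M) : volP s R c h0 = 0 :=
  le_antisymm ((volP_le h0).trans (by norm_num)) (volP_nonneg h0)

theorem pfx_self (Q : S.VV M) : pfx Q le_rfl = Q := rfl

theorem volP_self (s : MSys S M E ι) (R : Rsl S) (c : ℝ) : volP s R c le_rfl = volKO s R c := by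
  rw [volP_cnA, volKO_eq, pfx_self]

section flag

variable {s : MSys S M E ι} {z : RW s M} {lam : Fin M → ℝ} (hf : Flg z lam)

include hf

theorem flg_tri : z.pz.Tri := hf.tri

variable [Finite ι] {R : Rsl S} (hZ : KLb s R z.Z.c z.Z.l)

include hZ

/-- VOLUMES OF THE PREFIXES of the deep zoom -/
theorem flg_volP {b : ℝ} (hb : 0 ≤ b) (hm : m ≤ M) : volP s R (z.Z.c + z.Z.u * b) hm ≤
    m - ∑ i : Fin m, lam (Fin.castLE hm i) - z.Z.u * (m - volP z.sys (roz z.Z R) b hm) := by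
  have h1 := KLb_iff.mp hZ
  rw [volP_cnA, volP_cnA, pR_roz]
  exact z.pz.volP_le (flg_tri hf) (z.dmA' (h1.1 none) hb) (fun i => ⟨i, z.cnA_up (PLe.refl _) hb i⟩) h1.2 lam
    (fun e he => (hf.ex e he).mono (Eventually.of_forall fun k ω _ h2 j => (h2 j).1)) hm

/-- all coordinates -/
theorem flg_volKO {b : ℝ} (hb : 0 ≤ b) : volKO s R (z.Z.c + z.Z.u * b) ≤
    M - ∑ i, lam i - z.Z.u * (M - volKO z.sys (roz z.Z R) b) := by
  have h2 := flg_volP hf hZ hb (le_refl M)
  rw [volP_self, volP_self] at h2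
  exact h2

end flag

/-- the sums of the exponents of the optimal flag -/
theorem optLam_sum {s : MSys S M E ι} {R : Rsl S} {c : ℝ} {lam : Fin M → ℝ}
    (h : ∀ j : Fin M, lam j = 1 - (volP s R c (Nat.succ_le_of_lt j.2) - volP s R c j.2.le)) :
    ∀ (m : ℕ) (hm : m ≤ M), ∑ i : Fin m, lam (Fin.castLE hm i) = m - volP s R c hm := by
  intro m
  induction m with
  | zero =>
    intro hm
    rw [volP_zero hm]
    simp
  | succ m ih =>
    intro hm
    have h1 := ih (Nat.le_of_succ_le hm)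
    rw [Fin.sum_univ_castSucc]
    have h2 : ∑ i : Fin m, lam (Fin.castLE hm i.castSucc) = ∑ i : Fin m, lam (Fin.castLE (Nat.le_of_succ_le hm) i) := rfl
    have h3 := h (Fin.castLE hm (Fin.last m))
    rw [h2, h1, h3]
    have h4 : volP s R c (Nat.succ_le_of_lt (Fin.castLE hm (Fin.last m)).2) = volP s R c hm := rfl
    have h5 : volP s R c (Fin.castLE hm (Fin.last m)).2.le = volP s R c (Nat.le_of_succ_le hm) := rfl
    rw [h4, h5]
    push_cast
    ring

section opt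

variable {s : MSys S M E ι} {z : RW s M} {lam : Fin M → ℝ} (hf : Flg z lam) [Finite ι] {R : Rsl S}
  (hZ : KLb s R z.Z.c z.Z.l)
  (ho : ∀ j : Fin M, lam j = 1 - (volP s R z.Z.c (Nat.succ_le_of_lt j.2) - volP s R z.Z.c j.2.le))

include hf hZ ho

/-- OPTIMAL FLAGS: the exponents of the prefixes of the zoom are at most the growth of the exponents of the prefixes -/
theorem opt_volP {b : ℝ} (hb : 0 ≤ b) (hm : m ≤ M) : z.Z.u * (m - volP z.sys (roz z.Z R) b hm) ≤
    volP s R z.Z.c hm - volP s R (z.Z.c + z.Z.u * b) hm := by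
  have h1 := flg_volP hf hZ hb hm
  rw [optLam_sum ho m hm] at h1
  linarith

/-- the zoom is stable, all prefixes -/
theorem opt_zero (hm : m ≤ M) : volP z.sys (roz z.Z R) 0 hm = m := by
  have h1 := opt_volP hf hZ ho le_rfl hm
  rw [mul_zero, add_zero, sub_self] at h1
  have h2 := z.Z.hu
  apply le_antisymm (volP_le hm)
  by_contra h3
  push Not at h3
  have h4 := mul_pos h2 (sub_pos.2 h3)
  linarith

end opt

/-! ### frames -/

/-- the inverse of a triangular substitution is triangular -/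
theorem inv_vars {M : ℕ} {P : Fin M → MvPolynomial (Fin M) ℝ} (tri : ∀ j, ∀ i ∈ (P j).vars, i < j) :
    ∀ (n : ℕ) (j : Fin M), (j : ℕ) < n → ∀ i ∈ (inv P j).vars, i ≤ j := by
  classical
  intro n
  induction n with
  | zero => intro j hj; omega
  | succ n ih =>
    intro j hj i hi
    rw [inv_eq tri j] at hi
    rcases Finset.mem_union.1 (MvPolynomial.vars_sub_subset (p := MvPolynomial.X j) hi) with h1 | h1
    · rw [MvPolynomial.vars_X, Finset.mem_singleton] at h1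
      exact h1.le
    · obtain ⟨a, ha, hb⟩ := Finset.mem_biUnion.1 (MvPolynomial.vars_bind₁ (inv P) (P j) h1)
      have h2 := tri j a ha
      have h3 : (a : ℕ) < n := by
        have : (a : ℕ) < j := h2
        omega
      exact (ih a h3 i hb).trans h2.le

section frame

variable {Q : S.VV M} {l : Lab S} {La : Fin M → ℝ} (F : FD0 Q l La)

theorem FD0.tri (X : F.zu.sp.VV M) (hX : Rows.IsX F.zu F.rows X) : (F.pz X hX).Tri := by
  intro k ω j i hi
  classical
  have h1 : i ∈ (MvPolynomial.C (S.dl (La j) k)⁻¹ * inv (F.f.P k ω) j).vars := hi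
  rcases Finset.mem_union.1 (MvPolynomial.vars_mul _ _ h1) with h2 | h2
  · rw [MvPolynomial.vars_C] at h2
    simp at h2
  · exact inv_vars (F.f.tri k ω) M j j.2 i h2

theorem FD0.pd (X : F.zu.sp.VV M) (hX : Rows.IsX F.zu F.rows X) (k : ℕ) (ω : (l k).T.Ω) (x : Fin M → ℝ) (j : Fin M) :
    MvPolynomial.eval x (MvPolynomial.pderiv j ((F.pz X hX).R.p k ω j)) = 2 ^ (La j * (S.F k).n) := by
  have h1 : MvPolynomial.eval x (MvPolynomial.pderiv j (MvPolynomial.C (S.dl (La j) k)⁻¹ * inv (F.f.P k ω) j)) =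
      2 ^ (La j * (S.F k).n) := by
    rw [MvPolynomial.pderiv_C_mul, map_mul, MvPolynomial.eval_C, pderiv_inv (F.f.tri k ω) M j j.2 j le_rfl, if_pos rfl,
      map_one, mul_one, dl_inv_eq]
  exact h1

/-- VOLUMES OF THE PREFIXES of a pair of points, frames -/
theorem FD0.volP_le {κ κ' : Type} [Finite κ] {A : κ → Part S} {B : κ' → Part F.zu.sp} (hl : l.DMf A)
    (hAB : ∀ i, ∃ j, PLe (B j) (upz F.zu (A i))) {C : Part S} (hC : (LC.kz C).ev l)
    {X : F.zu.sp.VV M} (hX : Rows.IsX F.zu F.rows X) (hm : m ≤ M) :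
    volCO (LC.kz C) A (pfx Q hm) ≤ m - ∑ i : Fin m, La (Fin.castLE hm i) -
      F.e * (m - volCO (LC.kz (upz F.zu C)) B (pfx X hm)) := by
  refine (F.pz X hX).volP_le (F.tri X hX) (A := A) (B := B) hl hAB hC La (fun e he => ?_) hm
  refine (Typ_true (S := l.sp)).mono (Eventually.of_forall fun k ω _ _ j => ?_)
  rw [show MvPolynomial.eval (Q.v k ((F.zu.l k).p.π ω)) (MvPolynomial.pderiv j ((F.pz X hX).R.p k ω j)) =
    2 ^ (La j * (S.F k).n) from F.pd X hX k ω _ j, abs_of_pos (by positivity)]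
  apply Real.rpow_le_rpow_of_exponent_le (by norm_num)
  have h1 := (S.F k).pos
  nlinarith

end frame

section frz

variable {s : MSys S M E ι} {R : Rsl S} {l : Lab S} {La : Fin M → ℝ} (F : FD0 s.Q l La)
  {t : MSys (l.ovr F.e F.he) M E' ι} (h : Gz s l F.c F.e F.he F.f.X t) [Finite ι]

include h

/-- VOLUMES OF THE PREFIXES of the zoom in the coordinates of a frame -/
theorem gz_volP (hZ : KLb s R F.c l) {b : ℝ} (hb : 0 ≤ b) (hb1 : b ≤ 1) (hm : m ≤ M) :
    volP s R (F.c + F.e * b) hm ≤ m - ∑ i : Fin m, La (Fin.castLE hm i) -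
      F.e * (m - volP t (rover l F.e F.he R) b hm) := by
  have h1 := KLb_iff.mp hZ
  have hw : WZ F.zu s t b := gz_wz h F.hc F.h1 hb hb1
  rw [volP_cnA, volP_cnA, pR_rover]
  exact F.volP_le (hw.dmA (fun i => h1.1 (some i)) (h1.1 none)) (fun i => ⟨i, hw.cnA_up (PLe.refl _) i⟩) h1.2
    (gz_isX F h) hm

/-- the zoom is stable for all prefixes for which the box of the frame has the volume of the hull -/
theorem gz_volP_zero (hZ : KLb s R F.c l) (hm : m ≤ M) {ε : ℝ}
    (hv : (m : ℝ) - ∑ i : Fin m, La (Fin.castLE hm i) ≤ volP s R F.c hm + ε) :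
    (m : ℝ) - ε / F.e ≤ volP t (rover l F.e F.he R) 0 hm := by
  have h8 := gz_volP F h hZ le_rfl zero_le_one hm
  rw [mul_zero, add_zero] at h8
  have h9 : F.e * (m - volP t (rover l F.e F.he R) 0 hm) ≤ ε := by linarith
  have h10 : m - volP t (rover l F.e F.he R) 0 hm ≤ ε / F.e := by
    rw [le_div_iff₀ F.he]
    linarith
  linarith

end frz

end

end Pool.Agent.Helper7.RD
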