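import Pool.Agent.Helper7.RD.Gw
import Pool.Agent.Helper87.NSL.Inv

/-! DEEP ZOOMS IN THE COORDINATES OF A FRAME, all windows `c ≥ 0`, general leaves, exact charts: existence of `Gzf` of
Helper36/AM/St. Volumes for K-labels of ANY zoom in the coordinates of a frame. -/

set_option autoImplicit false

namespace Pool.Agent.Helper7.RD

open Finset Filter Topology Matrix Pool.Agent.Helper69.RK Pool.Agent.Helper31.EC Pool.Agent.Helper31.EC.Sp
open Pool.Agent.Helper40.EL Pool.Agent.Helper89.LX Pool.Agent.Helper3.LF Pool.Agent.Helper84.MT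
open Pool.Agent.Helper81.AD Pool.Agent.Helper7.GZ
open Pool.Agent.Helper36.AM (Frm Gz Gzf Lfr inv inv_eq)
open Pool.Agent.Helper89.TAY (crn crn_lt)
open Pool.Agent.Helper89.RAD (cnA cnA_pcd cnA_mono cnA_fine DMA DMA_pcd)
open Pool.Agent.Helper87.NSL (KnS)

noncomputable section

/-- the coordinates of a triangular chart -/
theorem inv_back {M : ℕ} {P : Fin M → MvPolynomial (Fin M) ℝ} (tri : ∀ j, ∀ i ∈ (P j).vars, i < j) (x : Fin M → ℝ)
    (j : Fin M) : MvPolynomial.eval (fun a => MvPolynomial.eval x (inv P a)) (P j) + MvPolynomial.eval x (inv P j) =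
      x j := by
  have h1 := congrArg (MvPolynomial.eval x) (inv_eq tri j)
  rw [map_sub, MvPolynomial.eval_X, Pool.Agent.Helper81.MI.eval_bind] at h1
  rw [h1]
  ring

variable {S : Sp} {M M' m : ℕ} {E E' : ℕ → ℕ} {ι : Type}

/-- data of a zoom of a point in the coordinates of a frame -/
structure FD0 (Q : S.VV M) (l : Lab S) (La : Fin M → ℝ) where
  f : Frm Q l La
  c : ℝ
  e : ℝ
  hc : 0 ≤ c
  he : 0 < e
  h1 : c + e ≤ 1
  h0 : ∀ j, 0 ≤ La j
  hLe : ∀ j, La j + e ≤ 1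
  κ₀ : ℕ
  hκ₀ : ∀ k ω j, (f.P k ω j).totalDegree ≤ κ₀

namespace FD0

variable {Q : S.VV M} {l : Lab S} {La : Fin M → ℝ} (F : FD0 Q l La)

/-- the zoom data -/
def zu : ZU S := ⟨l, F.c, F.e, F.hc, F.he, F.h1⟩

theorem hΛ (j : Fin M) : La j ≤ 1 - F.e := by
  have := F.hLe j
  linarith

/-- the rows -/
def rows : Rows Q F.zu.l M ((F.κ₀ + 1) ^ M) (1 - F.e) F.zu.u := frows F.f F.hκ₀ F.h0 F.he.le F.hLe F.hΛ

/-- the coordinates of the frame near the values of the rows -/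
theorem near : ∃ K : ℕ → ℝ, S.Sub K ∧ ∀ᶠ k in UF, ∀ ω : (l k).T.Ω, (l k).T.μ ω ≠ 0 → ∀ j,
    |MvPolynomial.eval (Q.v k ((l k).p.π ω)) (frow F.f k ω j) - F.f.X.v k ω j| ≤ K k * S.dl F.e k := by
  obtain ⟨K, hK, h1⟩ := frow_near F.f F.hκ₀ F.h0 F.hLe (S.Sub_const zero_le_one)
  refine ⟨K, hK, ?_⟩
  filter_upwards [h1] with k a ω hω j
  exact a ω hω (Q.v k ((l k).p.π ω)) (fun i => by
    rw [sub_self, abs_zero]
    exact mul_nonneg zero_le_one (S.dl_pos 1 k).le) j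

/-- THE POINT of the zoom: the value of the rows (a literal function of the point and of the base) -/
def XV : F.zu.sp.VV M where
  v := fun k (ω : (l k).T.Ω) j => MvPolynomial.eval (Q.v k ((l k).p.π ω)) (frow F.f k ω j)
  bd := by
    obtain ⟨K, hK, h1⟩ := F.near
    obtain ⟨Kx, hKx', hx⟩ := F.f.X.bd
    have hKx : S.Sub Kx := (sp_Sub l).mp hKx'
    refine ⟨fun k => Kx k + K k, F.zu.Sub_sp.1 (hKx.add hK), ?_⟩
    filter_upwards [h1, hx, hK.1] with k a b c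
    intro (ω : (l k).T.Ω) hω j
    have h2 := a ω hω j
    have h3 : |F.f.X.v k ω j| ≤ Kx k := b ω hω j
    have h4 : S.dl F.e k ≤ 1 := by
      rw [← S.dl_zero k]
      exact S.dl_anti F.he.le k
    have h5 := mul_le_mul_of_nonneg_left h4 c
    have h6 := abs_add_le (MvPolynomial.eval (Q.v k ((l k).p.π ω)) (frow F.f k ω j) - F.f.X.v k ω j) (F.f.X.v k ω j)
    rw [sub_add_cancel] at h6
    linarith

theorem isX_XV : Rows.IsX F.zu F.rows F.XV := by
  refine ⟨fun _ => 0, S.Sub_const le_rfl, (Typ_true (S := F.zu.sp)).mono (Eventually.of_forall fun k ω _ _ j => ?_)⟩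
  have h1 : F.XV.v k ω j = Rows.val F.zu F.rows k ω j := rfl
  rw [h1, sub_self, abs_zero, zero_mul]

/-- the point is a literal function of the resolution and of the base -/
theorem XV_lit {R : ∀ k, Setoid (S.F k).Ω} (hR : KnS R Q.v) :
    KnS (S := F.zu.sp) (fun k => (Setoid.comap (l k).p.π (R k) : Setoid (l k).T.Ω)) F.XV.v := by
  filter_upwards [hR, F.f.fn] with k h1 h2
  intro (ω : (l k).T.Ω) (ω' : (l k).T.Ω) a b z r
  obtain ⟨g1, g2, g3⟩ := F.zu.hZ k ω ω' a b z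
  have e1 : Q.v k ((l k).p.π ω) = Q.v k ((l k).p.π ω') :=
    h1 _ _ ((l k).p.supp ω a) ((l k).p.supp ω' b) g3 r
  have e2 : F.f.P k ω = F.f.P k ω' := h2 ω ω' a b g2 g1
  funext j
  show MvPolynomial.eval (Q.v k ((l k).p.π ω)) (frow F.f k ω j) =
    MvPolynomial.eval (Q.v k ((l k).p.π ω')) (frow F.f k ω' j)
  unfold frow
  rw [e1, e2]

/-- any point near the coordinates of the frame -/
theorem isX_of {X : F.zu.sp.VV M} (h : ∃ K : ℕ → ℝ, S.Sub K ∧ ∀ᶠ k in UF, ∀ ω : (l.sp.F k).Ω,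
    (l.sp.F k).μ ω ≠ 0 → ∀ j, |X.v k ω j - F.f.X.v k ω j| ≤ K k * S.dl F.e k) : Rows.IsX F.zu F.rows X := by
  obtain ⟨K, hK, h1⟩ := F.near
  obtain ⟨K', hK', h2⟩ := h
  refine ⟨fun k => K' k + K k, hK'.add hK, (Typ_true (S := F.zu.sp)).mono ?_⟩
  filter_upwards [h1, h2] with k a1 a2
  intro (ω : (l k).T.Ω) hω _ j
  have b1 : |X.v k ω j - F.f.X.v k ω j| ≤ K' k * S.dl F.e k := a2 ω hω j
  have b2 : |Rows.val F.zu F.rows k ω j - F.f.X.v k ω j| ≤ K k * S.dl F.e k := a1 ω hω j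
  rw [abs_sub_comm] at b2
  have b3 := abs_add_le (X.v k ω j - F.f.X.v k ω j) (F.f.X.v k ω j - Rows.val F.zu F.rows k ω j)
  rw [sub_add_sub_cancel] at b3
  show |X.v k ω j - Rows.val F.zu F.rows k ω j| ≤ (K' k + K k) * S.dl F.e k
  rw [add_mul]
  linarith

/-- the pair of points -/
def pz (X : F.zu.sp.VV M) (hX : Rows.IsX F.zu F.rows X) : PZ F.zu Q M := ⟨(F.κ₀ + 1) ^ M, 1 - F.e, F.rows, X, hX⟩

/-- the Jacobian of the rows is exactly `2 ^ ((∑ La) n)` -/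
theorem jac_rows (k : ℕ) (ω : (l k).T.Ω) (x : Fin M → ℝ) :
    (2 : ℝ) ^ (2 * (∑ j, La j) * (S.F k).n) ≤ 1 * (jac (F.rows.p k ω) x).det ^ 2 := by
  apply le_of_eq
  have h1 : (jac (F.rows.p k ω) x).det = ∏ j, (S.dl (La j) k)⁻¹ :=
    jac_inv (F.f.tri k ω) (fun j => (S.dl (La j) k)⁻¹) _
  rw [h1, one_mul]
  have h2 : ∏ j, (S.dl (La j) k)⁻¹ = 2 ^ ((∑ j, La j) * (S.F k).n) := by
    rw [Finset.sum_mul, Real.rpow_sum_of_pos (by norm_num)]
    exact Finset.prod_congr rfl fun j _ => dl_inv_eq _ _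
  rw [h2, ← Real.rpow_natCast, ← Real.rpow_mul (by norm_num)]
  congr 1
  push_cast
  ring

theorem ul_La : ul (fun k => ∑ ω, (l k).T.μ ω * ∑ j, La j) = ∑ j, La j := by
  have h3 : (fun k => ∑ ω, (l k).T.μ ω * ∑ j, La j) = fun _ => ∑ j, La j := by
    funext k
    rw [← Finset.sum_mul, Pool.Agent.Helper3.PR.sum_mu, one_mul]
  rw [h3, ul_const]

/-- VOLUMES of a pair of points, frames -/
theorem volC_le {κ κ' : Type} [Finite κ] {A : κ → Part S} {B : κ' → Part F.zu.sp} (hl : l.DMf A)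
    (hAB : ∀ i, ∃ j, PLe (B j) (upz F.zu (A i))) {C : Part S} (hC : (LC.kz C).ev l) {D DD : ℕ} (hD : 1 ≤ D)
    (hDD : D * (F.κ₀ + 1) ^ M ≤ DD) {X : F.zu.sp.VV M} (hX : Rows.IsX F.zu F.rows X) :
    volC (LC.kz C) A Q DD ≤ M - ∑ j, La j - F.e * (M - volC (LC.kz (upz F.zu C)) B X D) := by
  have h := (F.pz X hX).volC_le (A := A) (B := B) hl hAB hC hD hDD (fun _ _ => ∑ j, La j) (∑ j, La j)
    (Eventually.of_forall fun k ω _ => by rw [abs_of_nonneg (Finset.sum_nonneg fun j _ => F.h0 j)]) (fun _ => 1)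
    (S.Sub_const zero_le_one) ((Typ_true (S := l.sp)).mono (Eventually.of_forall fun k ω _ _ => F.jac_rows k ω _))
  rw [show ul (fun k => ∑ ω, (F.zu.l k).T.μ ω * ∑ j, La j) = ∑ j, La j from ul_La] at h
  exact h

theorem volCO_le {κ κ' : Type} [Finite κ] {A : κ → Part S} {B : κ' → Part F.zu.sp} (hl : l.DMf A)
    (hAB : ∀ i, ∃ j, PLe (B j) (upz F.zu (A i))) {C : Part S} (hC : (LC.kz C).ev l)
    {X : F.zu.sp.VV M} (hX : Rows.IsX F.zu F.rows X) :
    volCO (LC.kz C) A Q ≤ M - ∑ j, La j - F.e * (M - volCO (LC.kz (upz F.zu C)) B X) := by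
  have h := (F.pz X hX).volCO_le (A := A) (B := B) hl hAB hC (fun _ _ => ∑ j, La j) (∑ j, La j)
    (Eventually.of_forall fun k ω _ => by rw [abs_of_nonneg (Finset.sum_nonneg fun j _ => F.h0 j)]) (fun _ => 1)
    (S.Sub_const zero_le_one) ((Typ_true (S := l.sp)).mono (Eventually.of_forall fun k ω _ _ => F.jac_rows k ω _))
  rw [show ul (fun k => ∑ ω, (F.zu.l k).T.μ ω * ∑ j, La j) = ∑ j, La j from ul_La] at h
  exact h

end FD0

/-! ### existence -/

/-- EXISTENCE OF THE ZOOM with exact charts for general leaves, any label which has no leak at the windows `c ≥ 0`, any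
frame of bounded degree -/
theorem exists_gzfE {s : MSys S M E ι} {l : Lab S} {La : Fin M → ℝ} (F : FD0 s.Q l La)
    (dm : ∀ i, Nul S (fun k => (l k).leak ((s.lf i).win F.c k))) (hE : ∀ D, E ((F.κ₀ + 1) ^ M * D) ≤ E' D) :
    ∃ t : MSys (l.ovr F.e F.he) M E' ι, Gzf s l F.f F.c F.e F.he t ∧ t.Q = F.XV ∧ (∀ i, (t.lf i).e = (s.lf i).e) ∧
      ∀ b, 0 ≤ b → WZ F.zu s t b := by
  classical
  let z : XW s M E' := {
    Z := F.zu
    dm := dm
    D := (F.κ₀ + 1) ^ M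
    Λ := 1 - F.e
    R := F.rows
    X := F.XV
    hX := F.isX_XV
    D₀ := (F.κ₀ + 1) ^ M
    hD₀ := Nat.one_le_pow _ _ (Nat.succ_pos _)
    hD := le_rfl
    hE := hE }
  refine ⟨z.sys, ⟨⟨?_, fun b i hb _ => ⟨(z.wz hb).le i, (z.wz hb).ge i⟩⟩, fun i => ?_⟩, rfl, fun i => rfl,
    fun b hb => z.wz hb⟩
  · obtain ⟨K, hK, h1⟩ := F.near
    exact ⟨K, hK, h1⟩
  · refine ⟨rfl, fun k ω => crn (s.lf i) F.c k ((l k).p.π ω), fun k ω a => ?_, ?_⟩
    · have hd := (S.dl_pos F.c k).ne'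
      show (s.lf i).Y.v k ((l k).p.π ω) a = crn (s.lf i) F.c k ((l k).p.π ω) a +
        S.dl F.c k * ((s.lf i).Y.v k ((l k).p.π ω) a / S.dl F.c k - ⌊(s.lf i).Y.v k ((l k).p.π ω) a / S.dl F.c k⌋)
      unfold crn
      field_simp
      ring
    · refine Typ.mono (S := F.zu.sp) (z.A_typ i) (Eventually.of_forall fun k => ?_)
      intro (ω : (l k).T.Ω) _ hA y j
      have h1 : ∀ a, S.dl (La a) k * (z.sys.lf i).F k ω y a = MvPolynomial.eval ((s.lf i).F k ((l k).p.π ω)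
          (fun m => crn (s.lf i) F.c k ((l k).p.π ω) m + S.dl F.c k * y m)) (inv (F.f.P k ω) a) := by
        intro a
        rw [z.sys_F i k ω hA y a]
        show S.dl (La a) k * MvPolynomial.eval ((s.lf i).F k ((l k).p.π ω)
          (fun m => crn (s.lf i) F.c k ((l k).p.π ω) m + S.dl F.c k * y m)) (frow F.f k ω a) = _
        unfold frow
        rw [map_mul, MvPolynomial.eval_C, ← mul_assoc, mul_inv_cancel₀ (S.dl_pos _ _).ne', one_mul]
      show (s.lf i).F k ((l k).p.π ω) (fun m => crn (s.lf i) F.c k ((l k).p.π ω) m + S.dl F.c k * y m) j =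
        MvPolynomial.eval (fun a => S.dl (La a) k * (z.sys.lf i).F k ω y a) (F.f.P k ω j) +
          S.dl (La j) k * (z.sys.lf i).F k ω y j
      rw [h1 j, show (fun a => S.dl (La a) k * (z.sys.lf i).F k ω y a) = fun a => MvPolynomial.eval
        ((s.lf i).F k ((l k).p.π ω) (fun m => crn (s.lf i) F.c k ((l k).p.π ω) m + S.dl F.c k * y m))
          (inv (F.f.P k ω) a) from funext h1]
      exact (inv_back (F.f.tri k ω) _ j).symm

/-- linear Remez exponents -/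
theorem lin_mul (g p : ℕ) (hp : 1 ≤ p) (D : ℕ) : Pool.Agent.Helper84.MT.lin g (p * D) ≤ Pool.Agent.Helper84.MT.lin (g * p) D := by
  unfold Pool.Agent.Helper84.MT.lin
  have h1 : p * D + 1 ≤ p * (D + 1) := by
    rw [Nat.mul_add, Nat.mul_one]
    omega
  calc g * (p * D + 1) ≤ g * (p * (D + 1)) := Nat.mul_le_mul_left _ h1
    _ = g * p * (D + 1) := by ring

/-- EXISTENCE OF THE ZOOM, the class of all systems (`zoom` of `Okc`) -/
theorem exists_gzf {g : ℕ} {s : MSys S M (Pool.Agent.Helper84.MT.lin g) ι} {l : Lab S} {La : Fin M → ℝ}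
    (f : Frm s.Q l La) {c e : ℝ} (hc : 0 ≤ c) (he : 0 < e) (h1 : c + e ≤ 1) (h0 : ∀ j, 0 ≤ La j)
    (hLe : ∀ j, La j + e ≤ 1) {κ₀ : ℕ} (hκ₀ : ∀ k ω j, (f.P k ω j).totalDegree ≤ κ₀)
    (dm : ∀ i, Nul S (fun k => (l k).leak ((s.lf i).win c k))) :
    ∃ t : MSys (l.ovr e he) M (Pool.Agent.Helper84.MT.lin (g * (κ₀ + 1) ^ M)) ι, Gzf s l f c e he t ∧
      (∀ i, (t.lf i).e = (s.lf i).e) ∧ ∀ R : ∀ k, Setoid (S.F k).Ω, KnS R s.Q.v →
        KnS (S := l.ovr e he) (fun k => (Setoid.comap (l k).p.π (R k) : Setoid (l k).T.Ω)) t.Q.v := by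
  obtain ⟨t, h2, h3, h4, -⟩ := exists_gzfE (F := ⟨f, c, e, hc, he, h1, h0, hLe, κ₀, hκ₀⟩) dm
    (E' := Pool.Agent.Helper84.MT.lin (g * (κ₀ + 1) ^ M)) (lin_mul g _ (Nat.one_le_pow _ _ (Nat.succ_pos _)))
  refine ⟨t, h2, h4, fun R hR => ?_⟩
  rw [h3]
  exact FD0.XV_lit _ hR

/-! ### labels and volumes of any zoom in the coordinates of a frame -/

section any

variable {s : MSys S M E ι} {l : Lab S} {La : Fin M → ℝ} (F : FD0 s.Q l La)
  {t : MSys (l.ovr F.e F.he) M E' ι} (h : Gz s l F.c F.e F.he F.f.X t)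

include h

theorem gz_isX : Rows.IsX F.zu F.rows t.Q := F.isX_of h.pt

/-- VOLUMES of a zoom, K-labels, one degree -/
theorem gz_volC [Finite ι] (dm : ∀ i, Nul S (fun k => (l k).leak ((s.lf i).win F.c k))) {A C : Part S}
    (hA : Nul S fun k => (l k).leak (A k)) (hC : (LC.kz C).ev l) {D DD : ℕ} (hD : 1 ≤ D)
    (hDD : D * (F.κ₀ + 1) ^ M ≤ DD) {b : ℝ} (hb : 0 ≤ b) (hb1 : b ≤ 1) :
    volC (LC.kz C) (cnA s A (F.c + F.e * b)) s.Q DD ≤
      M - ∑ j, La j - F.e * (M - volC (LC.kz (l.up F.e F.he C)) (cnA t (l.up F.e F.he A) b) t.Q D) := by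
  have hw : WZ F.zu s t b := gz_wz h F.hc F.h1 hb hb1
  exact F.volC_le (hw.dmA dm hA) (fun i => ⟨i, hw.cnA_up (PLe.refl _) i⟩) hC hD hDD (gz_isX F h)

/-- VOLUMES of a zoom, K-labels, all degrees -/
theorem gz_volCO [Finite ι] (dm : ∀ i, Nul S (fun k => (l k).leak ((s.lf i).win F.c k))) {A C : Part S}
    (hA : Nul S fun k => (l k).leak (A k)) (hC : (LC.kz C).ev l) {b : ℝ} (hb : 0 ≤ b) (hb1 : b ≤ 1) :
    volCO (LC.kz C) (cnA s A (F.c + F.e * b)) s.Q ≤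
      M - ∑ j, La j - F.e * (M - volCO (LC.kz (l.up F.e F.he C)) (cnA t (l.up F.e F.he A) b) t.Q) := by
  have hw : WZ F.zu s t b := gz_wz h F.hc F.h1 hb hb1
  exact F.volCO_le (hw.dmA dm hA) (fun i => ⟨i, hw.cnA_up (PLe.refl _) i⟩) hC (gz_isX F h)

/-- THE ZOOM OVER A CARRIER IS STABLE: if the box of the frame has the volume of the K-hull of the window `c`, the
K-hull of the window `0` of the zoom is trivial -/
theorem gz_stable [Finite ι] (dm : ∀ i, Nul S (fun k => (l k).leak ((s.lf i).win F.c k))) {A C : Part S}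
    (hA : Nul S fun k => (l k).leak (A k)) (hC : (LC.kz C).ev l)
    (hv : (M : ℝ) - ∑ j, La j ≤ volCO (LC.kz C) (cnA s A F.c) s.Q) :
    volCO (LC.kz (l.up F.e F.he C)) (cnA t (l.up F.e F.he A) 0) t.Q = M := by
  have h8 := gz_volCO F h dm hA hC le_rfl zero_le_one
  rw [mul_zero, add_zero] at h8
  apply le_antisymm volCO_le_M
  have h9 : 0 ≤ -(F.e * (M - volCO (LC.kz (l.up F.e F.he C)) (cnA t (l.up F.e F.he A) 0) t.Q)) := by linarith
  have h10 := F.he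
  nlinarith

end any

end

end Pool.Agent.Helper7.RD
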