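import Pool.Agent.Helper7.RD.Wp
import Pool.Agent.Helper29.MX.St

/-! BRIDGE between the volumes `volK`, `volKO` and the K-labels `KLb` of the chapter MX and the volumes `volC`, `volCO` of
the classes `LC.kz`: values, monotonicity, zooms (any zoom of the chapter MX, window `c + e b` of the system against the
window `b` of the zoom; labels of the zoom over the label of the zoom, and labels of the system over it). -/

set_option autoImplicit false

namespace Pool.Agent.Helper7.RD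

open Finset Filter Topology Matrix Pool.Agent.Helper69.RK Pool.Agent.Helper31.EC Pool.Agent.Helper31.EC.Sp
open Pool.Agent.Helper40.EL Pool.Agent.Helper89.LX Pool.Agent.Helper3.LF Pool.Agent.Helper84.MT
open Pool.Agent.Helper95.LF Pool.Agent.Helper7.GZ
open Pool.Agent.Helper89.RAD (cnA cnA_pcd cnA_mono cnA_fine DMA DMA_pcd)
open Pool.Agent.Helper49.MD Pool.Agent.Helper36.AM
open Pool.Agent.Helper87.NSL (cndR KnS)
open Pool.Agent.Helper29.MX (Rsl rpull rover KLb KAd KOp volK volKO Pt vis HK)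

noncomputable section

variable {S : Sp} {M M' : ℕ} {E E' : ℕ → ℕ} {ι : Type}

/-- the partitions of a resolution -/
abbrev pR (R : Rsl S) : Part S := fun k => fc (R k)

/-! ### values -/

theorem cndR_cnA (s : MSys S M E ι) (R : Rsl S) (c : ℝ) : cndR s R c = cnA s (pR R) c :=
  funext fun i => by cases i <;> rfl

section vals

variable {s : MSys S M E ι} {R : Rsl S} {D : ℕ} {c : ℝ} {x : ∀ k, FD (S.F k) (Mon M D)}

theorem KLb_iff {l : Lab S} : KLb s R c l ↔ DMA s (pR R) c l ∧ (LC.kz (pR R)).ev l := by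
  rw [KLb, cndR_cnA]
  exact Iff.rfl

theorem KAd_iff : KAd s R D c x ↔ (gaq s.Q D).AdfK (LC.kz (pR R)) (cnA s (pR R) c) x := by
  rw [KAd, cndR_cnA]

theorem KOp_iff : KOp s R D c x ↔ (gaq s.Q D).OptfK (LC.kz (pR R)) (cnA s (pR R) c) x := by
  rw [KOp, cndR_cnA]

theorem exists_KOp (s : MSys S M E ι) (R : Rsl S) (D : ℕ) (c : ℝ) : ∃ x, KOp s R D c x :=
  ⟨_, ((gaq s.Q D).exists_optfK (LC.kz (pR R)) (cndR s R c)).choose_spec⟩

/-- THE VOLUME of K-labels is the volume of the optimal form -/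
theorem volK_eq (s : MSys S M E ι) (R : Rsl S) (D : ℕ) (c : ℝ) :
    volK s R D c = volC (LC.kz (pR R)) (cnA s (pR R) c) s.Q D := by
  obtain ⟨x, hx⟩ := exists_KOp s R D c
  have hb : BddBelow {v | ∃ y : ∀ k, FD (S.F k) (Mon M D), KAd s R D c y ∧ v = vol s.Q D y} := by
    refine ⟨volC (LC.kz (pR R)) (cnA s (pR R) c) s.Q D, ?_⟩
    rintro _ ⟨y, hy, rfl⟩
    exact volC_le_of (KAd_iff.mp hy)
  apply le_antisymm
  · rw [volC_eq (KOp_iff.mp hx)]
    exact csInf_le hb ⟨x, KAd_iff.mpr (KOp_iff.mp hx).1, rfl⟩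
  · refine le_csInf ⟨_, x, KAd_iff.mpr (KOp_iff.mp hx).1, rfl⟩ ?_
    rintro _ ⟨y, hy, rfl⟩
    exact volC_le_of (KAd_iff.mp hy)

theorem volKO_eq (s : MSys S M E ι) (R : Rsl S) (c : ℝ) :
    volKO s R c = volCO (LC.kz (pR R)) (cnA s (pR R) c) s.Q := by
  rw [volKO, volCO]
  exact iInf_congr fun D => volK_eq s R D c

theorem volK_opt (hx : KOp s R D c x) : volK s R D c = vol s.Q D x := by
  rw [volK_eq, volC_eq (KOp_iff.mp hx)]

theorem volK_le_of (hx : KAd s R D c x) : volK s R D c ≤ vol s.Q D x := by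
  rw [volK_eq]
  exact volC_le_of (KAd_iff.mp hx)

theorem volKO_le (D : ℕ) : volKO s R c ≤ volK s R D c := by
  rw [volKO_eq, volK_eq]
  exact volCO_le D

theorem volK_nonneg : 0 ≤ volK s R D c := by
  rw [volK_eq]
  exact volC_nonneg

theorem volKO_nonneg : 0 ≤ volKO s R c := by
  rw [volKO_eq]
  exact volCO_nonneg

theorem volK_le_M : volK s R D c ≤ M := by
  rw [volK_eq]
  exact volC_le_M

theorem volKO_le_M : volKO s R c ≤ M := by
  rw [volKO_eq]
  exact volCO_le_M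

theorem PLe_pR {R' : Rsl S} (hR : ∀ᶠ k in UF, R k ≤ R' k) : PLe (pR R') (pR R) := by
  refine (Nul_zero S).of_le (Eventually.of_forall fun _ => h_nonneg _ _) ?_
  filter_upwards [hR] with k hk
  exact (h_zero (fc_mono hk)).le

theorem kz_pR {R' : Rsl S} (hR : ∀ᶠ k in UF, R k ≤ R' k) {l : Lab S} (h : (LC.kz (pR R')).ev l) :
    (LC.kz (pR R)).ev l := LC.kz_mono (by filter_upwards [hR] with k hk using fc_mono hk) h

/-- a finer resolution and a larger window have more labels -/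
theorem KLb_mono {R' : Rsl S} (hR : ∀ᶠ k in UF, R k ≤ R' k) {a : ℝ} (ha : a ≤ c) {l : Lab S} (h : KLb s R' a l) :
    KLb s R c l := by
  rw [KLb_iff] at h ⊢
  exact ⟨Lab.DMf.mono h.1 fun i => ⟨i, cnA_le (PLe_pR hR) ha i⟩, kz_pR hR h.2⟩

/-- volumes decrease with the window and with the resolution -/
theorem volKO_mono [Finite ι] {R' : Rsl S} (hR : ∀ᶠ k in UF, R k ≤ R' k) {a : ℝ} (ha : a ≤ c) :
    volKO s R c ≤ volKO s R' a := by
  rw [volKO_eq, volKO_eq]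
  exact volCO_mono (fun i => ⟨i, cnA_le (PLe_pR hR) ha i⟩) fun _ h => kz_pR hR h

theorem volK_mono [Finite ι] {R' : Rsl S} (hR : ∀ᶠ k in UF, R k ≤ R' k) {a : ℝ} (ha : a ≤ c) :
    volK s R D c ≤ volK s R' D a := by
  rw [volK_eq, volK_eq]
  exact volC_mono (fun i => ⟨i, cnA_le (PLe_pR hR) ha i⟩) fun _ h => kz_pR hR h

end vals

/-! ### labels and forms of a zoom -/

/-- the resolution over the label of the zoom -/
abbrev roz (Z : ZU S) (R : Rsl S) : Rsl Z.sp := rover Z.l Z.u Z.hu R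

theorem pR_roz (Z : ZU S) (R : Rsl S) : pR (roz Z R) = upz Z (pR R) := rfl

theorem pR_rover (l : Lab S) (e : ℝ) (he : 0 < e) (R : Rsl S) : pR (rover l e he R) = l.up e he (pR R) := rfl

/-- labels of the system over the label of the zoom -/
abbrev ovz (Z : ZU S) (y : Lab S) : Lab Z.sp := Z.l.ovl Z.u Z.hu y

/-- exact labels are exact over a label -/
theorem kz_ovz {Z : ZU S} {B : Part S} {y : Lab S} (hy : (LC.kz B).ev y) :
    (LC.kz (upz Z B)).ev (ovz Z y) := by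
  filter_upwards [hy] with k b
  exact ovlz (Z.l k) Z.u Z.hu (y k) (B k) b

section zm

variable {s : MSys S M E ι} {R : Rsl S} {Z : ZU S} {t : MSys Z.sp M' E' ι} {b : ℝ} (h : WZ Z s t b)

include h

/-- K-LABELS OF THE ZOOM ARE K-LABELS OF THE SYSTEM -/
theorem KLb_cl (hZ : KLb s R Z.c Z.l) {y : Lab Z.sp} (hy : KLb t (roz Z R) b y) :
    KLb s R (Z.c + Z.u * b) (clz Z y) := by
  have h1 := KLb_iff.mp hZ
  have h2 := KLb_iff.mp hy
  exact KLb_iff.mpr ⟨h.DMA_cl (fun i => h1.1 (some i)) (h1.1 none) (PLe.refl _) h2.1, kz_clz h1.2 h2.2⟩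

/-- K-LABELS OF THE SYSTEM ARE K-LABELS OF THE ZOOM -/
theorem KLb_ov {y : Lab S} (hy : KLb s R (Z.c + Z.u * b) y) : KLb t (roz Z R) b (ovz Z y) := by
  have h1 := KLb_iff.mp hy
  have h3 : DMA t (upz Z (pR R)) b (ovz Z y) := h.DMA_ov (PLe.refl _) h1.1
  have h4 : (LC.kz (upz Z (pR R))).ev (ovz Z y) := kz_ovz h1.2
  rw [KLb_iff, pR_roz]
  exact ⟨h3, h4⟩

/-- FORMS OF THE ZOOM ARE ADMISSIBLE FOR THE SYSTEM -/
theorem KAd_out [Finite ι] (z : PZ Z s.Q M') (hX : z.X = t.Q) (hZ : KLb s R Z.c Z.l) {D DD : ℕ} (hDD : D * z.D ≤ DD)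
    {y : ∀ k, FD (Z.sp.F k) (Mon M' D)} (hy : KAd t (roz Z R) D b y) :
    KAd s R DD (Z.c + Z.u * b) (z.out DD y) := by
  have h1 := KLb_iff.mp hZ
  have h2 := KAd_iff.mp hy
  rw [← hX] at h2
  exact KAd_iff.mpr (h.out_adK z (fun i => h1.1 (some i)) (h1.1 none) (PLe.refl _) h1.2 hDD h2)

end zm

/-! ### volumes of the zoom in the coordinates of a frame -/

section vz

variable {s : MSys S M E ι} {R : Rsl S} {l : Lab S} {La : Fin M → ℝ} (F : FD0 s.Q l La)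
  {t : MSys (l.ovr F.e F.he) M E' ι} (h : Gz s l F.c F.e F.he F.f.X t)

include h

/-- K-labels of the zoom are K-labels of the system -/
theorem gz_KLb_cl (hZ : KLb s R F.c l) {b : ℝ} (hb : 0 ≤ b) (hb1 : b ≤ 1) {y : Lab (l.ovr F.e F.he)}
    (hy : KLb t (rover l F.e F.he R) b y) : KLb s R (F.c + F.e * b) (clz F.zu y) :=
  KLb_cl (Z := F.zu) (gz_wz h F.hc F.h1 hb hb1) hZ hy

theorem gz_KLb_ov {b : ℝ} (hb : 0 ≤ b) (hb1 : b ≤ 1) {y : Lab S} (hy : KLb s R (F.c + F.e * b) y) :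
    KLb t (rover l F.e F.he R) b (ovz F.zu y) :=
  KLb_ov (Z := F.zu) (gz_wz h F.hc F.h1 hb hb1) hy

/-- forms of the zoom are admissible for the system -/
theorem gz_KAd [Finite ι] (hZ : KLb s R F.c l) {b : ℝ} (hb : 0 ≤ b) (hb1 : b ≤ 1) {D DD : ℕ}
    (hDD : D * (F.κ₀ + 1) ^ M ≤ DD) {y : ∀ k, FD ((l.ovr F.e F.he).F k) (Mon M D)}
    (hy : KAd t (rover l F.e F.he R) D b y) :
    KAd s R DD (F.c + F.e * b) ((F.pz t.Q (gz_isX F h)).out DD y) :=
  KAd_out (Z := F.zu) (gz_wz h F.hc F.h1 hb hb1) (F.pz t.Q (gz_isX F h)) rfl hZ hDD hy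

/-- VOLUMES, one degree -/
theorem gz_volK [Finite ι] (hZ : KLb s R F.c l) {D DD : ℕ} (hD : 1 ≤ D) (hDD : D * (F.κ₀ + 1) ^ M ≤ DD) {b : ℝ}
    (hb : 0 ≤ b) (hb1 : b ≤ 1) : volK s R DD (F.c + F.e * b) ≤
      M - ∑ j, La j - F.e * (M - volK t (rover l F.e F.he R) D b) := by
  rw [KLb_iff] at hZ
  rw [volK_eq, volK_eq, pR_rover]
  exact gz_volC F h (fun i => hZ.1 (some i)) (hZ.1 none) hZ.2 hD hDD hb hb1

/-- VOLUMES, all degrees -/
theorem gz_volKO [Finite ι] (hZ : KLb s R F.c l) {b : ℝ} (hb : 0 ≤ b) (hb1 : b ≤ 1) :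
    volKO s R (F.c + F.e * b) ≤ M - ∑ j, La j - F.e * (M - volKO t (rover l F.e F.he R) b) := by
  rw [KLb_iff] at hZ
  rw [volKO_eq, volKO_eq, pR_rover]
  exact gz_volCO F h (fun i => hZ.1 (some i)) (hZ.1 none) hZ.2 hb hb1

/-- the window `0`: the zoom over a label with a box of volume `volKO + ε` is stable up to `ε / e` -/
theorem gz_volKO_zero [Finite ι] (hZ : KLb s R F.c l) {ε : ℝ} (hv : (M : ℝ) - ∑ j, La j ≤ volKO s R F.c + ε) :
    (M : ℝ) - ε / F.e ≤ volKO t (rover l F.e F.he R) 0 := by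
  have h8 := gz_volKO F h hZ le_rfl zero_le_one
  rw [mul_zero, add_zero] at h8
  have h9 : F.e * (M - volKO t (rover l F.e F.he R) 0) ≤ ε := by linarith
  have h10 : M - volKO t (rover l F.e F.he R) 0 ≤ ε / F.e := by
    rw [le_div_iff₀ F.he]
    linarith
  linarith

/-- THE ZOOM OVER A CARRIER IS STABLE -/
theorem gz_stableK [Finite ι] (hZ : KLb s R F.c l) (hv : (M : ℝ) - ∑ j, La j ≤ volKO s R F.c) :
    volKO t (rover l F.e F.he R) 0 = M := by
  apply le_antisymm volKO_le_M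
  have h8 := gz_volKO_zero F h hZ (ε := 0) (by linarith)
  rw [zero_div, sub_zero] at h8
  exact h8

end vz

/-! ### volumes of the deep zoom -/

section rw

variable {s : MSys S M E ι} {R : Rsl S} (z : RW s M) [Finite ι]

/-- VOLUMES of the deep zoom; `lam` is a lower bound of the Jacobian of the rows -/
theorem RW.volKO_le (hZ : KLb s R z.Z.c z.Z.l) {b : ℝ} (hb : 0 ≤ b) (lam : ∀ k, (z.Z.l k).T.Ω → ℝ) (Cl : ℝ)
    (hlb : ∀ᶠ k in UF, ∀ ω, (z.Z.l k).T.μ ω ≠ 0 → |lam k ω| ≤ Cl) (K : ℕ → ℝ) (hK : S.Sub K)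
    (hdet : Typ (S := z.Z.l.sp) (fun k (ω : (z.Z.l k).T.Ω) =>
      2 ^ (2 * lam k ω * (S.F k).n) ≤ K k * (jac (z.R.p k ω) (s.Q.v k ((z.Z.l k).p.π ω))).det ^ 2)) :
    volKO s R (z.Z.c + z.Z.u * b) ≤ M - ul (fun k => ∑ ω, (z.Z.l k).T.μ ω * lam k ω) -
      z.Z.u * (M - volKO z.sys (roz z.Z R) b) := by
  have h1 := KLb_iff.mp hZ
  rw [volKO_eq, volKO_eq, pR_roz]
  exact z.volCO_le (h1.1 none) h1.2 hb lam Cl hlb K hK hdet

end rw

end

end Pool.Agent.Helper7.RD
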