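import Pool.Agent.Helper7.GZ.Vo
import Pool.Agent.Helper17.KL.Can

/-! ZOOM OF A POINT IN THE COORDINATES OF ROWS, for any conditions and any class of labels: `Q` is a point of the space,
`X` is a point of the space of the zoom, `X` is the value of the rows at `Q`. Forms of `X` give forms of `Q`, scores and
volumes. (The system of leaves does not enter; this is `GZ/Fo`, `GZ/Vo` for a pair of points.) -/

set_option autoImplicit false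

namespace Pool.Agent.Helper7.RD

open Finset Filter Topology Matrix Pool.Agent.Helper69.RK Pool.Agent.Helper31.EC Pool.Agent.Helper31.EC.Sp
open Pool.Agent.Helper40.EL Pool.Agent.Helper89.LX Pool.Agent.Helper3.LF Pool.Agent.Helper84.MT
open Pool.Agent.Helper95.LF
open Pool.Agent.Helper3.PR (cutm cutm_cpd cutFD cut_typ exp_le)
open Pool.Agent.Helper14.MC (adf_sub gx vx vol_eq vx_UB vx_nonneg vol_opt_le vol_opt_eq)
open Pool.Agent.Helper7.GZ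

noncomputable section

variable {S : Sp} {M M' : ℕ}

/-- labels of the space of the zoom as labels of the space -/
abbrev clz (Z : ZU S) (y : Lab Z.sp) : Lab S := Z.l.comp Z.u Z.hu y

/-- partitions in the space of the zoom -/
abbrev upz (Z : ZU S) (A : Part S) : Part Z.sp := Z.l.up Z.u Z.hu A

theorem PLe_upz (Z : ZU S) {A B : Part S} (h : PLe A B) : PLe (upz Z A) (upz Z B) :=
  Lab.PLe_up (l := Z.l) (c := Z.u) (hc := Z.hu) h

/-- two points which are related by rows of the label -/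
structure PZ (Z : ZU S) (Q : S.VV M) (M' : ℕ) where
  D : ℕ
  Λ : ℝ
  R : Rows Q Z.l M' D Λ Z.u
  X : Z.sp.VV M'
  hX : Rows.IsX Z R X

/-- exact labels over exact labels are exact -/
theorem compz {F : FSp} (l : FLab F) (c : ℝ) (hc : 0 < c) (l2 : FLab (l.ovr c hc)) (x : FL F) (h1 : l.leak x = 0)
    (h2 : l2.leak (l.up c hc x) = 0) : (l.comp c hc l2).leak x = 0 := by
  apply le_antisymm _ (FLab.leak_nonneg _ _)
  refine (l.comp_leak_le c hc l2 x).trans ?_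
  rw [h1, h2, add_zero]

/-- exact labels are exact over a label -/
theorem ovlz {F : FSp} (l : FLab F) (c : ℝ) (hc : 0 < c) (y : FLab F) (x : FL F) (h1 : y.leak x = 0) :
    (l.ovl c hc y).leak (l.up c hc x) = 0 := by
  apply le_antisymm _ (FLab.leak_nonneg _ _)
  exact (l.ovl_leak_le c hc y x).trans h1.le

/-- exact labels over exact labels are exact -/
theorem kz_clz {Z : ZU S} {B : Part S} (hl : (LC.kz B).ev Z.l) {y : Lab Z.sp} (hy : (LC.kz (upz Z B)).ev y) :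
    (LC.kz B).ev (clz Z y) := by
  filter_upwards [hl, hy] with k a b
  exact compz (Z.l k) Z.u Z.hu (y k) (B k) a b

/-- labels of the zoom, for conditions which are dominated by the lifted ones -/
theorem DMf_clz {Z : ZU S} {κ κ' : Type} {A : κ → Part S} {B : κ' → Part Z.sp} (hl : Z.l.DMf A)
    (hAB : ∀ i, ∃ j, PLe (B j) (upz Z (A i))) {y : Lab Z.sp} (hy : y.DMf B) : (clz Z y).DMf A :=
  Lab.DMf.comp hl (Lab.DMf.mono hy hAB)

namespace PZ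

variable {Z : ZU S} {Q : S.VV M} (z : PZ Z Q M')

/-! ### forms -/

section out

variable {D : ℕ} (DD : ℕ) (y : ∀ k, FD (Z.sp.F k) (Mon M' D))

/-- the form of the system -/
def zfm (k : ℕ) (ω : (y k).l.T.Ω) : Matrix (Mon M DD) (Mon M DD) ℝ :=
  1 + sbf DD (z.R.pz k ((y k).l.p.π ω)) (Z.sp.dl 1 k) ((y k).g ω)

theorem zfm_meas (k : ℕ) (ω ω' : (clz Z (lb y) k).T.Ω)
    (h : (clz Z (lb y) k).T.μ ω ≠ 0) (h' : (clz Z (lb y) k).T.μ ω' ≠ 0) (hV : (clz Z (lb y) k).V ω ω')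
    (hZ : (clz Z (lb y) k).T.Z ω ω') : z.zfm DD y k ω = z.zfm DD y k ω' := by
  have a : (y k).l.T.μ ω ≠ 0 := h
  have a' : (y k).l.T.μ ω' ≠ 0 := h'
  have b : (Z.l k).T.μ ((y k).l.p.π ω) ≠ 0 := (y k).l.p.supp ω a
  have b' : (Z.l k).T.μ ((y k).l.p.π ω') ≠ 0 := (y k).l.p.supp ω' a'
  have c1 : (Z.l k).V ((y k).l.p.π ω) ((y k).l.p.π ω') := hV.1
  have c2 : (y k).l.V ω ω' := hV.2
  have c3 : (S.F k).Z ((Z.l k).p.π ((y k).l.p.π ω)) ((Z.l k).p.π ((y k).l.p.π ω')) := hZ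
  have c4 : (Z.l k).T.Z ((y k).l.p.π ω) ((y k).l.p.π ω') := ((Z.l k).p.hZ _ _ b b').mpr c3
  have c5 : (y k).l.T.Z ω ω' := ((y k).l.p.hZ ω ω' a a').mpr ⟨c1, c4⟩
  have e1 := ((y k).meas ω ω' a a' c2 c5).1
  have e2 := z.R.pz_meas k _ _ b b' c4 c1
  unfold zfm
  rw [e1, e2]

theorem one_sbf_ge {P : Fin M' → MvPolynomial (Fin M) ℝ} {r : ℝ} {B : Matrix (Mon M' D) (Mon M' D) ℝ} (hs : B.IsSymm)
    (hB : ∀ x, 0 ≤ x ⬝ᵥ (B *ᵥ x)) : (1 + sbf DD P r B).IsSymm ∧ ∀ x, x ⬝ᵥ x ≤ qf (1 + sbf DD P r B) x := by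
  refine ⟨Matrix.isSymm_one.add (sbf_symm P r hs), fun x => ?_⟩
  rw [qf_add, qf_one']
  have := sbf_nonneg (DD := DD) P r hB x
  show x ⬝ᵥ x ≤ x ⬝ᵥ x + x ⬝ᵥ (sbf DD P r B *ᵥ x)
  linarith

variable {y} {κ : Type} {A : κ → Part Z.sp}

theorem zfm_ge {Φ : Gau Z.sp (Mon M' D)} (hy : Φ.Adf A y) : ∀ᶠ k in UF, ∀ ω, (clz Z (lb y) k).T.μ ω ≠ 0 →
      (z.zfm DD y k ω).IsSymm ∧ ∀ x, x ⬝ᵥ x ≤ qf (z.zfm DD y k ω) x := by
  filter_upwards [hy 1 one_pos] with k hk ω hω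
  have h1 := (hk.2.1 ω hω).1
  exact one_sbf_ge DD h1.1 fun v => h1.psd.2 v

/-- sizes -/
theorem zfm_phi (hDD : D * z.D ≤ DD) (hy : (gaq z.X D).Adf A y) :
    ∃ L : ℕ → ℝ, S.Sub L ∧ Sp.Typ (S := (clz Z (lb y)).sp) (fun k (ω : (y k).l.T.Ω) =>
      (gaq Q DD).φ k ((clz Z (lb y) k).p.π ω) (z.zfm DD y k ω) ≤ L k) := by
  obtain ⟨K1, hK1, hT⟩ := adf_sub hy
  obtain ⟨K2, hK2, h2⟩ := (gaq Q DD).one
  obtain ⟨KL, hKL, hlp⟩ := z.R.lp (fun _ => 1) (S.Sub_const zero_le_one)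
  obtain ⟨KX, hKX, hX⟩ := z.hX
  have hKK : S.Sub (fun k => KL k + KX k) := hKL.add hKX
  have hc1 : (0 : ℝ) ≤ nn M DD := by have := nn_one M DD; linarith
  have hc2 : (0 : ℝ) ≤ nn M' D := by have := nn_one M' D; linarith
  have hc3 : (0 : ℝ) ≤ Cu D * Cm M' D := by
    have h1 := Cu_one D
    have h2 := Cm_one M' D
    positivity
  have hLs : S.Sub (fun k => K2 k + nn M DD * (nn M' D * ((Cu D * Cm M' D * (KL k + KX k + 1) ^ D) ^ 2 * K1 k))) :=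
    hK2.add ((S.Sub_const hc1).mul ((S.Sub_const hc2).mul ((Sub_pow' ((S.Sub_const hc3).mul
      (Sub_pow' (hKK.add (S.Sub_const zero_le_one)) D)) 2).mul (Z.Sub_sp.mpr hK1))))
  refine ⟨_, hLs, ?_⟩
  -- the event on the space of the zoom
  have hE : Typ (S := Z.sp) (fun k (ω : (Z.l k).T.Ω) =>
    (∀ j, |z.X.v k ω j - Rows.val Z z.R k ω j| ≤ KX k * S.dl Z.u k) ∧
      ∀ y : Fin M → ℝ, (∀ i, |y i - Q.v k ((Z.l k).p.π ω) i| ≤ 1 * S.dl 1 k) → ∀ j,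
      |MvPolynomial.eval y (z.R.p k ω j) - MvPolynomial.eval (Q.v k ((Z.l k).p.π ω)) (z.R.p k ω j)| ≤
        KL k * S.dl Z.u k) := Typ.and (S := Z.sp) hX hlp
  have hE' : Tendsto (fun k => (y k).l.T.pb (fun ω => ¬ ((∀ j, |z.X.v k ((y k).l.p.π ω) j -
    Rows.val Z z.R k ((y k).l.p.π ω) j| ≤ KX k * S.dl Z.u k) ∧
      ∀ y' : Fin M → ℝ, (∀ i, |y' i - Q.v k ((Z.l k).p.π ((y k).l.p.π ω)) i| ≤ 1 * S.dl 1 k) → ∀ j,
      |MvPolynomial.eval y' (z.R.p k ((y k).l.p.π ω) j) - MvPolynomial.eval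
        (Q.v k ((Z.l k).p.π ((y k).l.p.π ω))) (z.R.p k ((y k).l.p.π ω) j)| ≤ KL k * S.dl Z.u k))) UF (𝓝 0) := by
    refine Tendsto.congr (fun k => ?_) hE
    exact (pb_push (y k).l.p _).symm
  have hT' : Tendsto (fun k => (y k).l.T.pb (fun ω => ¬ (gaq z.X D).φ k ((y k).l.p.π ω) ((y k).g ω) ≤ K1 k)) UF
    (𝓝 0) := hT
  have hT2 : Typ (S := (lb y).sp) (fun k (ω : (y k).l.T.Ω) => (gaq z.X D).φ k ((y k).l.p.π ω) ((y k).g ω) ≤ K1 k ∧
      ((∀ j, |z.X.v k ((y k).l.p.π ω) j -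
    Rows.val Z z.R k ((y k).l.p.π ω) j| ≤ KX k * S.dl Z.u k) ∧
      ∀ y' : Fin M → ℝ, (∀ i, |y' i - Q.v k ((Z.l k).p.π ((y k).l.p.π ω)) i| ≤ 1 * S.dl 1 k) → ∀ j,
      |MvPolynomial.eval y' (z.R.p k ((y k).l.p.π ω) j) - MvPolynomial.eval
        (Q.v k ((Z.l k).p.π ((y k).l.p.π ω))) (z.R.p k ((y k).l.p.π ω) j)| ≤ KL k * S.dl Z.u k)) :=
    typ_and (S := (lb y).sp) hT' hE'
  refine squeeze_zero' (Eventually.of_forall fun k => Sp.mass_res_nonneg (S := (clz Z (lb y)).sp) k _) ?_ hT2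
  filter_upwards [h2, z.R.pz_ev, hy 1 one_pos, hKL.1, hKX.1, hK1.1] with k a hpz hy1 hKL0 hKX0 hK10
  refine mass_res_mono (y k).l.T.μ _ _ (y k).l.T.nn (fun ω hω hE hcon => hE ?_)
  obtain ⟨hc1', hc2', hc3'⟩ := hcon
  have hω' : (Z.l k).T.μ ((y k).l.p.π ω) ≠ 0 := (y k).l.p.supp ω hω
  have hω'' := (Z.l k).p.supp _ hω'
  have hCp := (hy1.2.1 ω hω).1
  have hPd : PdM ((y k).g ω) := ⟨hCp.1, fun v hv => (self_pos hv).trans_le (hCp.2.1 v)⟩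
  show (gaq Q DD).φ k ((Z.l k).p.π ((y k).l.p.π ω)) (z.zfm DD y k ω) ≤ _
  unfold zfm
  rw [(gaq Q DD).add]
  refine add_le_add (a _ hω'') ?_
  have hdu : 0 < Z.sp.dl 1 k := Z.sp.dl_pos 1 k
  have e0 : z.R.pz k ((y k).l.p.π ω) = z.R.p k ((y k).l.p.π ω) := hpz _
  have h3 := phi_sbf (DD := DD) (z.R.pz k ((y k).l.p.π ω)) (z.R.pz_deg k _) hDD ((y k).g ω) hPd (r := S.dl 1 k)
    (r' := Z.sp.dl 1 k) (K := KL k + KX k) hdu (add_nonneg hKL0 hKX0)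
    (Q.v k ((Z.l k).p.π ((y k).l.p.π ω))) (z.X.v k ((y k).l.p.π ω)) (fun j i => by
      rw [e0, Z.sp_dl1]
      have h4 := hc3' (nodp DD (Q.v k ((Z.l k).p.π ((y k).l.p.π ω))) (S.dl 1 k) j) (fun i => by
        have e1 : nodp DD (Q.v k ((Z.l k).p.π ((y k).l.p.π ω))) (S.dl 1 k) j i -
            Q.v k ((Z.l k).p.π ((y k).l.p.π ω)) i = S.dl 1 k * nod DD (j i) := by
          unfold nodp
          ring
        rw [e1, abs_mul, abs_of_pos (S.dl_pos 1 k), abs_of_nonneg (nod_nonneg DD _), one_mul]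
        exact mul_le_of_le_one_right (S.dl_pos 1 k).le (nod_le DD _ (Nat.le_of_lt_succ (j i).2))) i
      have h5 : |z.X.v k ((y k).l.p.π ω) i - Rows.val Z z.R k ((y k).l.p.π ω) i| ≤ KX k * S.dl Z.u k := hc2' i
      have h6 := abs_sub (MvPolynomial.eval (nodp DD (Q.v k ((Z.l k).p.π ((y k).l.p.π ω))) (S.dl 1 k) j)
        (z.R.p k ((y k).l.p.π ω) i) - Rows.val Z z.R k ((y k).l.p.π ω) i)
        (z.X.v k ((y k).l.p.π ω) i - Rows.val Z z.R k ((y k).l.p.π ω) i)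
      have e2 : MvPolynomial.eval (nodp DD (Q.v k ((Z.l k).p.π ((y k).l.p.π ω))) (S.dl 1 k) j)
        (z.R.p k ((y k).l.p.π ω) i) - Rows.val Z z.R k ((y k).l.p.π ω) i -
        (z.X.v k ((y k).l.p.π ω) i - Rows.val Z z.R k ((y k).l.p.π ω) i) =
        MvPolynomial.eval (nodp DD (Q.v k ((Z.l k).p.π ((y k).l.p.π ω))) (S.dl 1 k) j)
        (z.R.p k ((y k).l.p.π ω) i) - z.X.v k ((y k).l.p.π ω) i := by ring
      rw [e2] at h6
      have h7 : |MvPolynomial.eval (nodp DD (Q.v k ((Z.l k).p.π ((y k).l.p.π ω))) (S.dl 1 k) j)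
        (z.R.p k ((y k).l.p.π ω) i) - Rows.val Z z.R k ((y k).l.p.π ω) i| ≤ KL k * S.dl Z.u k := h4
      rw [add_mul]
      linarith)
  refine h3.trans ?_
  apply mul_le_mul_of_nonneg_left _ hc1
  apply mul_le_mul_of_nonneg_left _ hc2
  apply mul_le_mul_of_nonneg_left _ (sq_nonneg _)
  exact hc1'

/-- the form of the zoom as a form of the system -/
def out (DD : ℕ) (y : ∀ k, FD (Z.sp.F k) (Mon M' D)) : ∀ k, FD (S.F k) (Mon M DD) :=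
  cutFD (gaq Q DD) (clz Z (lb y)) (z.zfm DD y) (z.zfm_meas DD y)

theorem out_l (DD : ℕ) (y : ∀ k, FD (Z.sp.F k) (Mon M' D)) :
    (fun k => (z.out DD y k).l) = clz Z (fun k => (y k).l) := rfl

theorem out_typ (hDD : D * z.D ≤ DD) (hy : (gaq z.X D).Adf A y) :
    Tendsto (fun k => (y k).l.T.pb (fun ω => ¬ Cpd ((gaq Q DD).cp k) (z.zfm DD y k ω))) UF (𝓝 0) := by
  obtain ⟨L, hL, hT⟩ := z.zfm_phi DD hDD hy
  exact cut_typ (Φ := gaq Q DD) (clz Z (lb y)) (z.zfm DD y) (z.zfm_ge DD hy) L hL hT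

theorem out_g (k : ℕ) (ω : (y k).l.T.Ω) (h : Cpd ((gaq Q DD).cp k) (z.zfm DD y k ω)) :
    (z.out DD y k).g ω = z.zfm DD y k ω := cutm_pos h

end out

/-- FORMS OF THE ZOOM ARE ADMISSIBLE -/
theorem out_ad {κ κ' : Type} [Finite κ] {A : κ → Part S} {B : κ' → Part Z.sp} (hl : Z.l.DMf A)
    (hAB : ∀ i, ∃ j, PLe (B j) (upz Z (A i))) {D DD : ℕ} (hDD : D * z.D ≤ DD)
    {y : ∀ k, FD (Z.sp.F k) (Mon M' D)} (hy : (gaq z.X D).Adf B y) :
    (gaq Q DD).Adf A (z.out DD y) := by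
  obtain ⟨L, hL, hT⟩ := z.zfm_phi DD hDD hy
  exact cut_adf (Φ := gaq Q DD) (clz Z (lb y)) (DMf_clz hl hAB (Gau.Adf.dm _ hy)) (z.zfm DD y) (z.zfm_meas DD y)
    (z.zfm_ge DD hy) L hL hT

/-- FORMS OF EXACT LABELS -/
theorem out_adK {κ κ' : Type} [Finite κ] {A : κ → Part S} {B : κ' → Part Z.sp} (hl : Z.l.DMf A)
    (hAB : ∀ i, ∃ j, PLe (B j) (upz Z (A i))) {C : Part S} (hC : (LC.kz C).ev Z.l) {D DD : ℕ} (hDD : D * z.D ≤ DD)
    {y : ∀ k, FD (Z.sp.F k) (Mon M' D)} (hy : (gaq z.X D).AdfK (LC.kz (upz Z C)) B y) :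
    (gaq Q DD).AdfK (LC.kz C) A (z.out DD y) := ⟨z.out_ad hl hAB hDD hy.1, kz_clz hC hy.2⟩

end PZ

end

end Pool.Agent.Helper7.RD
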