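import Pool.Agent.Helper7.RD.W1
import Pool.Agent.Helper7.RD.Pf

/-! WD1 in the vocabulary of the chapter MX: in a class `D w m` every zoom in the coordinates of a frame with the exponents
`w j * c` of a system with polynomial charts has a version with weighted degrees `w`. -/

set_option autoImplicit false

namespace Pool.Agent.Helper7.RD

open Finset Filter Topology Matrix Pool.Agent.Helper69.RK Pool.Agent.Helper31.EC Pool.Agent.Helper31.EC.Sp
open Pool.Agent.Helper40.EL Pool.Agent.Helper89.LX Pool.Agent.Helper3.LF Pool.Agent.Helper84.MT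
open Pool.Agent.Helper49.MD Pool.Agent.Helper36.AM Pool.Agent.Helper7.GZ
open Pool.Agent.Helper87.NSL (cndR KnS)
open Pool.Agent.Helper29.MX (Rsl rpull rover rbot KLb TLb KAd KOp volK volKO volP pfx Pt vis Flg OptLam KZ Stb Okd Okc)

noncomputable section

variable {S : Sp} {M N : ℕ} {E E' : ℕ → ℕ} {ι : Type}

/-- changes of the charts, the form of the chapter MX -/
theorem Tay.mx {s : MSys S M E ι} {s' : MSys S M E' ι} (h : Tay s s') : Pool.Agent.Helper29.MX.Tay s s' := by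
  refine ⟨h.1, fun i => ?_⟩
  obtain ⟨h1, κ, G, G', K, hK, h2, h3, h4, h5⟩ := h.2 i
  refine ⟨h1, κ, G, G', K, hK, h2, h3, h4, (Typ_true (S := S)).mono ?_⟩
  filter_upwards [h5] with k h6 ω hω _
  exact h6 ω hω

/-- RW systems have polynomial charts -/
theorem rw_poly {s : MSys S M E ι} {M' : ℕ} (z : RW s M') : Pool.Agent.Helper26.OUT.WDs (fun _ => (z.κ : ℝ)) z.sys := by
  classical
  intro i
  refine ⟨fun k ω j => if z.A i k ω then z.G i k ω j else
    MvPolynomial.C (rnd (z.Z.sp.dl 1 k) (z.X.v k ω j)), Eventually.of_forall fun k ω _ y j => rfl, fun k ω j => ?_⟩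
  show ((if z.A i k ω then z.G i k ω j else
    MvPolynomial.C (rnd (z.Z.sp.dl 1 k) (z.X.v k ω j)) : MvPolynomial _ ℝ).totalDegree : ℝ) ≤ z.κ
  split_ifs
  · exact Nat.cast_le.2 (z.G_deg i k ω j)
  · rw [MvPolynomial.totalDegree_C, Nat.cast_zero]
    exact Nat.cast_nonneg _

/-- WD1 IN A CLASS `D w m`: `s` is a stable member with polynomial charts (any bounded degree `κ`), `l` a type-label of the
window `c > 0` with a frame of the exponents `w j * c`, `e ≤ (⌊w j⌋ + 1 - w j) c`; then the zoom has a version in the class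
with the weighted degrees `w` and the complexity `g'` (any `g' ≥ w j`, `g' ≥` dimensions of the types) -/
theorem okd_wd {A : MCl N} {C : ℕ → MCl N} {B : MCl N} {D : (Fin N → ℝ) → ℕ → MCl N} (hD : Okd N A C B D) {w : Fin N → ℝ} {m : ℕ}
    (mono : Monotone w) (hw : ∀ j, 1 ≤ w j) {g r : ℕ} {s : MSys S N (Pool.Agent.Helper84.MT.lin g) (Fin r)}
    (hs : D w m S g r s) (st : Stb 0 s (rbot S)) {c e : ℝ} (hc : 0 < c) (he : 0 < e) (h1 : c + e ≤ 1)
    (hwe : ∀ j, w j * c + e ≤ 1) {l : Lab S} (f : Frm s.Q l (fun j => w j * c)) (hl : TLb s c l) {κ : ℕ}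
    (wd : Pool.Agent.Helper26.OUT.WDs (fun _ => (κ : ℝ)) s) {g' : ℕ} (hwg : ∀ j, w j ≤ g') (hg : 1 ≤ g')
    (hge : ∀ i, (s.lf i).e ≤ g') (hfl : ∀ j, e ≤ ((⌊w j⌋₊ : ℝ) + 1 - w j) * c) :
    ∃ t : MSys (l.ovr e he) N (Pool.Agent.Helper84.MT.lin g') (Fin r), D w m (l.ovr e he) g' r t ∧
      Pool.Agent.Helper26.OUT.WDs w t ∧ Gz s l c e he f.X t ∧ (∀ i, (t.lf i).e = (s.lf i).e) ∧
        t.Q = (fdW f hc.le he h1 hwe hw hwg).XV ∧ (∀ R : Rsl S, Pt s R → Pt t (rover l e he R)) ∧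
          ∀ b, 0 ≤ b → WZ ⟨l, c, e, hc.le, he, h1⟩ s t b := by
  obtain ⟨g₁, t, t', -, h2, h3, h4, h5, -, h6, -, h7, h8⟩ := exists_wd f hc he h1 hwe hl hw hwg hg hge wd hfl
  refine ⟨t', hD.tay w m _ g₁ r t (hD.zoom w m mono hw S g r s hs st c e he hc.le hwe l f hl g₁ t h2) g' t' h3.mx, h4,
    h5, h7, h6, fun R hR => ?_, h8⟩
  have h9 := (fdW f hc.le he h1 hwe hw hwg).XV_lit (R := R) hR
  rw [← h6] at h9
  exact h9

end

end Pool.Agent.Helper7.RD
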