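import Pool.Agent.Helper29.MX.St2
import Pool.Agent.Helper7.RD.Wm
import Pool.Agent.Helper52.MW.Ime

/-! ROW `SRTR` of the second half of the selection (sorted coordinates, weighted degrees) from two inputs: `SRCX`
(helper18: the system in the sorted coordinates) and `ZCLX` (helper85: the clauses of the last class pass to zooms over
type-labels in frames; no weighted degrees, the leaves of the zoom are arbitrary). -/

set_option autoImplicit false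

namespace Pool.Agent.Helper7.RD

open Finset Filter Topology Matrix Pool.Agent.Helper69.RK Pool.Agent.Helper31.EC Pool.Agent.Helper31.EC.Sp
open Pool.Agent.Helper40.EL Pool.Agent.Helper89.LX Pool.Agent.Helper84.MT
open Pool.Agent.Helper49.MD Pool.Agent.Helper36.AM
open Pool.Agent.Helper29.MX
open Pool.Agent.Helper26.OUT (WDs)
open Pool.Agent.Helper94.SEL (Ctx)
open Pool.Agent.Helper18.PRM (vcrd scrd)
open Pool.Agent.Helper52.MW (AllE_im AllE_self)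

noncomputable section

variable {S T : Sp} {N M : ℕ} {E : ℕ → ℕ} {ι : Type}

/-- the clauses of the last class which do not see the charts -/
structure Clw (v : ℕ) (w : Fin N → ℝ) (ρ : ℝ) (s : MSys S N E ι) : Prop where
  inv : Inv v s
  tot : AllE (fun _ t R => Tot w t R) S s (rbot S)
  car : AllE (fun _ t R => Car w t R) S s (rbot S)
  dfx : AllE (fun _ t R => Dfx w ρ t R) S s (rbot S)
  vsx : AllE (fun _ t R => Vsx w t R) S s (rbot S)

theorem ym_iff {D : MCl N} {v g r : ℕ} {w : Fin N → ℝ} {ρ : ℝ} {s : MSys S N (lin g) (Fin r)} :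
    YM D v g r w ρ S s ↔ D S g r s ∧ WDs w s ∧ Clw v w ρ s :=
  ⟨fun h => ⟨h.cl, h.wd, ⟨h.inv, h.tot, h.car, h.dfx, h.vsx⟩⟩,
    fun h => ⟨h.1, h.2.2.inv, h.2.1, h.2.2.tot, h.2.2.car, h.2.2.dfx, h.2.2.vsx⟩⟩

/-- the system is stable -/
theorem Clw.stb {v : ℕ} {w : Fin N → ℝ} {ρ : ℝ} {s : MSys S N E ι} (h : Clw v w ρ s) : Stb 0 s (rbot S) := by
  intro T p A hA
  have h1 := h.tot T p A hA 0 le_rfl (fun i => by rw [mul_zero]; exact one_pos)
  show (N : ℝ) - 0 ≤ volKO (s.im p A hA) (rbot S) 0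
  rw [mul_zero] at h1
  exact h1.symm.le

/-- [SRCX] (helper18): the system in the sorted coordinates, the smallest weight is one -/
def SRCX (M : ℕ) : Prop := ∀ (A : MCl (M + 1)) (C : ℕ → MCl (M + 1)) (B : MCl (M + 1))
  (D : (Fin (M + 1) → ℝ) → ℕ → MCl (M + 1)) (v : ℕ), Ctx M A C v → Okd (M + 1) A C B D →
    ∀ (m g r : ℕ) (w : Fin (M + 1) → ℝ) (ρ : ℝ), (∀ i, 1 ≤ w i) → 0 < ρ → ∀ (S : Sp)
      (s : MSys S (M + 1) (lin g) (Fin r)), JT (C m) v g r w ρ S s (rbot S) →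
        ∃ σ : Equiv.Perm (Fin (M + 1)), Monotone (fun j => w (σ j)) ∧ w (σ 0) = 1 ∧
          D (fun j => w (σ j)) m S g r (scrd σ s) ∧ WDs (fun _ => (g : ℝ)) (scrd σ s) ∧
            Clw v (fun j => w (σ j)) ρ (scrd σ s)

/-- [ZCLX] (helper85): the clauses of the last class pass to the zooms over type-labels in frames, every unit -/
def ZCLX (M : ℕ) : Prop := ∀ (A : MCl (M + 1)) (C : ℕ → MCl (M + 1)) (v : ℕ), Ctx M A C v →
  ∀ (g g' r κ : ℕ) (w : Fin (M + 1) → ℝ) (ρ : ℝ), Monotone w → (∀ i, 1 ≤ w i) → 0 < ρ → ∀ (S : Sp)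
    (s : MSys S (M + 1) (lin g) (Fin r)), WDs (fun _ => (κ : ℝ)) s → Clw v w ρ s → ∀ c : ℝ, 0 ≤ c → ∀ (l : Lab S)
      (f : Frm s.Q l (fun j => w j * c)), TLb s c l → ∀ (e : ℝ) (he : 0 < e), (∀ j, w j * c + e ≤ 1) →
        ∀ t : MSys (l.ovr e he) (M + 1) (lin g') (Fin r), Gz s l c e he f.X t → Clw v w ρ t

/-- a small window -/
theorem exists_win (w : Fin N → ℝ) (hw : ∀ i, 1 ≤ w i) : ∃ c e : ℝ, 0 < c ∧ 0 < e ∧ c + e ≤ 1 ∧
    (∀ j, w j * c < 1) ∧ (∀ j, w j * c + e ≤ 1) ∧ ∀ j, e ≤ ((⌊w j⌋₊ : ℝ) + 1 - w j) * c := by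
  obtain ⟨W, hW⟩ : ∃ W : ℝ, W = 1 + ∑ j, w j := ⟨_, rfl⟩
  have h0 : ∀ j, 0 ≤ w j := fun j => zero_le_one.trans (hw j)
  have hWj : ∀ j, w j ≤ W := fun j => by
    have h1 := Finset.single_le_sum (f := w) (fun i _ => h0 i) (Finset.mem_univ j)
    linarith
  have hW1 : 1 ≤ W := by
    have h1 := Finset.sum_nonneg (s := Finset.univ) (f := w) (fun i _ => h0 i)
    linarith
  have hc : 0 < 1 / (2 * W) := by positivity
  have hwc : ∀ j, w j * (1 / (2 * W)) ≤ 1 / 2 := fun j => by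
    have h1 := mul_le_mul_of_nonneg_right (hWj j) hc.le
    have h2 : W * (1 / (2 * W)) = 1 / 2 := by field_simp
    linarith
  have hcc : 1 / (2 * W) ≤ 1 / 2 := by
    have h2 : W * (1 / (2 * W)) = 1 / 2 := by field_simp
    nlinarith
  have hp : ∀ j, 0 < ((⌊w j⌋₊ : ℝ) + 1 - w j) * (1 / (2 * W)) := fun j => by
    have := Nat.lt_floor_add_one (w j)
    exact mul_pos (by linarith) hc
  rcases isEmpty_or_nonempty (Fin N) with hN | hN
  · exact ⟨_, 1 / 2, hc, by norm_num, by linarith, fun j => hN.elim j, fun j => hN.elim j, fun j => hN.elim j⟩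
  · obtain ⟨i, hi⟩ := Finite.exists_min fun j => ((⌊w j⌋₊ : ℝ) + 1 - w j) * (1 / (2 * W))
    refine ⟨_, min (1 / 2) (((⌊w i⌋₊ : ℝ) + 1 - w i) * (1 / (2 * W))), hc, lt_min (by norm_num) (hp i), ?_, ?_, ?_, ?_⟩
    · linarith [min_le_left (1 / 2) (((⌊w i⌋₊ : ℝ) + 1 - w i) * (1 / (2 * W)))]
    · intro j
      linarith [hwc j]
    · intro j
      linarith [hwc j, min_le_left (1 / 2) (((⌊w i⌋₊ : ℝ) + 1 - w i) * (1 / (2 * W)))]
    · exact fun j => (min_le_right _ _).trans (hi j)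

/-- **THE STEP TO WEIGHTED DEGREES**: from a system of the class `D w m` with polynomial charts and all clauses to a
member of the last class -/
theorem ym_step {A : MCl (M + 1)} {C : ℕ → MCl (M + 1)} {B : MCl (M + 1)} {D : (Fin (M + 1) → ℝ) → ℕ → MCl (M + 1)}
    {v : ℕ} (hZ : ZCLX M) (hc : Ctx M A C v) (hD : Okd (M + 1) A C B D) {m g r : ℕ} {w : Fin (M + 1) → ℝ} {ρ : ℝ}
    (mono : Monotone w) (h1 : w 0 = 1) (hρ : 0 < ρ) {s : MSys S (M + 1) (lin g) (Fin r)} (hs : D w m S g r s)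
    (hp : WDs (fun _ => (g : ℝ)) s) (hcl : Clw v w ρ s) :
    ∃ (g' : ℕ) (T : Sp) (t : MSys T (M + 1) (lin g') (Fin r)), Wts M g' w ρ ∧ YM (D w m) v g' r w ρ T t := by
  have hw : ∀ i, 1 ≤ w i := fun i => by
    rw [← h1]
    exact mono (Fin.zero_le i)
  obtain ⟨c, e, c0, e0, hce, hwc, hwe, hfl⟩ := exists_win w hw
  obtain ⟨X, hX⟩ := AllE_self hcl.car c c0.le hwc
  obtain ⟨f⟩ := hX.fr
  have hT : TLb s c (Lab.ofZ X) := (tlb_iff s c _).mp hX.kl
  obtain ⟨g', hg', hwg, hge⟩ : ∃ g' : ℕ, 1 ≤ g' ∧ (∀ j, w j ≤ g') ∧ ∀ i, (s.lf i).e ≤ g' := by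
    refine ⟨1 + ∑ j, ⌈w j⌉₊ + ∑ i, (s.lf i).e, by omega, fun j => ?_, fun i => ?_⟩
    · have h2 : ⌈w j⌉₊ ≤ ∑ j, ⌈w j⌉₊ := Finset.single_le_sum (f := fun j => ⌈w j⌉₊) (fun _ _ => Nat.zero_le _)
        (Finset.mem_univ j)
      refine (Nat.le_ceil (w j)).trans ?_
      exact_mod_cast (show ⌈w j⌉₊ ≤ 1 + ∑ j, ⌈w j⌉₊ + ∑ i, (s.lf i).e by omega)
    · have h2 : (s.lf i).e ≤ ∑ i, (s.lf i).e := Finset.single_le_sum (f := fun i => (s.lf i).e)
        (fun _ _ => Nat.zero_le _) (Finset.mem_univ i)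
      omega
  obtain ⟨t, ht, hwd, hgz, -⟩ := okd_wd hD mono hw hs hcl.stb c0 e0 hce hwe f hT hp hwg hg' hge hfl
  exact ⟨g', _, t, ⟨hg', mono, h1, hw, hwg, hρ⟩, ym_iff.mpr ⟨ht, hwd,
    hZ A C v hc g g' r g w ρ mono hw hρ S s hp hcl c c0.le _ f hT e e0 hwe t hgz⟩⟩

/-- **ROW `SRTR`** -/
theorem srtr (hS : SRCX M) (hZ : ZCLX M) : SRTR M := by
  intro A C B D v hc hD m g r w ρ hw hρ S s hs
  obtain ⟨σ, mono, h1, hd, hp, hcl⟩ := hS A C B D v hc hD m g r w ρ hw hρ S s hs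
  obtain ⟨g', T, t, h2, h3⟩ := ym_step hZ hc hD mono h1 hρ hd hp hcl
  exact ⟨g', _, T, t, h2, h3⟩

/-- **ROW `ZMYR`**, from the same closure: `Okd.zoom` and the zoom in frames with unchanged degree -/
theorem zmyr (hZ : ZCLX M) : ZMYR M := by
  intro A C B D v hc hD m g r w ρ hw S s hs c h0 hwc l f hl e he hwe
  have hwe' : ∀ j, w j * c + e ≤ 1 := fun j => by
    have := mul_le_mul_of_nonneg_right (hw.mono (Fin.le_last j)) h0
    linarith
  have hce : c + e ≤ 1 := by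
    have := mul_le_mul_of_nonneg_right (hw.ge 0) h0
    linarith [hwe' 0]
  have hcl := (ym_iff.mp hs).2.2
  obtain ⟨t, ht, hwd, -⟩ := exists_gzfW f h0 he hce hwe' hl hw.ge hw.le hw.g1 hs.wd
  exact ⟨t, ht, ym_iff.mpr ⟨hD.zoom w m hw.mono hw.ge S g r s hs.cl hcl.stb c e he h0 hwe' l f hl g t ht, hwd,
    hZ A C v hc g g r g w ρ hw.mono hw.ge hw.rho S s (hs.wd.mono hw.le) hcl c h0 l f hl e he hwe' t ht.toGz⟩⟩

end

end Pool.Agent.Helper7.RD
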