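import Pool.Agent.Helper7.RD.Pz

/-! ZOOM OF A POINT IN THE COORDINATES OF ROWS, volumes: if the Jacobian of the rows is typically at least `2 ^ (λ n)`
the volume deficit of the form of `Q` is at least the mean of `λ` plus `u` times the volume deficit of the form of `X`. -/

set_option autoImplicit false

namespace Pool.Agent.Helper7.RD

open Finset Filter Topology Matrix Pool.Agent.Helper69.RK Pool.Agent.Helper31.EC Pool.Agent.Helper31.EC.Sp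
open Pool.Agent.Helper40.EL Pool.Agent.Helper89.LX Pool.Agent.Helper3.LF Pool.Agent.Helper84.MT
open Pool.Agent.Helper95.LF
open Pool.Agent.Helper3.PR (cutm cutm_cpd cutFD cut_typ exp_le)
open Pool.Agent.Helper14.MC (adf_sub gx vx vol_eq vx_UB vx_nonneg vol_opt_le vol_opt_eq)
open Pool.Agent.Helper7.GZ

noncomputable section

variable {S : Sp} {M : ℕ}

namespace PZ

variable {Z : ZU S} {Q : S.VV M} (z : PZ Z Q M)

/-- VOLUME of the form of the zoom in the system -/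
theorem vol_out_le {κ κ' : Type} [Finite κ] {A : κ → Part S} {B : κ' → Part Z.sp} (hl : Z.l.DMf A)
    (hAB : ∀ i, ∃ j, PLe (B j) (upz Z (A i))) {D DD : ℕ} (hD : 1 ≤ D) (hDD : D * z.D ≤ DD)
    {y : ∀ k, FD (Z.sp.F k) (Mon M D)} (hy : (gaq z.X D).Adf B y)
    (lam : ∀ k, (Z.l k).T.Ω → ℝ) (Cl : ℝ) (hlb : ∀ᶠ k in UF, ∀ ω, (Z.l k).T.μ ω ≠ 0 → |lam k ω| ≤ Cl)
    (C : ℕ → ℝ) (hC : S.Sub C) (hdet : Typ (S := Z.l.sp) (fun k (ω : (Z.l k).T.Ω) =>
      2 ^ (2 * lam k ω * (S.F k).n) ≤ C k * (jac (z.R.p k ω) (Q.v k ((Z.l k).p.π ω))).det ^ 2)) :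
    vol Q DD (z.out DD y) ≤
      M - ul (fun k => ∑ ω, (Z.l k).T.μ ω * lam k ω) - Z.u * (M - vol z.X D y) := by
  have hx := z.out_ad hl hAB hDD hy
  obtain ⟨Cy, hCy, hbd⟩ := gx_bd hy
  obtain ⟨C', -, hbd'⟩ := gx_bd hx
  have hUx := vx_UB hx
  have hUy := vx_UB hy
  obtain ⟨KX, hKX, hX⟩ := z.hX
  -- the averages
  have e1 : ∀ k, ∑ ω, (y k).l.T.μ ω * (lam k ((y k).l.p.π ω) + Z.u * gx z.X k ((y k).l.p.π ω) ((y k).g ω)) =
      ∑ ω, (Z.l k).T.μ ω * lam k ω + Z.u * vx z.X y k := by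
    intro k
    have h1 : ∑ ω, (y k).l.T.μ ω * lam k ((y k).l.p.π ω) = ∑ ω, (Z.l k).T.μ ω * lam k ω :=
      sum_push (y k).l.p (fun ω => lam k ω)
    rw [← h1]
    unfold vx
    rw [Finset.mul_sum, ← Finset.sum_add_distrib]
    exact Finset.sum_congr rfl fun ω _ => by ring
  have hUl : UB (fun k => ∑ ω, (Z.l k).T.μ ω * lam k ω) := by
    refine ⟨Cl, ?_⟩
    filter_upwards [hlb] with k hk
    refine (Finset.abs_sum_le_sum_abs _ _).trans ?_
    have h1 : ∀ ω ∈ (Finset.univ : Finset (Z.l k).T.Ω), |(Z.l k).T.μ ω * lam k ω| ≤ (Z.l k).T.μ ω * Cl := by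
      intro ω _
      rw [abs_mul, abs_of_nonneg ((Z.l k).T.nn ω)]
      by_cases h0 : (Z.l k).T.μ ω = 0
      · rw [h0, zero_mul, zero_mul]
      · exact mul_le_mul_of_nonneg_left (hk ω h0) ((Z.l k).T.nn ω)
    refine (Finset.sum_le_sum h1).trans (le_of_eq ?_)
    rw [← Finset.sum_mul, Pool.Agent.Helper3.PR.sum_mu, one_mul]
  have hUg : UB (fun k => ∑ ω, (y k).l.T.μ ω *
      (lam k ((y k).l.p.π ω) + Z.u * gx z.X k ((y k).l.p.π ω) ((y k).g ω))) := by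
    have h1 := hUl.add (hUy.const_mul Z.u)
    have h2 : (fun k => ∑ ω, (y k).l.T.μ ω *
        (lam k ((y k).l.p.π ω) + Z.u * gx z.X k ((y k).l.p.π ω) ((y k).g ω))) =
        fun k => ∑ ω, (Z.l k).T.μ ω * lam k ω + Z.u * vx z.X y k := funext e1
    rw [h2]
    exact h1
  have hE' : Tendsto (fun k => (y k).l.T.pb (fun ω => ¬ ((∀ j, |z.X.v k ((y k).l.p.π ω) j -
      Rows.val Z z.R k ((y k).l.p.π ω) j| ≤ KX k * S.dl Z.u k) ∧
      2 ^ (2 * lam k ((y k).l.p.π ω) * (S.F k).n) ≤ C k * (jac (z.R.p k ((y k).l.p.π ω))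
        (Q.v k ((Z.l k).p.π ((y k).l.p.π ω)))).det ^ 2))) UF (𝓝 0) := by
    have hE : Typ (S := Z.sp) (fun k (ω : (Z.l k).T.Ω) =>
      (∀ j, |z.X.v k ω j - Rows.val Z z.R k ω j| ≤ KX k * S.dl Z.u k) ∧
      2 ^ (2 * lam k ω * (S.F k).n) ≤ C k * (jac (z.R.p k ω) (Q.v k ((Z.l k).p.π ω))).det ^ 2) :=
      Typ.and (S := Z.sp) hX hdet
    refine Tendsto.congr (fun k => ?_) hE
    exact (pb_push (y k).l.p _).symm
  have hE2 : Tendsto (fun k => (y k).l.T.pb (fun ω => ¬ (Cpd ((gaq Q DD).cp k) (z.zfm DD y k ω) ∧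
      ((∀ j, |z.X.v k ((y k).l.p.π ω) j -
      Rows.val Z z.R k ((y k).l.p.π ω) j| ≤ KX k * S.dl Z.u k) ∧
      2 ^ (2 * lam k ((y k).l.p.π ω) * (S.F k).n) ≤ C k * (jac (z.R.p k ((y k).l.p.π ω))
        (Q.v k ((Z.l k).p.π ((y k).l.p.π ω)))).det ^ 2)))) UF (𝓝 0) :=
    typ_and (S := (lb y).sp) (z.out_typ DD hDD hy) hE'
  have key := ul_avg_le (fun k => (y k).l.T) (fun k ω => gx Q k ((z.out DD y k).l.p.π ω) ((z.out DD y k).g ω))
    (fun k ω => lam k ((y k).l.p.π ω) + Z.u * gx z.X k ((y k).l.p.π ω) ((y k).g ω))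
    (fun k ω => Cpd ((gaq Q DD).cp k) (z.zfm DD y k ω) ∧
      ((∀ j, |z.X.v k ((y k).l.p.π ω) j -
      Rows.val Z z.R k ((y k).l.p.π ω) j| ≤ KX k * S.dl Z.u k) ∧
      2 ^ (2 * lam k ((y k).l.p.π ω) * (S.F k).n) ≤ C k * (jac (z.R.p k ((y k).l.p.π ω))
        (Q.v k ((Z.l k).p.π ((y k).l.p.π ω)))).det ^ 2))
    (fun k => (Real.logb 2 (C k + 2) + M * Real.logb 2 (cQ M D) + 2 * D * M * Real.logb 2 (KX k + 2) + M) /
      (2 * (S.F k).n)) (tend_t hC hKX _ _ _) (Cl + Z.u * Cy) hE2 (by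
      filter_upwards [hy 1 one_pos, z.R.pz_ev, hKX.1, hC.1] with k h2 hpz hKX0 hC0 ω hω hE
      have a0 := z.out_g DD k ω hE.1
      have e0 : z.R.pz k ((y k).l.p.π ω) = z.R.p k ((y k).l.p.π ω) := hpz _
      have hXX : ∀ j, |z.X.v k ((y k).l.p.π ω) j - MvPolynomial.eval
          (Q.v k ((Z.l k).p.π ((y k).l.p.π ω))) (z.R.pz k ((y k).l.p.π ω) j)| ≤ KX k * Z.sp.dl 1 k := by
        intro j
        rw [e0, Z.sp_dl1]
        exact hE.2.1 j
      have hdd : 2 ^ (2 * lam k ((y k).l.p.π ω) * (S.F k).n) ≤ C k * (jac (z.R.pz k ((y k).l.p.π ω))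
        (Q.v k ((Z.l k).p.π ((y k).l.p.π ω)))).det ^ 2 := by
        rw [e0]
        exact hE.2.2
      have a1 := gx_real (DD := DD) (z.R.pz k ((y k).l.p.π ω)) (z.R.pz_deg k _) hDD hD ((y k).g ω)
        (h2.2.1 ω hω).1 (r := S.dl 1 k) (Z.sp.dl_pos 1 k) (S.F k).pos Z.hu hKX0 hC0
        (Q.v k ((Z.l k).p.π ((y k).l.p.π ω))) (z.X.v k ((y k).l.p.π ω)) hXX hdd
      rw [a0]
      have e2 : gx z.X k ((y k).l.p.π ω) ((y k).g ω) =
          Real.logb 2 (GQ (Z.sp.dl 1 k) ((y k).g ω) (z.X.v k ((y k).l.p.π ω))) /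
            (2 * (Z.u * (S.F k).n)) := by
        unfold gx
        rw [Z.sp_n]
      rw [e2]
      exact a1) (by
      filter_upwards [hbd, hlb] with k h2 h3 ω hω
      have h4 := mul_le_mul_of_nonneg_left (h2 ω hω).2 Z.hu.le
      have h5 := h3 ((y k).l.p.π ω) ((y k).l.p.supp ω hω)
      have h6 := le_abs_self (lam k ((y k).l.p.π ω))
      linarith) (by
      filter_upwards [hbd'] with k h2 ω hω
      exact (h2 ω hω).1) hUg hUx
  have key2 : ul (fun k => ∑ ω, (Z.l k).T.μ ω * lam k ω + Z.u * vx z.X y k) ≤ ul (vx Q (z.out DD y)) := by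
    have e3 : (fun k => ∑ ω, (Z.l k).T.μ ω * lam k ω + Z.u * vx z.X y k) =
        fun k => ∑ ω, (y k).l.T.μ ω *
          (lam k ((y k).l.p.π ω) + Z.u * gx z.X k ((y k).l.p.π ω) ((y k).g ω)) := funext fun k => (e1 k).symm
    rw [e3]
    exact key
  rw [ul_add hUl (hUy.const_mul Z.u), ul_const_mul _ hUy] at key2
  rw [vol_eq, vol_eq]
  linarith

end PZ

end

end Pool.Agent.Helper7.RD
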