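import Pool.Agent.Helper7.RD.Fx
import Pool.Agent.Helper7.GZ.Wd

/-! DEEP ZOOMS OF SYSTEMS WITH WEIGHTED DEGREES, all windows `c ≥ 0`: if along the types the coordinate `j` is a polynomial
of degree at most `w j` and the frame has the exponents `w j * c`, the zoom in the coordinates of the frame has exact
polynomial charts of degree at most `w j` (the complexity `g` does not change). -/

set_option autoImplicit false

namespace Pool.Agent.Helper7.RD

open Finset Filter Topology Matrix Pool.Agent.Helper69.RK Pool.Agent.Helper31.EC Pool.Agent.Helper31.EC.Sp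
open Pool.Agent.Helper40.EL Pool.Agent.Helper89.LX Pool.Agent.Helper3.LF Pool.Agent.Helper84.MT
open Pool.Agent.Helper81.AD Pool.Agent.Helper7.GZ
open Pool.Agent.Helper36.AM (Frm Gz Gzf Lfr inv inv_eq)
open Pool.Agent.Helper77.WDG (WLe wt wt_smul wLe_one_iff)
open Pool.Agent.Helper89.TAY (crn crn_lt)
open Pool.Agent.Helper87.NSL (KnS)

noncomputable section

variable {S : Sp} {M M' : ℕ} {E E' : ℕ → ℕ} {ι : Type}

/-! ### exact polynomial charts -/

/-- DATA: the rows along the charts are polynomials of degree at most `κx` -/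
structure PW (s : MSys S M E ι) (M' : ℕ) where
  Z : ZU S
  dm : ∀ i, Nul S (fun k => (Z.l k).leak ((s.lf i).win Z.c k))
  D : ℕ
  Λ : ℝ
  R : Rows s.Q Z.l M' D Λ Z.u
  X : Z.sp.VV M'
  hX : Rows.IsX Z R X
  κx : ℕ
  hκ1 : 1 ≤ κx
  he : ∀ i, (s.lf i).e ≤ κx
  G : ∀ i k, (Z.l k).T.Ω → Fin M' → MvPolynomial (Fin (s.lf i).e) ℝ
  deg : ∀ i k ω j, (G i k ω j).totalDegree ≤ κx
  fn : ∀ i, ∀ᶠ k in UF, ∀ ω ω', (Z.l k).T.μ ω ≠ 0 → (Z.l k).T.μ ω' ≠ 0 → (Z.l k).T.Z ω ω' →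
    (Z.l k).V ω ω' → (Z.zLa (s.lf i) k) ω ω' → G i k ω = G i k ω'
  ex : ∀ i, ∀ᶠ k in UF, ∀ ω, (Z.l k).T.μ ω ≠ 0 → ∀ (y : Fin (s.lf i).e → ℝ) (j : Fin M'),
    MvPolynomial.eval y (G i k ω j) = rch Z (s.lf i) R k ω y j

namespace PW

variable {s : MSys S M E ι} (z : PW s M')

/-- the pair of points -/
def pz : PZ z.Z s.Q M' := ⟨z.D, z.Λ, z.R, z.X, z.hX⟩

/-- the coefficients of the charts are tame -/
theorem bound (i : ι) : ∃ K : ℕ → ℝ, S.Sub K ∧ Typ (S := z.Z.sp) (fun k (ω : (z.Z.l k).T.Ω) =>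
    (∀ j a, |(z.G i k ω j).coeff a| ≤ K k) ∧ ∀ j,
      |z.X.v k ω j - MvPolynomial.eval ((z.Z.fr (s.lf i).Y).v k ω) (z.G i k ω j)| ≤ K k * z.Z.sp.dl 1 k) := by
  obtain ⟨B, hB1, hB⟩ := Pool.Agent.Helper63.FRT.exists_coef_bd (s.lf i).e z.κx
  have hBs : S.Sub (fun _ => B) := S.Sub_const (by linarith)
  obtain ⟨K, hK, hT⟩ := rch_bd z.Z (s.lf i) z.R (z.dm i) z.hX
  refine ⟨fun k => B * K k + K k, (hBs.mul hK).add hK, ?_⟩
  refine Typ.mono (S := z.Z.sp) hT ?_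
  filter_upwards [z.ex i, hK.1] with k hex hK0
  intro (ω : (z.Z.l k).T.Ω) hω h
  obtain ⟨h1, h2⟩ := h
  have hfr0 : ∀ a, 0 ≤ (z.Z.fr (s.lf i).Y).v k ω a := fun a => by
    rw [z.Z.fr_v]
    linarith [Int.floor_le ((s.lf i).Y.v k ((z.Z.l k).p.π ω) a / S.dl z.Z.c k)]
  have hfr1 : ∀ a, (z.Z.fr (s.lf i).Y).v k ω a < 1 := fun a => by
    rw [z.Z.fr_v]
    linarith [Int.lt_floor_add_one ((s.lf i).Y.v k ((z.Z.l k).p.π ω) a / S.dl z.Z.c k)]
  constructor
  · intro j a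
    have h4 := hB (z.G i k ω j) (z.deg i k ω j) (K k) (fun y hy => by
      rw [hex ω hω y j]
      refine h1 y (fun a => ?_) j
      have := hy a
      have := hfr0 a
      have := hfr1 a
      rw [abs_le]
      constructor <;> linarith) a
    linarith
  · intro j
    rw [hex ω hω _ j]
    refine (h2 j).trans (mul_le_mul_of_nonneg_right ?_ (z.Z.sp.dl_pos 1 k).le)
    have : 0 ≤ B * K k := mul_nonneg (by linarith) hK0
    linarith

/-- the bound -/
def K (i : ι) : ℕ → ℝ := (z.bound i).choose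

/-- the event -/
def A (i : ι) (k : ℕ) (ω : (z.Z.sp.F k).Ω) : Prop := (∀ j a, |(z.G i k ω j).coeff a| ≤ z.K i k) ∧ ∀ j,
      |z.X.v k ω j - MvPolynomial.eval ((z.Z.fr (s.lf i).Y).v k ω) (z.G i k ω j)| ≤ z.K i k * z.Z.sp.dl 1 k

theorem A_typ (i : ι) : Typ (S := z.Z.sp) (z.A i) := (z.bound i).choose_spec.2

theorem A_pt (i : ι) : ∃ K : ℕ → ℝ, z.Z.sp.Sub K ∧ ∀ᶠ k in UF, ∀ ω, (z.Z.sp.F k).μ ω ≠ 0 → z.A i k ω →
    (∀ j a, |(z.G i k ω j).coeff a| ≤ K k) ∧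
      ∀ j, |z.X.v k ω j - MvPolynomial.eval ((z.Z.fr (s.lf i).Y).v k ω) (z.G i k ω j)| ≤ K k * z.Z.sp.dl 1 k :=
  ⟨z.K i, z.Z.Sub_sp.1 (z.bound i).choose_spec.1, Eventually.of_forall fun _ _ _ h => h⟩

theorem fn' (i : ι) : ∀ᶠ k in UF, ∀ ω ω', (z.Z.sp.F k).μ ω ≠ 0 → (z.Z.sp.F k).μ ω' ≠ 0 → (z.Z.sp.F k).Z ω ω' →
    (z.Z.zLa (s.lf i) k) ω ω' → z.G i k ω = z.G i k ω' := by
  filter_upwards [z.fn i] with k hk ω ω' a b g r
  obtain ⟨g1, g2, -⟩ := z.Z.hZ k ω ω' a b g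
  exact hk ω ω' a b g2 g1 r

/-- THE ZOOM WITH POLYNOMIAL CHARTS -/
def sys : MSys z.Z.sp M' (Pool.Agent.Helper84.MT.lin z.κx) ι where
  Q := z.X
  lf := fun i => ofPolyT z.κx z.hκ1 (s.lf i).e (z.he i) (z.Z.zLa (s.lf i)) (z.Z.fr (s.lf i).Y) (z.G i) (z.deg i)
    (z.fn' i) (z.A i) (z.A_typ i) (z.A_pt i) (z.Z.zfull (s.lf i) (z.dm i))

theorem sys_Q : z.sys.Q = z.X := rfl

theorem sys_e (i : ι) : (z.sys.lf i).e = (s.lf i).e := rfl

theorem sys_Y (i : ι) : (z.sys.lf i).Y = z.Z.fr (s.lf i).Y := rfl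

open Classical in
theorem sys_F (i : ι) (k : ℕ) (ω : (z.Z.sp.F k).Ω) (y : Fin (s.lf i).e → ℝ) (j : Fin M') :
    (z.sys.lf i).F k ω y j = MvPolynomial.eval y (if z.A i k ω then z.G i k ω j else
      MvPolynomial.C (rnd (z.Z.sp.dl 1 k) (z.X.v k ω j))) := rfl

/-- windows -/
theorem wz {b : ℝ} (hb : 0 ≤ b) : WZ z.Z s z.sys b where
  b0 := hb
  le := fun i => PLe.trans (S := z.Z.sp) (ofPolyT_win_le (S := z.Z.sp) z.κx z.hκ1 (s.lf i).e (z.he i)
    (z.Z.zLa (s.lf i)) (z.Z.fr (s.lf i).Y) (z.G i) (z.deg i) (z.fn' i) (z.A i) (z.A_typ i) (z.A_pt i)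
    (z.Z.zfull (s.lf i) (z.dm i)) b) (z.Z.win_up (s.lf i) hb)
  ge := fun i => PLe.trans (S := z.Z.sp) (z.Z.up_win (s.lf i) b) (ofPolyT_win_ge (S := z.Z.sp) z.κx z.hκ1
    (s.lf i).e (z.he i) (z.Z.zLa (s.lf i)) (z.Z.fr (s.lf i).Y) (z.G i) (z.deg i) (z.fn' i) (z.A i) (z.A_typ i)
    (z.A_pt i) (z.Z.zfull (s.lf i) (z.dm i)) b)

end PW

/-! ### weighted degrees -/

/-- a frame with the exponents `w j * c`, `c ≥ 0` -/
theorem frm_red {Q : S.VV M} {l : Lab S} {w : Fin M → ℝ} {c : ℝ} (f : Frm Q l (fun j => w j * c)) (hc : 0 ≤ c) (k : ℕ)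
    (ω : (l.sp.F k).Ω) (j : Fin M) : ∀ a ∈ (f.P k ω j).support, a ≠ 0 → wt w a < w j := by
  intro a ha h0
  have h1 := f.red k ω j a ha h0
  rcases eq_or_lt_of_le hc with h | h
  · rw [← h] at h1
    simp at h1
  · have h2 : wt w a * c < w j * c := by
      rw [← wt_smul]
      exact h1
    exact lt_of_mul_lt_mul_right h2 hc

theorem frm_wLe {Q : S.VV M} {l : Lab S} {w : Fin M → ℝ} {c : ℝ} (f : Frm Q l (fun j => w j * c)) (hc : 0 ≤ c)
    (hw : ∀ j, 0 ≤ w j) (k : ℕ) (ω : (l.sp.F k).Ω) (j : Fin M) : WLe w (w j) (f.P k ω j) := by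
  intro a ha
  by_cases h : a = 0
  · rw [h, Pool.Agent.Helper77.WDG.wt_zero]
    exact hw j
  · exact (frm_red f hc k ω j a ha h).le

/-- the degrees of a frame with the exponents `w j * c` -/
theorem frm_degW {Q : S.VV M} {l : Lab S} {w : Fin M → ℝ} {c : ℝ} (f : Frm Q l (fun j => w j * c)) (hc : 0 ≤ c)
    (hw : ∀ j, 1 ≤ w j) {W : ℕ} (hW : ∀ j, w j ≤ W) (k : ℕ) (ω : (l.sp.F k).Ω) (j : Fin M) :
    (f.P k ω j).totalDegree ≤ W := by
  have h0 : ∀ j, (0 : ℝ) ≤ w j := fun j => zero_le_one.trans (hw j)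
  have h2 := ((frm_wLe f hc h0 k ω j).totalDegree hw (h0 j)).trans (hW j)
  exact_mod_cast h2

/-- the degrees of a frame at a window `c > 0` -/
theorem frm_deg_c {Q : S.VV M} {l : Lab S} {La : Fin M → ℝ} (f : Frm Q l La) {c : ℝ} (hc : 0 < c)
    (hLc : ∀ j, c ≤ La j) (hL1 : ∀ j, La j ≤ 1) (k : ℕ) (ω : (l.sp.F k).Ω) (j : Fin M) :
    (f.P k ω j).totalDegree ≤ ⌊1 / c⌋₊ := by
  apply Finset.sup_le
  intro a ha
  by_cases h0 : a = 0
  · rw [h0]
    exact Nat.zero_le _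
  · have h1 := f.red k ω j a ha h0
    have h2 : (∑ i, (a i : ℝ)) * c ≤ ∑ i, (a i : ℝ) * La i := by
      rw [Finset.sum_mul]
      exact Finset.sum_le_sum fun i _ => mul_le_mul_of_nonneg_left (hLc i) (Nat.cast_nonneg _)
    have h3 : (a.sum fun _ e => e) = ∑ i, a i := Finsupp.sum_fintype _ _ fun _ => rfl
    rw [h3]
    apply Nat.le_floor
    rw [le_div_iff₀ hc]
    push_cast
    linarith [hL1 j]

/-- the degrees of a frame with the exponents zero -/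
theorem frm_deg_0 {Q : S.VV M} {l : Lab S} {La : Fin M → ℝ} (f : Frm Q l La) (hL : ∀ j, La j = 0) (k : ℕ)
    (ω : (l.sp.F k).Ω) (j : Fin M) : (f.P k ω j).totalDegree ≤ 0 := by
  apply Finset.sup_le
  intro a ha
  by_cases h0 : a = 0
  · rw [h0]
    exact Nat.zero_le _
  · have h1 := f.red k ω j a ha h0
    simp [hL] at h1

/-- data: a frame with the exponents `w j * c` -/
def fdW {Q : S.VV M} {l : Lab S} {w : Fin M → ℝ} {c e : ℝ} (f : Frm Q l (fun j => w j * c)) (hc : 0 ≤ c) (he : 0 < e)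
    (h1 : c + e ≤ 1) (hwe : ∀ j, w j * c + e ≤ 1) (hw : ∀ j, 1 ≤ w j) {g : ℕ} (hwg : ∀ j, w j ≤ g) :
    FD0 Q l (fun j => w j * c) :=
  ⟨f, c, e, hc, he, h1, fun j => mul_nonneg (zero_le_one.trans (hw j)) hc, hwe, g, frm_degW f hc hw hwg⟩

/-- EXISTENCE OF THE ZOOM with weighted degrees -/
theorem exists_gzfW {g : ℕ} {s : MSys S M (Pool.Agent.Helper84.MT.lin g) ι} {l : Lab S} {w : Fin M → ℝ} {c e : ℝ}
    (f : Frm s.Q l (fun j => w j * c)) (hc : 0 ≤ c) (he : 0 < e) (h1 : c + e ≤ 1) (hwe : ∀ j, w j * c + e ≤ 1)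
    (dm : ∀ i, Nul S (fun k => (l k).leak ((s.lf i).win c k))) (hw : ∀ j, 1 ≤ w j) (hwg : ∀ j, w j ≤ g) (hg : 1 ≤ g)
    (wd : WDeg s w) : ∃ t : MSys (l.ovr e he) M (Pool.Agent.Helper84.MT.lin g) ι, Gzf s l f c e he t ∧
        WDeg t w ∧ t.Q = (fdW f hc he h1 hwe hw hwg).XV ∧ (∀ i, (t.lf i).e = (s.lf i).e) ∧
          ∀ b, 0 ≤ b → WZ ⟨l, c, e, hc, he, h1⟩ s t b := by
  classical
  have h0 : ∀ j, (0 : ℝ) ≤ w j := fun j => zero_le_one.trans (hw j)
  let F : FD0 s.Q l (fun j => w j * c) := fdW f hc he h1 hwe hw hwg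
  choose G hG1 hG2 using wd
  have hrow : ∀ k (ω : (l k).T.Ω) j, WLe w (w j) (frow f k ω j) := fun k ω j =>
    (inv_wLe h0 (f.tri k ω) (frm_red f hc k ω) M j j.2).C_mul _
  have hdeg : ∀ i k (ω : (l k).T.Ω) j, ((wch (frow f k ω j) (G i k ((l k).p.π ω)) (crn (s.lf i) c k ((l k).p.π ω))
      (S.dl c k)).totalDegree : ℝ) ≤ w j := fun i k ω j =>
    wch_deg h0 (h0 j) (hrow k ω j) (fun j => hG2 i k _ j) _ _
  let z : PW s M := {
    Z := F.zu
    dm := dm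
    D := (g + 1) ^ M
    Λ := 1 - e
    R := F.rows
    X := F.XV
    hX := F.isX_XV
    κx := g
    hκ1 := hg
    he := fun i => by
      have h1 := (s.lf i).he
      unfold Pool.Agent.Helper84.MT.lin at h1
      rw [zero_add, mul_one] at h1
      exact h1
    G := fun i k ω j => wch (frow f k ω j) (G i k ((l k).p.π ω)) (crn (s.lf i) c k ((l k).p.π ω)) (S.dl c k)
    deg := fun i k ω j => by
      have h1 := (hdeg i k ω j).trans (hwg j)
      exact_mod_cast h1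
    fn := by
      intro i
      filter_upwards [F.rows.fn, (s.lf i).fn, hG1 i] with k h1 h2 h3 ω ω' a b z v r
      have e1 : frow f k ω = frow f k ω' := h1 ω ω' a b z v
      have hω := (l k).p.supp ω a
      have hω' := (l k).p.supp ω' b
      have zz := ((l k).p.hZ ω ω' a b).1 z
      have e2 : (s.lf i).F k ((l k).p.π ω) = (s.lf i).F k ((l k).p.π ω') := h2 _ _ hω hω' zz r.1
      have e3 : G i k ((l k).p.π ω) = G i k ((l k).p.π ω') := by
        funext j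
        apply MvPolynomial.funext
        intro y
        rw [← h3 _ hω y j, ← h3 _ hω' y j, e2]
      have e4 : crn (s.lf i) c k ((l k).p.π ω) = crn (s.lf i) c k ((l k).p.π ω') := by
        funext a
        have h4 : ⌊(s.lf i).Y.v k ((l k).p.π ω) a / S.dl c k⌋ = ⌊(s.lf i).Y.v k ((l k).p.π ω') a / S.dl c k⌋ :=
          congrFun r.2 a
        unfold crn
        rw [h4]
      funext j
      show wch (frow f k ω j) _ _ _ = wch (frow f k ω' j) _ _ _
      rw [e1, e3, e4]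
    ex := by
      intro i
      filter_upwards [hG1 i] with k h3 ω hω y j
      show MvPolynomial.eval y (wch (frow f k ω j) (G i k ((l k).p.π ω)) (crn (s.lf i) c k ((l k).p.π ω))
        (S.dl c k)) = MvPolynomial.eval ((s.lf i).F k ((l k).p.π ω)
          (fun a => crn (s.lf i) c k ((l k).p.π ω) a + S.dl c k * y a)) (frow f k ω j)
      rw [wch_eval]
      congr 2
      funext i'
      exact (h3 _ ((l k).p.supp ω hω) _ i').symm }
  refine ⟨z.sys, ⟨⟨?_, fun b i hb _ => ⟨(z.wz hb).le i, (z.wz hb).ge i⟩⟩, fun i => ?_⟩, ?_,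
    rfl, fun i => rfl, fun b hb => z.wz hb⟩
  · obtain ⟨K, hK, h1⟩ := F.near
    exact ⟨K, hK, h1⟩
  · refine ⟨rfl, fun k ω => crn (s.lf i) F.c k ((l k).p.π ω), fun k ω a => ?_, ?_⟩
    · have hd := (S.dl_pos F.c k).ne'
      show (s.lf i).Y.v k ((l k).p.π ω) a = crn (s.lf i) F.c k ((l k).p.π ω) a +
        S.dl F.c k * ((s.lf i).Y.v k ((l k).p.π ω) a / S.dl F.c k - ⌊(s.lf i).Y.v k ((l k).p.π ω) a / S.dl F.c k⌋)
      unfold crn
      field_simp
      ring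
    · refine Typ.mono (S := F.zu.sp) (z.A_typ i) ?_
      filter_upwards [z.ex i] with k hex
      intro (ω : (l k).T.Ω) hω hA y j
      have h1 : ∀ a, S.dl (w a * c) k * (z.sys.lf i).F k ω y a = MvPolynomial.eval ((s.lf i).F k ((l k).p.π ω)
          (fun m => crn (s.lf i) F.c k ((l k).p.π ω) m + S.dl F.c k * y m)) (inv (f.P k ω) a) := by
        intro a
        rw [z.sys_F i k ω y a, if_pos hA, hex ω hω y a]
        show S.dl (w a * c) k * MvPolynomial.eval ((s.lf i).F k ((l k).p.π ω)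
          (fun m => crn (s.lf i) F.c k ((l k).p.π ω) m + S.dl F.c k * y m)) (frow f k ω a) = _
        unfold frow
        rw [map_mul, MvPolynomial.eval_C, ← mul_assoc, mul_inv_cancel₀ (S.dl_pos _ _).ne', one_mul]
      show (s.lf i).F k ((l k).p.π ω) (fun m => crn (s.lf i) F.c k ((l k).p.π ω) m + S.dl F.c k * y m) j =
        MvPolynomial.eval (fun a => S.dl (w a * c) k * (z.sys.lf i).F k ω y a) (f.P k ω j) +
          S.dl (w j * c) k * (z.sys.lf i).F k ω y j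
      rw [h1 j, show (fun a => S.dl (w a * c) k * (z.sys.lf i).F k ω y a) = fun a => MvPolynomial.eval
        ((s.lf i).F k ((l k).p.π ω) (fun m => crn (s.lf i) F.c k ((l k).p.π ω) m + S.dl F.c k * y m))
          (inv (f.P k ω) a) from funext h1]
      exact (inv_back (f.tri k ω) _ j).symm
  · intro i
    refine ⟨fun k ω j => if z.A i k ω then z.G i k ω j else
      MvPolynomial.C (rnd ((l.ovr e he).dl 1 k) (F.XV.v k ω j)), Eventually.of_forall fun k ω _ y j => ?_,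
      fun k ω j => ?_⟩
    · exact z.sys_F i k ω y j
    · show ((if z.A i k ω then z.G i k ω j else
        MvPolynomial.C (rnd ((l.ovr e he).dl 1 k) (F.XV.v k ω j)) : MvPolynomial _ ℝ).totalDegree : ℝ) ≤ w j
      split_ifs
      · exact hdeg i k ω j
      · rw [MvPolynomial.totalDegree_C, Nat.cast_zero]
        exact h0 j

end

end Pool.Agent.Helper7.RD
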