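import Pool.Agent.Helper7.RD.Vz
import Pool.Agent.Helper7.GZ.Inst
import Pool.Agent.Helper89.RAD.Zl

/-! DEEP ZOOM IN THE COORDINATES OF ROWS: the label has no leak (up to `o(n)`) at the windows `c` only. Conditions
`cnA s A c` of helper89 (a partition `A`, for instance a resolution deeper than the point, and the windows). -/

set_option autoImplicit false

namespace Pool.Agent.Helper7.RD

open Finset Filter Topology Matrix Pool.Agent.Helper69.RK Pool.Agent.Helper31.EC Pool.Agent.Helper31.EC.Sp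
open Pool.Agent.Helper40.EL Pool.Agent.Helper89.LX Pool.Agent.Helper3.LF Pool.Agent.Helper84.MT
open Pool.Agent.Helper81.AD Pool.Agent.Helper7.GZ
open Pool.Agent.Helper89.RAD (cnA cnA_pcd cnA_mono cnA_fine DMA DMA_pcd)

noncomputable section

variable {S : Sp} {M M' : ℕ} {E : ℕ → ℕ} {ι : Type}

/-- the data of the DEEP zoom in the coordinates of rows -/
structure RW (s : MSys S M E ι) (M' : ℕ) where
  Z : ZU S
  hc : 0 < Z.c
  dm : ∀ i, Nul S (fun k => (Z.l k).leak ((s.lf i).win Z.c k))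
  D : ℕ
  Λ : ℝ
  R : Rows s.Q Z.l M' D Λ Z.u
  X : Z.sp.VV M'
  hX : Rows.IsX Z R X
  κ : ℕ
  hκ1 : 1 ≤ κ
  he : ∀ i, (s.lf i).e ≤ κ
  hκ : Λ + Z.u ≤ Z.c * (κ + 1)

namespace RW

variable {s : MSys S M E ι} (z : RW s M')

/-- the Taylor polynomials -/
def G (i : ι) : ∀ k, (z.Z.l k).T.Ω → Fin M' → MvPolynomial (Fin (s.lf i).e) ℝ :=
  (rows_tay z.Z z.hc z.R (s.lf i) (z.dm i) z.hκ z.hX).choose

theorem G_deg (i : ι) : ∀ k ω j, (z.G i k ω j).totalDegree ≤ z.κ :=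
  (rows_tay z.Z z.hc z.R (s.lf i) (z.dm i) z.hκ z.hX).choose_spec.1

theorem G_fn (i : ι) : ∀ᶠ k in UF, ∀ ω ω', (z.Z.l k).T.μ ω ≠ 0 → (z.Z.l k).T.μ ω' ≠ 0 → (z.Z.l k).T.Z ω ω' →
    (z.Z.l k).V ω ω' → (z.Z.zLa (s.lf i) k) ω ω' → z.G i k ω = z.G i k ω' :=
  (rows_tay z.Z z.hc z.R (s.lf i) (z.dm i) z.hκ z.hX).choose_spec.2.1

/-- the bound of the Taylor polynomials -/
def K (i : ι) : ℕ → ℝ := (rows_tay z.Z z.hc z.R (s.lf i) (z.dm i) z.hκ z.hX).choose_spec.2.2.choose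

theorem K_sub (i : ι) : S.Sub (z.K i) :=
  (rows_tay z.Z z.hc z.R (s.lf i) (z.dm i) z.hκ z.hX).choose_spec.2.2.choose_spec.1

/-- the event of the Taylor polynomials -/
def A (i : ι) (k : ℕ) (ω : (z.Z.sp.F k).Ω) : Prop := (∀ j a, |(z.G i k ω j).coeff a| ≤ z.K i k) ∧
  ∀ j, |z.X.v k ω j - MvPolynomial.eval ((z.Z.fr (s.lf i).Y).v k ω) (z.G i k ω j)| ≤ z.K i k * z.Z.sp.dl 1 k

theorem A_typ (i : ι) : Typ (S := z.Z.sp) (z.A i) :=
  (rows_tay z.Z z.hc z.R (s.lf i) (z.dm i) z.hκ z.hX).choose_spec.2.2.choose_spec.2.1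

/-- the Taylor polynomials on the cube -/
theorem G_cube (i : ι) : Typ (S := z.Z.sp) (fun k (ω : (z.Z.l k).T.Ω) => ∀ y : Fin (s.lf i).e → ℝ,
    (∀ a, |y a - (z.Z.fr (s.lf i).Y).v k ω a| < 1) → ∀ j,
      |MvPolynomial.eval ((s.lf i).F k ((z.Z.l k).p.π ω) (fun a =>
        Pool.Agent.Helper89.TAY.crn (s.lf i) z.Z.c k ((z.Z.l k).p.π ω) a + S.dl z.Z.c k * y a)) (z.R.p k ω j) -
          MvPolynomial.eval y (z.G i k ω j)| ≤ z.K i k * S.dl z.Z.u k) :=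
  (rows_tay z.Z z.hc z.R (s.lf i) (z.dm i) z.hκ z.hX).choose_spec.2.2.choose_spec.2.2

theorem G_fn' (i : ι) : ∀ᶠ k in UF, ∀ ω ω', (z.Z.sp.F k).μ ω ≠ 0 → (z.Z.sp.F k).μ ω' ≠ 0 → (z.Z.sp.F k).Z ω ω' →
    (z.Z.zLa (s.lf i) k) ω ω' → z.G i k ω = z.G i k ω' := by
  filter_upwards [z.G_fn i] with k hk ω ω' a b g r
  obtain ⟨g1, g2, -⟩ := z.Z.hZ k ω ω' a b g
  exact hk ω ω' a b g2 g1 r

theorem A_pt (i : ι) : ∃ K : ℕ → ℝ, z.Z.sp.Sub K ∧ ∀ᶠ k in UF, ∀ ω, (z.Z.sp.F k).μ ω ≠ 0 → z.A i k ω →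
    (∀ j a, |(z.G i k ω j).coeff a| ≤ K k) ∧
      ∀ j, |z.X.v k ω j - MvPolynomial.eval ((z.Z.fr (s.lf i).Y).v k ω) (z.G i k ω j)| ≤
        K k * z.Z.sp.dl 1 k :=
  ⟨z.K i, z.Z.Sub_sp.1 (z.K_sub i), Eventually.of_forall fun _ _ _ h => h⟩

/-- THE ZOOM IN THE COORDINATES OF THE ROWS -/
def sys : MSys z.Z.sp M' (lin z.κ) ι where
  Q := z.X
  lf := fun i => ofPolyT z.κ z.hκ1 (s.lf i).e (z.he i) (z.Z.zLa (s.lf i)) (z.Z.fr (s.lf i).Y) (z.G i) (z.G_deg i)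
    (z.G_fn' i) (z.A i) (z.A_typ i) (z.A_pt i) (z.Z.zfull (s.lf i) (z.dm i))

theorem sys_Q : z.sys.Q = z.X := rfl

theorem sys_e (i : ι) : (z.sys.lf i).e = (s.lf i).e := rfl

/-- parts in the space of the zoom -/
abbrev upz (A : Part S) : Part z.Z.sp := z.Z.l.up z.Z.u z.Z.hu A

theorem PLe_upz {A B : Part S} (h : PLe A B) : PLe (z.upz A) (z.upz B) :=
  Lab.PLe_up (l := z.Z.l) (c := z.Z.u) (hc := z.Z.hu) h

/-- the pair of points -/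
def pz : PZ z.Z s.Q M' := ⟨z.D, z.Λ, z.R, z.X, z.hX⟩

/-- the coordinates are known to the point -/
theorem pcd_up : PLe (pcd z.sys.Q) (z.upz (pcd s.Q)) := by
  obtain ⟨K, hK, hT⟩ := z.R.lp (fun _ => 1) (S.Sub_const zero_le_one)
  have hT2 : Typ (S := z.Z.sp) (fun k (ω : (z.Z.l k).T.Ω) =>
    ∀ y : Fin M → ℝ, (∀ i, |y i - s.Q.v k ((z.Z.l k).p.π ω) i| ≤ 1 * S.dl 1 k) → ∀ j,
      |MvPolynomial.eval y (z.R.p k ω j) - MvPolynomial.eval (s.Q.v k ((z.Z.l k).p.π ω)) (z.R.p k ω j)| ≤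
        K k * S.dl z.Z.u k) := hT
  obtain ⟨KX, hKX, hX⟩ := z.hX
  refine PLe_cell_typ (S := z.Z.sp) z.X 1
    (fun k => Setoid.comap (z.Z.l k).p.π (Setoid.ker (s.Q.cellv 1 k))) (fun k => K k + 2 * KX k)
    (z.Z.Sub_sp.1 (hK.add ((S.Sub_const (by norm_num)).mul hKX))) (hX.and hT2) ?_
  filter_upwards [z.R.fn] with k hfn
  intro (ω : (z.Z.l k).T.Ω) (ω' : (z.Z.l k).T.Ω) a b h1 h2 g r j
  obtain ⟨g1, g2, -⟩ := z.Z.hZ k ω ω' a b g
  rw [z.Z.sp_dl1]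
  have h3 : z.R.p k ω = z.R.p k ω' := hfn ω ω' a b g2 g1
  have h4 := h2.2 (s.Q.v k ((z.Z.l k).p.π ω)) (fun i => by
    rw [one_mul]
    exact abs_sub_le_of_floor_eq (S.dl_pos 1 k) (congrFun r i)) j
  have h5 := h1.1 j
  have h6 := h2.1 j
  have e1 : z.X.v k ω j - z.X.v k ω' j = (z.X.v k ω j - Rows.val z.Z z.R k ω j) +
      (Rows.val z.Z z.R k ω j - Rows.val z.Z z.R k ω' j) - (z.X.v k ω' j - Rows.val z.Z z.R k ω' j) := by ring
  have h7 : |Rows.val z.Z z.R k ω j - Rows.val z.Z z.R k ω' j| ≤ K k * S.dl z.Z.u k := by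
    unfold Rows.val
    rw [h3]
    exact h4
  rw [e1, add_mul, mul_assoc]
  have h8 := abs_sub ((z.X.v k ω j - Rows.val z.Z z.R k ω j) +
      (Rows.val z.Z z.R k ω j - Rows.val z.Z z.R k ω' j)) (z.X.v k ω' j - Rows.val z.Z z.R k ω' j)
  have h9 := abs_add_le (z.X.v k ω j - Rows.val z.Z z.R k ω j) (Rows.val z.Z z.R k ω j - Rows.val z.Z z.R k ω' j)
  linarith

/-- windows of the zoom -/
theorem win_le (i : ι) {b : ℝ} (hb : 0 ≤ b) :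
    PLe ((z.sys.lf i).win b) (z.upz ((s.lf i).win (z.Z.c + z.Z.u * b))) :=
  PLe.trans (S := z.Z.sp) (ofPolyT_win_le (S := z.Z.sp) z.κ z.hκ1 (s.lf i).e (z.he i) (z.Z.zLa (s.lf i))
    (z.Z.fr (s.lf i).Y) (z.G i) (z.G_deg i) (z.G_fn' i) (z.A i) (z.A_typ i) (z.A_pt i)
    (z.Z.zfull (s.lf i) (z.dm i)) b) (z.Z.win_up (s.lf i) hb)

theorem win_ge (i : ι) (b : ℝ) :
    PLe (z.upz ((s.lf i).win (z.Z.c + z.Z.u * b))) ((z.sys.lf i).win b) :=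
  PLe.trans (S := z.Z.sp) (z.Z.up_win (s.lf i) b) (ofPolyT_win_ge (S := z.Z.sp) z.κ z.hκ1 (s.lf i).e (z.he i)
    (z.Z.zLa (s.lf i)) (z.Z.fr (s.lf i).Y) (z.G i) (z.G_deg i) (z.G_fn' i) (z.A i) (z.A_typ i) (z.A_pt i)
    (z.Z.zfull (s.lf i) (z.dm i)) b)

/-- CONDITIONS OF THE ZOOM -/
theorem cnA_up {A : Part S} {A' : Part z.Z.sp} (hA : PLe A' (z.upz A)) {b : ℝ} (hb : 0 ≤ b) (i : Option ι) :
    PLe (cnA z.sys A' b i) (z.upz (cnA s A (z.Z.c + z.Z.u * b) i)) := by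
  rcases i with _ | i
  · exact hA
  · exact z.win_le i hb

theorem up_cnA {A : Part S} {A' : Part z.Z.sp} (hA : PLe (z.upz A) A') (b : ℝ) (i : Option ι) :
    PLe (z.upz (cnA s A (z.Z.c + z.Z.u * b) i)) (cnA z.sys A' b i) := by
  rcases i with _ | i
  · exact hA
  · exact z.win_ge i b

theorem c_le {b : ℝ} (hb : 0 ≤ b) : z.Z.c ≤ z.Z.c + z.Z.u * b := by
  have := mul_nonneg z.Z.hu.le hb
  linarith

/-- labels of the zoom, in terms of the conditions of the system -/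
theorem DMA_iff (A : Part S) {b : ℝ} (hb : 0 ≤ b) {y : Lab z.Z.sp} :
    DMA z.sys (z.upz A) b y ↔ y.DMf (fun i => z.upz (cnA s A (z.Z.c + z.Z.u * b) i)) :=
  ⟨fun h => Lab.DMf.mono h fun i => ⟨i, z.cnA_up (PLe.refl _) hb i⟩,
    fun h => Lab.DMf.mono h fun i => ⟨i, z.up_cnA (PLe.refl _) b i⟩⟩

/-- labels of the zoom as labels of the system -/
def cl (y : Lab z.Z.sp) : Lab S := z.Z.l.comp z.Z.u z.Z.hu y

/-- labels of the system over the label of the zoom -/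
def ov (y : Lab S) : Lab z.Z.sp := z.Z.l.ovl z.Z.u z.Z.hu y

/-- the label of the zoom has the condition `A` -/
theorem dmA {A : Part S} (hA : Nul S fun k => (z.Z.l k).leak (A k)) : DMA s A z.Z.c z.Z.l := by
  intro i
  rcases i with _ | i
  · exact hA
  · exact z.dm i

theorem dmA' {A : Part S} (hA : Nul S fun k => (z.Z.l k).leak (A k)) {b : ℝ} (hb : 0 ≤ b) :
    DMA s A (z.Z.c + z.Z.u * b) z.Z.l := (z.dmA hA).mono (z.c_le hb)

/-- LABELS OF THE ZOOM ARE LABELS OF THE SYSTEM -/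
theorem DMA_cl {A : Part S} (hA : Nul S fun k => (z.Z.l k).leak (A k)) {b : ℝ} (hb : 0 ≤ b) {y : Lab z.Z.sp}
    (hy : DMA z.sys (z.upz A) b y) : DMA s A (z.Z.c + z.Z.u * b) (z.cl y) :=
  Lab.DMf.comp (z.dmA' hA hb) ((z.DMA_iff A hb).mp hy)

/-- labels of the system are labels of the zoom -/
theorem DMA_ov {A : Part S} {b : ℝ} (hb : 0 ≤ b) {y : Lab S} (hy : DMA s A (z.Z.c + z.Z.u * b) y) :
    DMA z.sys (z.upz A) b (z.ov y) := (z.DMA_iff A hb).mpr (Lab.DMf.ovl hy z.Z.l z.Z.u z.Z.hu)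

/-- exact labels over exact labels are exact -/
theorem kz_cl {B : Part S} (hl : (LC.kz B).ev z.Z.l) {y : Lab z.Z.sp} (hy : (LC.kz (z.upz B)).ev y) :
    (LC.kz B).ev (z.cl y) := kz_clz hl hy

/-- exact labels are exact over a label -/
theorem kz_ov {B : Part S} {y : Lab S} (hy : (LC.kz B).ev y) : (LC.kz (z.upz B)).ev (z.ov y) := by
  filter_upwards [hy] with k b
  exact ovlz (z.Z.l k) z.Z.u z.Z.hu (y k) (B k) b

/-! ### forms and volumes -/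

variable [Finite ι] {D DD : ℕ} {A : Part S} {b : ℝ}

/-- the form of the zoom as a form of the system -/
abbrev out (DD : ℕ) (y : ∀ k, FD (z.Z.sp.F k) (Mon M' D)) : ∀ k, FD (S.F k) (Mon M DD) := z.pz.out DD y

/-- FORMS OF THE ZOOM ARE ADMISSIBLE FOR THE SYSTEM -/
theorem out_ad (hA : Nul S fun k => (z.Z.l k).leak (A k)) (hDD : D * z.D ≤ DD) (hb : 0 ≤ b)
    {y : ∀ k, FD (z.Z.sp.F k) (Mon M' D)} (hy : (gaq z.sys.Q D).Adf (cnA z.sys (z.upz A) b) y) :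
    (gaq s.Q DD).Adf (cnA s A (z.Z.c + z.Z.u * b)) (z.out DD y) :=
  z.pz.out_ad (z.dmA' hA hb) (fun i => ⟨i, z.cnA_up (PLe.refl _) hb i⟩) hDD hy

theorem out_adK (hA : Nul S fun k => (z.Z.l k).leak (A k)) {B : Part S} (hB : (LC.kz B).ev z.Z.l)
    (hDD : D * z.D ≤ DD) (hb : 0 ≤ b) {y : ∀ k, FD (z.Z.sp.F k) (Mon M' D)}
    (hy : (gaq z.sys.Q D).AdfK (LC.kz (z.upz B)) (cnA z.sys (z.upz A) b) y) :
    (gaq s.Q DD).AdfK (LC.kz B) (cnA s A (z.Z.c + z.Z.u * b)) (z.out DD y) :=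
  z.pz.out_adK (z.dmA' hA hb) (fun i => ⟨i, z.cnA_up (PLe.refl _) hb i⟩) hB hDD hy

end RW

/-- the visible zoom is a deep zoom -/
def ofRZ {s : MSys S M E ι} (z : RZ s M') : RW s M' where
  Z := z.Z
  hc := z.hc
  dm := fun i => z.dm (some i)
  D := z.D
  Λ := z.Λ
  R := z.R
  X := z.X
  hX := z.hX
  κ := z.κ
  hκ1 := z.hκ1
  he := z.he
  hκ := z.hκ

theorem ofRZ_sys {s : MSys S M E ι} (z : RZ s M') : (ofRZ z).sys = z.sys := rfl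

end

end Pool.Agent.Helper7.RD
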