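import Pool.Agent.Helper7.RD.Xg

/-! WINDOWS OF A ZOOM: `WZ Z s t b` says that the window `b` of `t` (a system over the space of the zoom `Z`) is the window
`c + u b` of `s`. Labels, forms, volumes for all conditions `cnA` (deep or visible), for exact labels and for any pair of
points which is related by rows. The exact zoom of a general system. -/

set_option autoImplicit false

namespace Pool.Agent.Helper7.RD

open Finset Filter Topology Matrix Pool.Agent.Helper69.RK Pool.Agent.Helper31.EC Pool.Agent.Helper31.EC.Sp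
open Pool.Agent.Helper40.EL Pool.Agent.Helper89.LX Pool.Agent.Helper3.LF Pool.Agent.Helper84.MT
open Pool.Agent.Helper81.AD Pool.Agent.Helper7.GZ
open Pool.Agent.Helper36.AM (Frm Gz Gzf Lfr)
open Pool.Agent.Helper89.TAY (crn crn_lt)
open Pool.Agent.Helper89.RAD (cnA cnA_pcd cnA_mono cnA_fine DMA DMA_pcd)

noncomputable section

variable {S : Sp} {M M' m : ℕ} {E E' : ℕ → ℕ} {ι : Type}

/-- the window `b` of `t` is the window `c + u b` of `s` -/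
structure WZ (Z : ZU S) (s : MSys S M E ι) (t : MSys Z.sp M' E' ι) (b : ℝ) : Prop where
  b0 : 0 ≤ b
  le : ∀ i, PLe ((t.lf i).win b) (upz Z ((s.lf i).win (Z.c + Z.u * b)))
  ge : ∀ i, PLe (upz Z ((s.lf i).win (Z.c + Z.u * b))) ((t.lf i).win b)

namespace WZ

variable {Z : ZU S} {s : MSys S M E ι} {t : MSys Z.sp M' E' ι} {b : ℝ} (h : WZ Z s t b)

include h

theorem c_le : Z.c ≤ Z.c + Z.u * b := by
  have := mul_nonneg Z.hu.le h.b0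
  linarith

/-- CONDITIONS OF THE ZOOM -/
theorem cnA_up {A : Part S} {A' : Part Z.sp} (hA : PLe A' (upz Z A)) (i : Option ι) :
    PLe (cnA t A' b i) (upz Z (cnA s A (Z.c + Z.u * b) i)) := by
  rcases i with _ | i
  · exact hA
  · exact h.le i

theorem up_cnA {A : Part S} {A' : Part Z.sp} (hA : PLe (upz Z A) A') (i : Option ι) :
    PLe (upz Z (cnA s A (Z.c + Z.u * b) i)) (cnA t A' b i) := by
  rcases i with _ | i
  · exact hA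
  · exact h.ge i

/-- labels of the zoom, in terms of the conditions of the system -/
theorem DMA_iff {A : Part S} {A' : Part Z.sp} (h1 : PLe A' (upz Z A)) (h2 : PLe (upz Z A) A') {y : Lab Z.sp} :
    DMA t A' b y ↔ y.DMf (fun i => upz Z (cnA s A (Z.c + Z.u * b) i)) :=
  ⟨fun h' => Lab.DMf.mono h' fun i => ⟨i, h.cnA_up h1 i⟩, fun h' => Lab.DMf.mono h' fun i => ⟨i, h.up_cnA h2 i⟩⟩

/-- the label of the zoom -/
theorem dmA {A : Part S} (dm : ∀ i, Nul S (fun k => (Z.l k).leak ((s.lf i).win Z.c k)))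
    (hA : Nul S fun k => (Z.l k).leak (A k)) : DMA s A (Z.c + Z.u * b) Z.l := by
  have h1 : DMA s A Z.c Z.l := by
    intro i
    rcases i with _ | i
    · exact hA
    · exact dm i
  exact h1.mono h.c_le

/-- LABELS OF THE ZOOM ARE LABELS OF THE SYSTEM -/
theorem DMA_cl {A : Part S} {A' : Part Z.sp} (dm : ∀ i, Nul S (fun k => (Z.l k).leak ((s.lf i).win Z.c k)))
    (hA : Nul S fun k => (Z.l k).leak (A k)) (h1 : PLe A' (upz Z A)) {y : Lab Z.sp} (hy : DMA t A' b y) :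
    DMA s A (Z.c + Z.u * b) (clz Z y) :=
  Lab.DMf.comp (h.dmA dm hA) (Lab.DMf.mono hy fun i => ⟨i, h.cnA_up h1 i⟩)

/-- labels of the system are labels of the zoom -/
theorem DMA_ov {A : Part S} {A' : Part Z.sp} (h2 : PLe (upz Z A) A') {y : Lab S}
    (hy : DMA s A (Z.c + Z.u * b) y) : DMA t A' b (Z.l.ovl Z.u Z.hu y) :=
  Lab.DMf.mono (Lab.DMf.ovl hy Z.l Z.u Z.hu) fun i => ⟨i, h.up_cnA h2 i⟩

/-! ### forms and volumes of a pair of points -/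

variable [Finite ι] {Q : S.VV m} {A : Part S} {A' : Part Z.sp}

/-- FORMS OF THE ZOOM ARE ADMISSIBLE FOR THE SYSTEM -/
theorem out_ad (z : PZ Z Q M') (dm : ∀ i, Nul S (fun k => (Z.l k).leak ((s.lf i).win Z.c k)))
    (hA : Nul S fun k => (Z.l k).leak (A k)) (h1 : PLe A' (upz Z A)) {D DD : ℕ} (hDD : D * z.D ≤ DD)
    {y : ∀ k, FD (Z.sp.F k) (Mon M' D)} (hy : (gaq z.X D).Adf (cnA t A' b) y) :
    (gaq Q DD).Adf (cnA s A (Z.c + Z.u * b)) (z.out DD y) :=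
  z.out_ad (h.dmA dm hA) (fun i => ⟨i, h.cnA_up h1 i⟩) hDD hy

theorem out_adK (z : PZ Z Q M') (dm : ∀ i, Nul S (fun k => (Z.l k).leak ((s.lf i).win Z.c k)))
    (hA : Nul S fun k => (Z.l k).leak (A k)) (h1 : PLe A' (upz Z A)) {B : Part S} (hB : (LC.kz B).ev Z.l)
    {D DD : ℕ} (hDD : D * z.D ≤ DD) {y : ∀ k, FD (Z.sp.F k) (Mon M' D)}
    (hy : (gaq z.X D).AdfK (LC.kz (upz Z B)) (cnA t A' b) y) :
    (gaq Q DD).AdfK (LC.kz B) (cnA s A (Z.c + Z.u * b)) (z.out DD y) :=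
  z.out_adK (h.dmA dm hA) (fun i => ⟨i, h.cnA_up h1 i⟩) hB hDD hy

/-- VOLUMES of the windows of the zoom and of the system, K-labels -/
theorem volC_le (z : PZ Z Q m) (dm : ∀ i, Nul S (fun k => (Z.l k).leak ((s.lf i).win Z.c k)))
    (hA : Nul S fun k => (Z.l k).leak (A k)) (h1 : PLe A' (upz Z A)) {C : Part S} (hC : (LC.kz C).ev Z.l)
    {D DD : ℕ} (hD : 1 ≤ D) (hDD : D * z.D ≤ DD) (lam : ∀ k, (Z.l k).T.Ω → ℝ) (Cl : ℝ)
    (hlb : ∀ᶠ k in UF, ∀ ω, (Z.l k).T.μ ω ≠ 0 → |lam k ω| ≤ Cl) (K : ℕ → ℝ) (hK : S.Sub K)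
    (hdet : Typ (S := Z.l.sp) (fun k (ω : (Z.l k).T.Ω) =>
      2 ^ (2 * lam k ω * (S.F k).n) ≤ K k * (jac (z.R.p k ω) (Q.v k ((Z.l k).p.π ω))).det ^ 2)) :
    volC (LC.kz C) (cnA s A (Z.c + Z.u * b)) Q DD ≤ m - ul (fun k => ∑ ω, (Z.l k).T.μ ω * lam k ω) -
      Z.u * (m - volC (LC.kz (upz Z C)) (cnA t A' b) z.X D) :=
  z.volC_le (h.dmA dm hA) (fun i => ⟨i, h.cnA_up h1 i⟩) hC hD hDD lam Cl hlb K hK hdet

theorem volCO_le (z : PZ Z Q m) (dm : ∀ i, Nul S (fun k => (Z.l k).leak ((s.lf i).win Z.c k)))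
    (hA : Nul S fun k => (Z.l k).leak (A k)) (h1 : PLe A' (upz Z A)) {C : Part S} (hC : (LC.kz C).ev Z.l)
    (lam : ∀ k, (Z.l k).T.Ω → ℝ) (Cl : ℝ)
    (hlb : ∀ᶠ k in UF, ∀ ω, (Z.l k).T.μ ω ≠ 0 → |lam k ω| ≤ Cl) (K : ℕ → ℝ) (hK : S.Sub K)
    (hdet : Typ (S := Z.l.sp) (fun k (ω : (Z.l k).T.Ω) =>
      2 ^ (2 * lam k ω * (S.F k).n) ≤ K k * (jac (z.R.p k ω) (Q.v k ((Z.l k).p.π ω))).det ^ 2)) :
    volCO (LC.kz C) (cnA s A (Z.c + Z.u * b)) Q ≤ m - ul (fun k => ∑ ω, (Z.l k).T.μ ω * lam k ω) -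
      Z.u * (m - volCO (LC.kz (upz Z C)) (cnA t A' b) z.X) :=
  z.volCO_le (h.dmA dm hA) (fun i => ⟨i, h.cnA_up h1 i⟩) hC lam Cl hlb K hK hdet

end WZ

/-- the zooms `Gz` -/
theorem gz_wz {s : MSys S M E ι} {l : Lab S} {c e : ℝ} {he : 0 < e} {X : l.sp.VV M}
    {t : MSys (l.ovr e he) M E' ι} (h : Gz s l c e he X t) (hc : 0 ≤ c) (h1 : c + e ≤ 1) {b : ℝ} (hb : 0 ≤ b)
    (hb1 : b ≤ 1) : WZ ⟨l, c, e, hc, he, h1⟩ s t b :=
  ⟨hb, fun i => (h.win b i hb hb1).1, fun i => (h.win b i hb hb1).2⟩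

/-- the Taylor zoom -/
theorem RW.wz {s : MSys S M E ι} (z : RW s M') {b : ℝ} (hb : 0 ≤ b) : WZ z.Z s z.sys b :=
  ⟨hb, fun i => z.win_le i hb, fun i => z.win_ge i b⟩

/-! ### the exact zoom -/

/-- THE DATA of an exact zoom of a system in the coordinates of rows -/
structure XW (s : MSys S M E ι) (M' : ℕ) (E' : ℕ → ℕ) where
  Z : ZU S
  dm : ∀ i, Nul S (fun k => (Z.l k).leak ((s.lf i).win Z.c k))
  D : ℕ
  Λ : ℝ
  R : Rows s.Q Z.l M' D Λ Z.u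
  X : Z.sp.VV M'
  hX : Rows.IsX Z R X
  D₀ : ℕ
  hD₀ : 1 ≤ D₀
  hD : D ≤ D₀
  hE : ∀ D', E (D₀ * D') ≤ E' D'

namespace XW

variable {s : MSys S M E ι} (z : XW s M' E')

/-- the pair of points -/
def pz : PZ z.Z s.Q M' := ⟨z.D, z.Λ, z.R, z.X, z.hX⟩

/-- the bound of the charts -/
def K (i : ι) : ℕ → ℝ := (rch_bd z.Z (s.lf i) z.R (z.dm i) z.hX).choose

/-- the event of the charts -/
def A (i : ι) (k : ℕ) (ω : (z.Z.sp.F k).Ω) : Prop :=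
  (∀ y : Fin (s.lf i).e → ℝ, (∀ a, |y a - (z.Z.fr (s.lf i).Y).v k ω a| ≤ 1) → ∀ j,
      |rch z.Z (s.lf i) z.R k ω y j| ≤ z.K i k) ∧
        ∀ j, |z.X.v k ω j - rch z.Z (s.lf i) z.R k ω ((z.Z.fr (s.lf i).Y).v k ω) j| ≤ z.K i k * z.Z.sp.dl 1 k

theorem A_typ (i : ι) : Typ (S := z.Z.sp) (z.A i) := (rch_bd z.Z (s.lf i) z.R (z.dm i) z.hX).choose_spec.2

theorem A_bd (i : ι) : ∃ K : ℕ → ℝ, z.Z.sp.Sub K ∧ ∀ᶠ k in UF, ∀ ω, (z.Z.sp.F k).μ ω ≠ 0 → z.A i k ω →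
      (∀ y : Fin (s.lf i).e → ℝ, (∀ a, |y a - (z.Z.fr (s.lf i).Y).v k ω a| ≤ 1) → ∀ j,
        |rch z.Z (s.lf i) z.R k ω y j| ≤ K k) ∧
        ∀ j, |z.X.v k ω j - rch z.Z (s.lf i) z.R k ω ((z.Z.fr (s.lf i).Y).v k ω) j| ≤ K k * z.Z.sp.dl 1 k :=
  ⟨z.K i, z.Z.Sub_sp.1 (rch_bd z.Z (s.lf i) z.R (z.dm i) z.hX).choose_spec.1,
    Eventually.of_forall fun _ _ _ h => h⟩

theorem al_alg (i : ι) : ∀ᶠ k in UF, ∀ ω, (z.Z.sp.F k).μ ω ≠ 0 →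
    Alg (s.lf i).e ((z.Z.fr (s.lf i).Y).v k ω) (zpal z.Z (s.lf i) z.D₀ k ω) := by
  filter_upwards [(s.lf i).alg] with k hk ω hω
  exact zpal_alg z.Z (s.lf i) z.hD₀ k ω (hk _ (z.Z.supp k ω hω))

theorem al_seg (i : ι) (D : ℕ) : ∃ K : ℕ → ℝ, z.Z.sp.Sub K ∧ ∀ᶠ k in UF, ∀ ω, (z.Z.sp.F k).μ ω ≠ 0 →
    ∀ f ∈ zpal z.Z (s.lf i) z.D₀ k ω D, ∀ y y' : Fin (s.lf i).e → ℝ,
      (∀ a, |y a - (z.Z.fr (s.lf i).Y).v k ω a| ≤ 1) → (∀ a, |y' a - (z.Z.fr (s.lf i).Y).v k ω a| ≤ 1) →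
      RemS (E' D) (K k) (fun u => f (fun a => y a + u * (y' a - y a))) ∧
        BmS (K k) (fun u => f (fun a => y a + u * (y' a - y a))) := by
  obtain ⟨K, hK, h⟩ := zpal_seg z.Z (s.lf i) z.D₀ z.hE D
  exact ⟨K, z.Z.Sub_sp.1 hK, h⟩

/-- THE EXACT ZOOM OF A TYPE -/
def leaf (i : ι) : Leaf z.Z.sp z.X E' :=
  leafT (Q := z.X) (s.lf i).e ((s.lf i).he.trans (z.hE 0)) (z.Z.zLa (s.lf i)) (z.Z.fr (s.lf i).Y)
    (rch z.Z (s.lf i) z.R) (rch_fn z.Z (s.lf i) z.R) (zpal z.Z (s.lf i) z.D₀) (z.al_alg i)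
    (rch_crF z.Z (s.lf i) z.R z.hD) (z.al_seg i) (z.A i) (z.A_typ i) (z.A_bd i) (z.Z.zfull (s.lf i) (z.dm i))

/-- THE EXACT ZOOM -/
def sys : MSys z.Z.sp M' E' ι := ⟨z.X, z.leaf⟩

theorem sys_Q : z.sys.Q = z.X := rfl

theorem sys_e (i : ι) : (z.sys.lf i).e = (s.lf i).e := rfl

theorem sys_Y (i : ι) : (z.sys.lf i).Y = z.Z.fr (s.lf i).Y := rfl

theorem sys_F (i : ι) (k : ℕ) (ω : (z.Z.sp.F k).Ω) (h : z.A i k ω) (y : Fin (s.lf i).e → ℝ) (j : Fin M') :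
    (z.sys.lf i).F k ω y j = rch z.Z (s.lf i) z.R k ω y j := by
  classical
  exact if_pos h

/-- windows -/
theorem wz {b : ℝ} (hb : 0 ≤ b) : WZ z.Z s z.sys b where
  b0 := hb
  le := fun i => PLe.trans (S := z.Z.sp) (leafT_win_le (S := z.Z.sp) (Q := z.X) (s.lf i).e
    ((s.lf i).he.trans (z.hE 0)) (z.Z.zLa (s.lf i)) (z.Z.fr (s.lf i).Y)
    (rch z.Z (s.lf i) z.R) (rch_fn z.Z (s.lf i) z.R) (zpal z.Z (s.lf i) z.D₀) (z.al_alg i)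
    (rch_crF z.Z (s.lf i) z.R z.hD) (z.al_seg i) (z.A i) (z.A_typ i) (z.A_bd i) (z.Z.zfull (s.lf i) (z.dm i)) b)
      (z.Z.win_up (s.lf i) hb)
  ge := fun i => PLe.trans (S := z.Z.sp) (z.Z.up_win (s.lf i) b) (leafT_win_ge (S := z.Z.sp) (Q := z.X) (s.lf i).e
    ((s.lf i).he.trans (z.hE 0)) (z.Z.zLa (s.lf i)) (z.Z.fr (s.lf i).Y)
    (rch z.Z (s.lf i) z.R) (rch_fn z.Z (s.lf i) z.R) (zpal z.Z (s.lf i) z.D₀) (z.al_alg i)
    (rch_crF z.Z (s.lf i) z.R z.hD) (z.al_seg i) (z.A i) (z.A_typ i) (z.A_bd i) (z.Z.zfull (s.lf i) (z.dm i)) b)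

end XW

end

end Pool.Agent.Helper7.RD
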