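import Pool.Agent.Helper84.MT.Def

/-! CHANGES OF POLYNOMIAL CHARTS BY THE FINEST RESOLUTION. -/

set_option autoImplicit false

namespace Pool.Agent.Helper7.RD

open Finset Filter Topology Matrix Pool.Agent.Helper69.RK Pool.Agent.Helper31.EC Pool.Agent.Helper31.EC.Sp
open Pool.Agent.Helper40.EL Pool.Agent.Helper89.LX Pool.Agent.Helper84.MT

noncomputable section

variable {S : Sp} {M : ℕ} {E E' : ℕ → ℕ} {ι : Type}

/-- the same point, the same parameters and the same labels; the charts are polynomials of bounded degree with tame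
coefficients, and the coefficients differ by the finest resolution -/
def Tay (s : MSys S M E ι) (s' : MSys S M E' ι) : Prop :=
  s'.Q = s.Q ∧ ∀ i, ∃ (h : (s'.lf i).e = (s.lf i).e) (κ : ℕ)
    (G G' : ∀ k, (S.F k).Ω → Fin M → MvPolynomial (Fin (s.lf i).e) ℝ) (K : ℕ → ℝ), S.Sub K ∧
      (∀ k, (s'.lf i).La k = (s.lf i).La k) ∧
      (∀ k ω m, (s'.lf i).Y.v k ω (Fin.cast h.symm m) = (s.lf i).Y.v k ω m) ∧
      (∀ k ω j, (G k ω j).totalDegree ≤ κ ∧ (G' k ω j).totalDegree ≤ κ) ∧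
      ∀ᶠ k in UF, ∀ ω, (S.F k).μ ω ≠ 0 → ∀ j,
        (∀ y : Fin (s.lf i).e → ℝ, (s.lf i).F k ω y j = MvPolynomial.eval y (G k ω j) ∧
          (s'.lf i).F k ω (fun m => y (Fin.cast h m)) j = MvPolynomial.eval y (G' k ω j)) ∧
        ∀ a, |(G k ω j).coeff a| ≤ K k ∧ |(G' k ω j).coeff a - (G k ω j).coeff a| ≤ K k * S.dl 1 k

end

end Pool.Agent.Helper7.RD
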