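import Pool.Agent.Helper7.RD.Wp
import Pool.Agent.Helper7.RD.Tay

/-! FROM POLYNOMIAL CHARTS TO WEIGHTED DEGREES. A zoom of a system with polynomial charts in the coordinates of a frame
with the exponents `w j * c` and a small unit has, up to its finest resolution, charts of weighted degree `w j`. -/

set_option autoImplicit false

namespace Pool.Agent.Helper7.RD

open Finset Filter Topology Matrix Pool.Agent.Helper69.RK Pool.Agent.Helper31.EC Pool.Agent.Helper31.EC.Sp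
open Pool.Agent.Helper40.EL Pool.Agent.Helper89.LX Pool.Agent.Helper3.LF Pool.Agent.Helper84.MT
open Pool.Agent.Helper81.AD Pool.Agent.Helper7.GZ
open Pool.Agent.Helper36.AM (Frm Gz Gzf Lfr inv inv_eq)
open Pool.Agent.Helper77.WDG (WLe wt_smul wLe_one_iff)
open Pool.Agent.Helper89.TAY (crn crn_lt)
open Pool.Agent.Helper87.NSL (KnS)

noncomputable section

/-! ### polynomials -/

section poly

variable {e : ℕ}

theorem sum_deg (a : Fin e →₀ ℕ) : (a.sum fun _ n => n) = ∑ i, a i := Finsupp.sum_fintype _ _ fun _ => rfl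

/-- scaling of the variables -/
def scl (d : ℝ) (p : MvPolynomial (Fin e) ℝ) : MvPolynomial (Fin e) ℝ :=
  MvPolynomial.bind₁ (fun i => MvPolynomial.C d * MvPolynomial.X i) p

theorem scl_eval (d : ℝ) (p : MvPolynomial (Fin e) ℝ) (y : Fin e → ℝ) :
    MvPolynomial.eval y (scl d p) = MvPolynomial.eval (fun i => d * y i) p := by
  unfold scl
  rw [Pool.Agent.Helper81.MI.eval_bind]
  congr 2
  funext i
  rw [map_mul, MvPolynomial.eval_C, MvPolynomial.eval_X]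

theorem scl_coeff (d : ℝ) (p : MvPolynomial (Fin e) ℝ) (a : Fin e →₀ ℕ) :
    (scl d p).coeff a = d ^ (∑ i, a i) * p.coeff a := by
  classical
  have h1 : scl d p = ∑ m ∈ p.support, MvPolynomial.monomial m (d ^ (∑ i, m i) * p.coeff m) := by
    apply MvPolynomial.funext
    intro y
    rw [scl_eval, MvPolynomial.eval_eq', map_sum]
    refine Finset.sum_congr rfl fun m _ => ?_
    rw [MvPolynomial.eval_monomial, Finsupp.prod_fintype _ _ fun _ => pow_zero _]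
    have h2 : ∏ i, (d * y i) ^ m i = d ^ (∑ i, m i) * ∏ i, y i ^ m i := by
      rw [← Finset.prod_pow_eq_pow_sum, ← Finset.prod_mul_distrib]
      exact Finset.prod_congr rfl fun i _ => mul_pow _ _ _
    rw [h2]
    ring
  rw [h1, MvPolynomial.coeff_sum]
  have h3 : ∀ m ∈ p.support, (MvPolynomial.monomial m (d ^ (∑ i, m i) * p.coeff m)).coeff a =
      if m = a then d ^ (∑ i, a i) * p.coeff a else 0 := by
    intro m _
    rw [MvPolynomial.coeff_monomial]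
    by_cases h : m = a
    · rw [if_pos h, if_pos h, h]
    · rw [if_neg h, if_neg h]
  rw [Finset.sum_congr rfl h3, Finset.sum_ite_eq']
  split_ifs with h
  · rfl
  · rw [MvPolynomial.notMem_support_iff.1 h, mul_zero]

theorem scl_deg (d : ℝ) (p : MvPolynomial (Fin e) ℝ) : (scl d p).totalDegree ≤ p.totalDegree := by
  apply Finset.sup_le
  intro a ha
  rw [MvPolynomial.mem_support_iff, scl_coeff] at ha
  exact MvPolynomial.le_totalDegree (MvPolynomial.mem_support_iff.2 fun h => ha (by rw [h, mul_zero]))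

/-- the part of degree at most `N` -/
def trd (N : ℕ) (p : MvPolynomial (Fin e) ℝ) : MvPolynomial (Fin e) ℝ :=
  ∑ a ∈ p.support.filter (fun a => ∑ i, a i ≤ N), MvPolynomial.monomial a (p.coeff a)

theorem trd_coeff (N : ℕ) (p : MvPolynomial (Fin e) ℝ) (b : Fin e →₀ ℕ) :
    (trd N p).coeff b = if ∑ i, b i ≤ N then p.coeff b else 0 := by
  classical
  unfold trd
  rw [MvPolynomial.coeff_sum]
  have h3 : ∀ m ∈ p.support.filter (fun a => ∑ i, a i ≤ N), (MvPolynomial.monomial m (p.coeff m)).coeff b =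
      if m = b then p.coeff b else 0 := by
    intro m _
    rw [MvPolynomial.coeff_monomial]
    by_cases h : m = b
    · rw [if_pos h, if_pos h, h]
    · rw [if_neg h, if_neg h]
  rw [Finset.sum_congr rfl h3, Finset.sum_ite_eq']
  by_cases h1 : ∑ i, b i ≤ N
  · rw [if_pos h1]
    split_ifs with h
    · rfl
    · by_contra h4
      exact h (Finset.mem_filter.2 ⟨MvPolynomial.mem_support_iff.2 fun h5 => h4 h5.symm, h1⟩)
  · rw [if_neg h1]
    split_ifs with h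
    · exact absurd (Finset.mem_filter.1 h).2 h1
    · rfl

theorem trd_deg (N : ℕ) (p : MvPolynomial (Fin e) ℝ) : (trd N p).totalDegree ≤ N := by
  apply Finset.sup_le
  intro a ha
  rw [MvPolynomial.mem_support_iff, trd_coeff] at ha
  rw [sum_deg]
  by_contra h
  exact ha (if_neg h)

theorem trd_deg_le (N : ℕ) (p : MvPolynomial (Fin e) ℝ) : (trd N p).totalDegree ≤ p.totalDegree := by
  apply Finset.sup_le
  intro a ha
  rw [MvPolynomial.mem_support_iff, trd_coeff] at ha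
  apply MvPolynomial.le_totalDegree
  rw [MvPolynomial.mem_support_iff]
  intro h
  rw [h, ite_self] at ha
  exact ha rfl

theorem wch_scl {M : ℕ} (p : MvPolynomial (Fin M) ℝ) (G : Fin M → MvPolynomial (Fin e) ℝ) (o : Fin e → ℝ) (d : ℝ) :
    wch p G o d = scl d (wch p G o 1) := by
  apply MvPolynomial.funext
  intro y
  rw [wch_eval, scl_eval, wch_eval]
  congr 2
  funext i
  congr 2
  funext a
  rw [one_mul]

theorem wch_C {M : ℕ} (r : ℝ) (p : MvPolynomial (Fin M) ℝ) (G : Fin M → MvPolynomial (Fin e) ℝ) (o : Fin e → ℝ)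
    (d : ℝ) : wch (MvPolynomial.C r * p) G o d = MvPolynomial.C r * wch p G o d := by
  apply MvPolynomial.funext
  intro y
  rw [wch_eval, map_mul, map_mul, wch_eval, MvPolynomial.eval_C, MvPolynomial.eval_C]

/-- a polynomial in constant weights -/
theorem wLe_const {M D : ℕ} (κ : ℕ) {p : MvPolynomial (Fin M) ℝ} (hp : p.totalDegree ≤ D) :
    WLe (fun _ : Fin M => (κ : ℝ)) ((D * κ : ℕ) : ℝ) p := by
  intro a ha
  have h1 := MvPolynomial.le_totalDegree ha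
  rw [sum_deg] at h1
  have h2 : Pool.Agent.Helper77.WDG.wt (fun _ : Fin M => (κ : ℝ)) a = ((∑ i, a i : ℕ) : ℝ) * κ := by
    unfold Pool.Agent.Helper77.WDG.wt
    push_cast
    rw [Finset.sum_mul]
  rw [h2]
  push_cast
  have h3 : ((∑ i, a i : ℕ) : ℝ) ≤ D := by exact_mod_cast h1.trans hp
  push_cast at h3
  exact mul_le_mul_of_nonneg_right h3 (Nat.cast_nonneg _)

/-- coefficients from a bound on the cube of side `1 / 2` -/
theorem coef_half (n d : ℕ) : ∃ B : ℝ, 1 ≤ B ∧ ∀ P : MvPolynomial (Fin n) ℝ, P.totalDegree ≤ d → ∀ A : ℝ, 0 ≤ A →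
    (∀ y : Fin n → ℝ, (∀ i, 0 ≤ y i ∧ y i < 1 / 2) → |MvPolynomial.eval y P| ≤ A) → ∀ a, |P.coeff a| ≤ B * A := by
  obtain ⟨B, hB1, hB⟩ := Pool.Agent.Helper63.FRT.exists_coef_bd n d
  refine ⟨2 ^ d * B, ?_, fun P hP A hA hy a => ?_⟩
  · have : (1 : ℝ) ≤ 2 ^ d := one_le_pow₀ (by norm_num)
    nlinarith
  · by_cases ha : a ∈ P.support
    · have h1 := hB (scl (1 / 2) P) ((scl_deg _ _).trans hP) A (fun y h => by
        rw [scl_eval]
        refine hy _ fun i => ?_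
        have := h i
        constructor <;> linarith) a
      rw [scl_coeff, abs_mul, abs_of_pos (by positivity)] at h1
      have h2 := MvPolynomial.le_totalDegree ha
      rw [sum_deg] at h2
      have h3 : (1 : ℝ) ≤ 2 ^ d * (1 / 2) ^ (∑ i, a i) := by
        rw [one_div, inv_pow, ← div_eq_mul_inv, le_div_iff₀ (by positivity), one_mul]
        exact pow_le_pow_right₀ (by norm_num) (h2.trans hP)
      calc |P.coeff a| = 1 * |P.coeff a| := (one_mul _).symm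
        _ ≤ (2 ^ d * (1 / 2) ^ (∑ i, a i)) * |P.coeff a| := mul_le_mul_of_nonneg_right h3 (abs_nonneg _)
        _ = 2 ^ d * ((1 / 2) ^ (∑ i, a i) * |P.coeff a|) := by ring
        _ ≤ 2 ^ d * (B * A) := mul_le_mul_of_nonneg_left h1 (by positivity)
        _ = _ := by ring
    · rw [MvPolynomial.notMem_support_iff.1 ha, abs_zero]
      positivity

end poly

/-! ### the inverse of the frame, polynomial charts around a node -/

variable {S : Sp} {M : ℕ} {E E' : ℕ → ℕ} {ι : Type}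

/-- the coefficients of the inverse of a frame are tame -/
theorem inv_cf {Q : S.VV M} {l : Lab S} {La : Fin M → ℝ} (f : Frm Q l La) {κ : ℕ}
    (hκ : ∀ k ω j, (f.P k ω j).totalDegree ≤ κ) : ∃ K : ℕ → ℝ, S.Sub K ∧ ∀ᶠ k in UF, ∀ ω : (l k).T.Ω,
      (l k).T.μ ω ≠ 0 → ∀ j a, |(inv (f.P k ω) j).coeff a| ≤ K k := by
  obtain ⟨Kc, hKc, hc⟩ := f.bd
  obtain ⟨B, hB1, hB⟩ := Pool.Agent.Helper63.FRT.exists_coef_bd M ((κ + 1) ^ M)
  refine ⟨fun k => B * Bq M κ (Kc k) M, (S.Sub_const (by linarith)).mul (Bq_Sub hKc M κ M), ?_⟩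
  filter_upwards [hc, hKc.1] with k c1 c2 ω hω j a
  exact hB (inv (f.P k ω) j) (Pool.Agent.Helper36.AM.inv_deg (fun j => hκ k ω j) j) (Bq M κ (Kc k) M) (fun y hy =>
    inv_cube (f.tri k ω) (fun j => hκ k ω j) c2 (fun j a => c1 ω hω j a) y (fun i => by
      rw [abs_le]
      have := hy i
      constructor <;> linarith) M j j.2) a

/-- THE INVERSE OF THE FRAME ALONG A CHART, around the node of level `c > 0`: tame coefficients -/
theorem wch_cf {s : MSys S M E ι} {l : Lab S} {La : Fin M → ℝ} (f : Frm s.Q l La) {κ : ℕ}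
    (hκ : ∀ k ω j, (f.P k ω j).totalDegree ≤ κ) {c : ℝ} (hc : 0 < c) (i : ι) {κ' : ℕ}
    (G : ∀ k, (S.F k).Ω → Fin M → MvPolynomial (Fin (s.lf i).e) ℝ)
    (hG : ∀ᶠ k in UF, ∀ ω, (S.F k).μ ω ≠ 0 → ∀ y j, (s.lf i).F k ω y j = MvPolynomial.eval y (G k ω j))
    (hd : ∀ k (ω : (l k).T.Ω) j, (wch (inv (f.P k ω) j) (G k ((l k).p.π ω)) (crn (s.lf i) c k ((l k).p.π ω))
      1).totalDegree ≤ κ') : ∃ K : ℕ → ℝ, S.Sub K ∧ ∀ᶠ k in UF, ∀ ω : (l k).T.Ω, (l k).T.μ ω ≠ 0 → ∀ j a,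
        |(wch (inv (f.P k ω) j) (G k ((l k).p.π ω)) (crn (s.lf i) c k ((l k).p.π ω)) 1).coeff a| ≤ K k := by
  obtain ⟨K1, hK1, h1⟩ := inv_cf f hκ
  obtain ⟨K2, hK2, h2⟩ := (s.lf i).bd
  obtain ⟨B, hB1, hB⟩ := coef_half (s.lf i).e κ'
  have hB0 : (0 : ℝ) ≤ B := by linarith
  refine ⟨fun k => B * ((((κ + 1) ^ M : ℕ) : ℝ) + 1) ^ M * (K1 k * (K2 k + 1) ^ ((κ + 1) ^ M)),
    ((S.Sub_const (by positivity)).mul (hK1.mul (Sub_pow' (hK2.add (S.Sub_const zero_le_one)) _))), ?_⟩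
  filter_upwards [h1, h2, hG, hK1.1, hK2.1, (S.Sub_const (by norm_num : (0 : ℝ) ≤ 2)).eventually_le hc] with k a1 a2 a3
    b1 b2 b3 ω hω j a
  have hω' := (l k).p.supp ω hω
  have b4 : S.dl c k ≤ 1 / 2 := by
    rw [← dl_inv_eq] at b3
    rw [one_div]
    exact (le_inv_comm₀ (by norm_num) (S.dl_pos c k)).1 (by linarith)
  have h5 := hB (wch (inv (f.P k ω) j) (G k ((l k).p.π ω)) (crn (s.lf i) c k ((l k).p.π ω)) 1) (hd k ω j)
    (((((κ + 1) ^ M : ℕ) : ℝ) + 1) ^ M * (K1 k * (K2 k + 1) ^ ((κ + 1) ^ M))) (by positivity) (fun y hy => by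
      rw [wch_eval]
      refine eval_le_of_coeff _ (Pool.Agent.Helper36.AM.inv_deg (fun j => hκ k ω j) j) (K1 k) (K2 k + 1) b1 (by linarith)
        (fun a => a1 ω hω j a) _ fun m => ?_
      rw [← a3 _ hω']
      refine (a2 _ hω' _ (fun q => ?_) m).trans (by linarith)
      have h6 := crn_lt (s.lf i) c k ((l k).p.π ω) q
      have h7 := hy q
      rw [abs_le]
      rw [abs_lt] at h6
      constructor <;> linarith) a
  refine h5.trans (le_of_eq ?_)
  ring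

/-! ### changing the charts below the finest resolution -/

namespace PW

variable {M' : ℕ} {s : MSys S M E ι} (z : PW s M') {g : ℕ} (hg : 1 ≤ g) (hge : ∀ i, (s.lf i).e ≤ g)
  (H : ∀ i k, (z.Z.l k).T.Ω → Fin M' → MvPolynomial (Fin (s.lf i).e) ℝ) (deg : ∀ i k ω j, (H i k ω j).totalDegree ≤ g)
  (fn : ∀ i, ∀ᶠ k in UF, ∀ ω ω', (z.Z.l k).T.μ ω ≠ 0 → (z.Z.l k).T.μ ω' ≠ 0 → (z.Z.l k).T.Z ω ω' →
    (z.Z.l k).V ω ω' → (z.Z.zLa (s.lf i) k) ω ω' → H i k ω = H i k ω')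
  (sm : ∀ i, ∃ K : ℕ → ℝ, S.Sub K ∧ ∀ᶠ k in UF, ∀ ω, (z.Z.l k).T.μ ω ≠ 0 → ∀ j a,
    |(H i k ω j).coeff a - (z.G i k ω j).coeff a| ≤ K k * S.dl z.Z.u k)

include fn in
theorem trm_fn (i : ι) : ∀ᶠ k in UF, ∀ ω ω', (z.Z.sp.F k).μ ω ≠ 0 → (z.Z.sp.F k).μ ω' ≠ 0 → (z.Z.sp.F k).Z ω ω' →
    (z.Z.zLa (s.lf i) k) ω ω' → H i k ω = H i k ω' := by
  filter_upwards [fn i] with k hk ω ω' a b g r
  obtain ⟨g1, g2, -⟩ := z.Z.hZ k ω ω' a b g
  exact hk ω ω' a b g2 g1 r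

include deg sm in
theorem trm_pt (i : ι) : ∃ K : ℕ → ℝ, z.Z.sp.Sub K ∧ ∀ᶠ k in UF, ∀ ω, (z.Z.sp.F k).μ ω ≠ 0 → z.A i k ω →
    (∀ j a, |(H i k ω j).coeff a| ≤ K k) ∧
      ∀ j, |z.X.v k ω j - MvPolynomial.eval ((z.Z.fr (s.lf i).Y).v k ω) (H i k ω j)| ≤ K k * z.Z.sp.dl 1 k := by
  obtain ⟨K1, hK1, h1⟩ := z.A_pt i
  obtain ⟨K2, hK2, h2⟩ := sm i
  have hK1' := z.Z.Sub_sp.2 hK1
  obtain ⟨C, hC⟩ : ∃ C : ℝ, C = (((g + z.κx : ℕ) : ℝ) + 1) ^ (s.lf i).e := ⟨_, rfl⟩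
  have hC1 : 0 ≤ C := by rw [hC]; positivity
  have hS : S.Sub (fun k => K1 k + (K2 k + C * K2 k)) := hK1'.add (hK2.add ((S.Sub_const hC1).mul hK2))
  refine ⟨_, z.Z.Sub_sp.1 hS, ?_⟩
  filter_upwards [h1, h2, hK1'.1, hK2.1] with k a1 a2 b1 b2
  intro (ω : (z.Z.l k).T.Ω) hω hA
  obtain ⟨c1, c2⟩ := a1 ω hω hA
  have hd1 : S.dl z.Z.u k ≤ 1 := by
    rw [← S.dl_zero k]
    exact S.dl_anti z.Z.hu.le k
  have hd0 := S.dl_pos z.Z.u k
  have hCK := mul_nonneg hC1 b2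
  constructor
  · intro j a
    have h3 := a2 ω hω j a
    have h4 := c1 j a
    have h5 : K2 k * S.dl z.Z.u k ≤ K2 k := mul_le_of_le_one_right b2 hd1
    have h6 : |(H i k ω j).coeff a| ≤ |(H i k ω j).coeff a - (z.G i k ω j).coeff a| + |(z.G i k ω j).coeff a| := by
      have := abs_add_le ((H i k ω j).coeff a - (z.G i k ω j).coeff a) ((z.G i k ω j).coeff a)
      rwa [sub_add_cancel] at this
    linarith
  · intro j
    have h3 := c2 j
    have hY : ∀ a, |(z.Z.fr (s.lf i).Y).v k ω a| ≤ 1 := fun a => by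
      rw [z.Z.fr_v, abs_le]
      have := Int.floor_le ((s.lf i).Y.v k ((z.Z.l k).p.π ω) a / S.dl z.Z.c k)
      have := Int.lt_floor_add_one ((s.lf i).Y.v k ((z.Z.l k).p.π ω) a / S.dl z.Z.c k)
      constructor <;> linarith
    have h4 := eval_le_of_coeff (H i k ω j - z.G i k ω j) (g := g + z.κx)
      ((MvPolynomial.totalDegree_sub _ _).trans (max_le ((deg i k ω j).trans (Nat.le_add_right _ _))
        ((z.deg i k ω j).trans (Nat.le_add_left _ _)))) (K2 k * S.dl z.Z.u k) 1 (mul_nonneg b2 hd0.le) le_rfl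
      (fun a => by
        rw [MvPolynomial.coeff_sub]
        exact a2 ω hω j a) _ hY
    rw [map_sub, one_pow, mul_one, ← hC] at h4
    rw [z.Z.sp_dl1] at h3 ⊢
    have h5 : |z.X.v k ω j - MvPolynomial.eval ((z.Z.fr (s.lf i).Y).v k ω) (H i k ω j)| ≤
        |z.X.v k ω j - MvPolynomial.eval ((z.Z.fr (s.lf i).Y).v k ω) (z.G i k ω j)| +
          |MvPolynomial.eval ((z.Z.fr (s.lf i).Y).v k ω) (H i k ω j) -
            MvPolynomial.eval ((z.Z.fr (s.lf i).Y).v k ω) (z.G i k ω j)| := by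
      have := abs_sub (z.X.v k ω j - MvPolynomial.eval ((z.Z.fr (s.lf i).Y).v k ω) (z.G i k ω j))
        (MvPolynomial.eval ((z.Z.fr (s.lf i).Y).v k ω) (H i k ω j) -
            MvPolynomial.eval ((z.Z.fr (s.lf i).Y).v k ω) (z.G i k ω j))
      rwa [show z.X.v k ω j - MvPolynomial.eval ((z.Z.fr (s.lf i).Y).v k ω) (z.G i k ω j) -
        (MvPolynomial.eval ((z.Z.fr (s.lf i).Y).v k ω) (H i k ω j) -
            MvPolynomial.eval ((z.Z.fr (s.lf i).Y).v k ω) (z.G i k ω j)) =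
        z.X.v k ω j - MvPolynomial.eval ((z.Z.fr (s.lf i).Y).v k ω) (H i k ω j) by ring] at this
    have h7 : 0 ≤ K2 k * S.dl z.Z.u k := mul_nonneg b2 hd0.le
    nlinarith

/-- THE ZOOM with changed charts -/
def trm : MSys z.Z.sp M' (Pool.Agent.Helper84.MT.lin g) ι where
  Q := z.X
  lf := fun i => ofPolyT g hg (s.lf i).e (hge i) (z.Z.zLa (s.lf i)) (z.Z.fr (s.lf i).Y) (H i) (deg i)
    (z.trm_fn H fn i) (z.A i) (z.A_typ i) (z.trm_pt H deg sm i) (z.Z.zfull (s.lf i) (z.dm i))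

theorem trm_Q : (z.trm hg hge H deg fn sm).Q = z.X := rfl

theorem trm_e (i : ι) : ((z.trm hg hge H deg fn sm).lf i).e = (s.lf i).e := rfl

open Classical in
theorem trm_F (i : ι) (k : ℕ) (ω : (z.Z.sp.F k).Ω) (y : Fin (s.lf i).e → ℝ) (j : Fin M') :
    ((z.trm hg hge H deg fn sm).lf i).F k ω y j = MvPolynomial.eval y (if z.A i k ω then H i k ω j else
      MvPolynomial.C (rnd (z.Z.sp.dl 1 k) (z.X.v k ω j))) := rfl

/-- windows -/
theorem trm_wz {b : ℝ} (hb : 0 ≤ b) : WZ z.Z s (z.trm hg hge H deg fn sm) b where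
  b0 := hb
  le := fun i => PLe.trans (S := z.Z.sp) (ofPolyT_win_le (S := z.Z.sp) g hg (s.lf i).e (hge i)
    (z.Z.zLa (s.lf i)) (z.Z.fr (s.lf i).Y) (H i) (deg i) (z.trm_fn H fn i) (z.A i) (z.A_typ i) (z.trm_pt H deg sm i)
    (z.Z.zfull (s.lf i) (z.dm i)) b) (z.Z.win_up (s.lf i) hb)
  ge := fun i => PLe.trans (S := z.Z.sp) (z.Z.up_win (s.lf i) b) (ofPolyT_win_ge (S := z.Z.sp) g hg
    (s.lf i).e (hge i) (z.Z.zLa (s.lf i)) (z.Z.fr (s.lf i).Y) (H i) (deg i) (z.trm_fn H fn i) (z.A i) (z.A_typ i)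
    (z.trm_pt H deg sm i) (z.Z.zfull (s.lf i) (z.dm i)) b)

/-- the charts are polynomials of the degrees of `H` -/
theorem trm_wd {w : Fin M' → ℝ} (hw : ∀ j, 0 ≤ w j) (hH : ∀ i k ω j, ((H i k ω j).totalDegree : ℝ) ≤ w j) :
    WDeg (z.trm hg hge H deg fn sm) w := by
  classical
  intro i
  refine ⟨fun k ω j => if z.A i k ω then H i k ω j else
    MvPolynomial.C (rnd (z.Z.sp.dl 1 k) (z.X.v k ω j)), Eventually.of_forall fun k ω _ y j => ?_, fun k ω j => ?_⟩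
  · exact z.trm_F hg hge H deg fn sm i k ω y j
  · show ((if z.A i k ω then H i k ω j else
      MvPolynomial.C (rnd (z.Z.sp.dl 1 k) (z.X.v k ω j)) : MvPolynomial _ ℝ).totalDegree : ℝ) ≤ w j
    split_ifs
    · exact hH i k ω j
    · rw [MvPolynomial.totalDegree_C, Nat.cast_zero]
      exact hw j

open Classical in
/-- the charts of the zoom, cut off -/
def tG (i : ι) (k : ℕ) (ω : (z.Z.sp.F k).Ω) (j : Fin M') : MvPolynomial (Fin (s.lf i).e) ℝ :=
  if z.A i k ω then z.G i k ω j else MvPolynomial.C (rnd (z.Z.sp.dl 1 k) (z.X.v k ω j))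

open Classical in
/-- the changed charts, cut off -/
def tH (i : ι) (k : ℕ) (ω : (z.Z.sp.F k).Ω) (j : Fin M') : MvPolynomial (Fin (s.lf i).e) ℝ :=
  if z.A i k ω then H i k ω j else MvPolynomial.C (rnd (z.Z.sp.dl 1 k) (z.X.v k ω j))

theorem tG_deg (i : ι) (k : ℕ) (ω : (z.Z.sp.F k).Ω) (j : Fin M') : (z.tG i k ω j).totalDegree ≤ g + z.κx := by
  unfold tG
  split_ifs
  · exact (z.deg i k ω j).trans (Nat.le_add_left _ _)
  · rw [MvPolynomial.totalDegree_C]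
    exact Nat.zero_le _

include deg in
theorem tH_deg (i : ι) (k : ℕ) (ω : (z.Z.sp.F k).Ω) (j : Fin M') : (z.tH H i k ω j).totalDegree ≤ g + z.κx := by
  unfold tH
  split_ifs
  · exact (deg i k ω j).trans (Nat.le_add_right _ _)
  · rw [MvPolynomial.totalDegree_C]
    exact Nat.zero_le _

include sm in
theorem tay_aux (i : ι) : ∃ K : ℕ → ℝ, z.Z.sp.Sub K ∧ ∀ᶠ k in UF, ∀ ω, (z.Z.sp.F k).μ ω ≠ 0 →
    ∀ j a, |(z.tG i k ω j).coeff a| ≤ K k ∧
      |(z.tH H i k ω j).coeff a - (z.tG i k ω j).coeff a| ≤ K k * z.Z.sp.dl 1 k := by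
  obtain ⟨K1, hK1, h1⟩ := z.A_pt i
  obtain ⟨K2, hK2, h2⟩ := sm i
  obtain ⟨K3, hK3, h3⟩ := z.X.bd
  have hK2' := z.Z.Sub_sp.1 hK2
  refine ⟨fun k => K1 k + (K2 k + (K3 k + 1)), hK1.add (hK2'.add (hK3.add (z.Z.sp.Sub_const zero_le_one))), ?_⟩
  filter_upwards [h1, h2, h3, hK1.1, hK2'.1, hK3.1] with k a1 a2 a3 b1 b2 b3 ω hω j a
  have hd0 := z.Z.sp.dl_pos 1 k
  unfold tG tH
  by_cases hA : z.A i k ω
  · rw [if_pos hA, if_pos hA]
    have c1 := (a1 ω hω hA).1 j a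
    have c2 := a2 ω hω j a
    rw [← z.Z.sp_dl1] at c2
    refine ⟨by linarith, c2.trans ?_⟩
    apply mul_le_mul_of_nonneg_right _ hd0.le
    linarith
  · rw [if_neg hA, if_neg hA, sub_self, abs_zero]
    constructor
    · rw [MvPolynomial.coeff_C]
      have c3 := rnd_abs hd0 (dl_one_le z.Z.sp k) (z.X.v k ω j)
      have c4 := a3 ω hω j
      split_ifs
      · linarith
      · rw [abs_zero]
        linarith
    · apply mul_nonneg _ hd0.le
      linarith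

/-- THE CHANGE OF THE CHARTS -/
theorem tay_trm : Tay z.sys (z.trm hg hge H deg fn sm) := by
  refine ⟨rfl, fun i => ?_⟩
  obtain ⟨K, hK, h⟩ := z.tay_aux H sm i
  refine ⟨rfl, g + z.κx, z.tG i, z.tH H i, K, hK, fun k => rfl, fun k ω m => rfl,
    fun k ω j => ⟨z.tG_deg i k ω j, z.tH_deg H deg i k ω j⟩, ?_⟩
  filter_upwards [h] with k a1 ω hω j
  exact ⟨fun y => ⟨z.sys_F i k ω y j, z.trm_F hg hge H deg fn sm i k ω y j⟩, fun a => a1 ω hω j a⟩

end PW

/-! ### from polynomial charts to weighted degrees -/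

section wd

variable {s : MSys S M E ι} {l : Lab S} {w : Fin M → ℝ} {c e : ℝ} (f : Frm s.Q l (fun j => w j * c)) (hc : 0 < c)
  (he : 0 < e) (h1 : c + e ≤ 1) (hwe : ∀ j, w j * c + e ≤ 1)
  (dm : ∀ i, Nul S (fun k => (l k).leak ((s.lf i).win c k))) (hw : ∀ j, 1 ≤ w j) {g : ℕ} (hwg : ∀ j, w j ≤ g)
  (hg : 1 ≤ g) (hge : ∀ i, (s.lf i).e ≤ g) {κ : ℕ} (wd : WDeg s (fun _ => (κ : ℝ)))

/-- the charts of the system -/
def gW (i : ι) : ∀ k, (S.F k).Ω → Fin M → MvPolynomial (Fin (s.lf i).e) ℝ := (wd i).choose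

theorem gW_eval (i : ι) : ∀ᶠ k in UF, ∀ ω, (S.F k).μ ω ≠ 0 → ∀ y j, (s.lf i).F k ω y j =
    MvPolynomial.eval y (gW wd i k ω j) := (wd i).choose_spec.1

theorem gW_deg (i : ι) (k : ℕ) (ω : (S.F k).Ω) (j : Fin M) : ((gW wd i k ω j).totalDegree : ℝ) ≤ (κ : ℝ) :=
  (wd i).choose_spec.2 k ω j

/-- the charts of the zoom, exact -/
def zW (i : ι) (k : ℕ) (ω : (l k).T.Ω) (j : Fin M) : MvPolynomial (Fin (s.lf i).e) ℝ :=
  wch (frow f k ω j) (gW wd i k ((l k).p.π ω)) (crn (s.lf i) c k ((l k).p.π ω)) (S.dl c k)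

include hw hwg hc in
theorem zW_deg (i : ι) (k : ℕ) (ω : (l k).T.Ω) (j : Fin M) : (zW f wd i k ω j).totalDegree ≤ (g + 1) ^ M * κ := by
  have h3 := wLe_const κ (frow_deg f (frm_degW f hc.le hw hwg) k ω j)
  have h4 := wch_deg (fun _ => Nat.cast_nonneg κ) (Nat.cast_nonneg _) h3 (fun j => gW_deg wd i k ((l k).p.π ω) j)
    (crn (s.lf i) c k ((l k).p.π ω)) (S.dl c k)
  exact_mod_cast h4

include hw hwg hc in
/-- the terms of high degree are below the finest resolution of the zoom -/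
theorem zW_small (hfl : ∀ j, e ≤ ((⌊w j⌋₊ : ℝ) + 1 - w j) * c) (i : ι) : ∃ K : ℕ → ℝ, S.Sub K ∧ ∀ᶠ k in UF,
    ∀ ω : (l k).T.Ω, (l k).T.μ ω ≠ 0 → ∀ j a, ⌊w j⌋₊ < ∑ m, a m → |(zW f wd i k ω j).coeff a| ≤ K k * S.dl e k := by
  have hd : ∀ k (ω : (l k).T.Ω) j, (wch (inv (f.P k ω) j) (gW wd i k ((l k).p.π ω))
      (crn (s.lf i) c k ((l k).p.π ω)) 1).totalDegree ≤ (g + 1) ^ M * κ := by
    intro k ω j
    have h3 := wLe_const κ (Pool.Agent.Helper36.AM.inv_deg (fun j => frm_degW f hc.le hw hwg k ω j) j)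
    have h4 := wch_deg (fun _ => Nat.cast_nonneg κ) (Nat.cast_nonneg _) h3 (fun j => gW_deg wd i k ((l k).p.π ω) j)
      (crn (s.lf i) c k ((l k).p.π ω)) 1
    exact_mod_cast h4
  obtain ⟨K, hK, h⟩ := wch_cf f (frm_degW f hc.le hw hwg) hc i (gW wd i) (gW_eval wd i) hd
  refine ⟨K, hK, ?_⟩
  filter_upwards [h] with k h2 ω hω j a ha
  have e1 : zW f wd i k ω j = MvPolynomial.C (S.dl (w j * c) k)⁻¹ * scl (S.dl c k) (wch (inv (f.P k ω) j)
      (gW wd i k ((l k).p.π ω)) (crn (s.lf i) c k ((l k).p.π ω)) 1) := by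
    unfold zW frow
    rw [wch_C, wch_scl]
  rw [e1, MvPolynomial.coeff_C_mul, scl_coeff, abs_mul, abs_mul, abs_of_pos (inv_pos.2 (S.dl_pos _ _)),
    abs_of_pos (pow_pos (S.dl_pos _ _) _)]
  have h4 := h2 ω hω j a
  have h5 : (S.dl (w j * c) k)⁻¹ * S.dl c k ^ (∑ m, a m) ≤ S.dl e k := by
    rw [inv_mul_le_iff₀ (S.dl_pos _ _), ← S.dl_add]
    have h6 : S.dl c k ^ (∑ m, a m) = S.dl ((∑ m, a m : ℕ) * c) k := by
      unfold Sp.dl
      rw [← Real.rpow_natCast, ← Real.rpow_mul (by norm_num)]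
      congr 1
      ring
    rw [h6]
    apply S.dl_anti
    have h7 : ((⌊w j⌋₊ : ℝ) + 1) ≤ ((∑ m, a m : ℕ) : ℝ) := by exact_mod_cast ha
    have h8 := mul_le_mul_of_nonneg_right h7 hc.le
    have h9 := hfl j
    linarith
  have h10 : 0 ≤ K k := (abs_nonneg _).trans h4
  calc (S.dl (w j * c) k)⁻¹ * (S.dl c k ^ (∑ m, a m) * |(wch (inv (f.P k ω) j) (gW wd i k ((l k).p.π ω))
        (crn (s.lf i) c k ((l k).p.π ω)) 1).coeff a|)
      = ((S.dl (w j * c) k)⁻¹ * S.dl c k ^ (∑ m, a m)) * |(wch (inv (f.P k ω) j) (gW wd i k ((l k).p.π ω))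
        (crn (s.lf i) c k ((l k).p.π ω)) 1).coeff a| := by ring
    _ ≤ S.dl e k * K k := mul_le_mul h5 h4 (abs_nonneg _) (S.dl_pos _ _).le
    _ = K k * S.dl e k := mul_comm _ _

theorem zW_fn (i : ι) : ∀ᶠ k in UF, ∀ ω ω' : (l k).T.Ω, (l k).T.μ ω ≠ 0 → (l k).T.μ ω' ≠ 0 → (l k).T.Z ω ω' →
    (l k).V ω ω' → (s.lf i).La k ((l k).p.π ω) ((l k).p.π ω') →
      ((fun a => ⌊(s.lf i).Y.v k ((l k).p.π ω) a / S.dl c k⌋) = fun a => ⌊(s.lf i).Y.v k ((l k).p.π ω') a / S.dl c k⌋) →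
        zW f wd i k ω = zW f wd i k ω' := by
  filter_upwards [f.fn, (s.lf i).fn, gW_eval wd i] with k h1 h2 h3 ω ω' a b z v r1 r2
  have e1 : frow f k ω = frow f k ω' := by
    funext j
    unfold frow
    rw [show f.P k ω = f.P k ω' from h1 ω ω' a b z v]
  have hω := (l k).p.supp ω a
  have hω' := (l k).p.supp ω' b
  have zz := ((l k).p.hZ ω ω' a b).1 z
  have e2 : (s.lf i).F k ((l k).p.π ω) = (s.lf i).F k ((l k).p.π ω') := h2 _ _ hω hω' zz r1
  have e3 : gW wd i k ((l k).p.π ω) = gW wd i k ((l k).p.π ω') := by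
    funext j
    apply MvPolynomial.funext
    intro y
    rw [← h3 _ hω y j, ← h3 _ hω' y j, e2]
  have e4 : crn (s.lf i) c k ((l k).p.π ω) = crn (s.lf i) c k ((l k).p.π ω') := by
    funext a
    have h4 := congrFun r2 a
    unfold crn
    rw [h4]
  funext j
  unfold zW
  rw [e1, e3, e4]

theorem zW_ex (i : ι) : ∀ᶠ k in UF, ∀ ω : (l k).T.Ω, (l k).T.μ ω ≠ 0 → ∀ (y : Fin (s.lf i).e → ℝ) (j : Fin M),
    MvPolynomial.eval y (zW f wd i k ω j) = MvPolynomial.eval ((s.lf i).F k ((l k).p.π ω)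
      (fun a => crn (s.lf i) c k ((l k).p.π ω) a + S.dl c k * y a)) (frow f k ω j) := by
  filter_upwards [gW_eval wd i] with k h3 ω hω y j
  unfold zW
  rw [wch_eval]
  congr 2
  funext i'
  exact (h3 _ ((l k).p.supp ω hω) _ i').symm

/-- data of the exact zoom -/
def pwW : PW s M where
  Z := (fdW f hc.le he h1 hwe hw hwg).zu
  dm := dm
  D := (g + 1) ^ M
  Λ := 1 - e
  R := (fdW f hc.le he h1 hwe hw hwg).rows
  X := (fdW f hc.le he h1 hwe hw hwg).XV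
  hX := (fdW f hc.le he h1 hwe hw hwg).isX_XV
  κx := (g + 1) ^ M * κ + g
  hκ1 := hg.trans (Nat.le_add_left _ _)
  he := fun i => (hge i).trans (Nat.le_add_left _ _)
  G := zW f wd
  deg := fun i k ω j => (zW_deg f hc hw hwg wd i k ω j).trans (Nat.le_add_right _ _)
  fn := by
    intro i
    filter_upwards [zW_fn f wd i] with k h1 ω ω' a b z v r
    exact h1 ω ω' a b z v r.1 r.2
  ex := by
    intro i
    filter_upwards [zW_ex f wd i] with k h3 ω hω y j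
    exact h3 ω hω y j

include hc hwg in
/-- THE EXACT ZOOM IN THE COORDINATES OF THE FRAME -/
theorem pwW_gzf : Gzf s l f c e he (pwW f hc he h1 hwe dm hw hwg hg hge wd).sys := by
  refine ⟨⟨?_, fun b i hb _ => ⟨((pwW f hc he h1 hwe dm hw hwg hg hge wd).wz hb).le i,
    ((pwW f hc he h1 hwe dm hw hwg hg hge wd).wz hb).ge i⟩⟩, fun i => ?_⟩
  · obtain ⟨K, hK, h1⟩ := (fdW f hc.le he h1 hwe hw hwg).near
    exact ⟨K, hK, h1⟩
  · refine ⟨rfl, fun k ω => crn (s.lf i) c k ((l k).p.π ω), fun k ω a => ?_, ?_⟩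
    · have hd := (S.dl_pos c k).ne'
      show (s.lf i).Y.v k ((l k).p.π ω) a = crn (s.lf i) c k ((l k).p.π ω) a +
        S.dl c k * ((s.lf i).Y.v k ((l k).p.π ω) a / S.dl c k - ⌊(s.lf i).Y.v k ((l k).p.π ω) a / S.dl c k⌋)
      unfold crn
      field_simp
      ring
    · refine Typ.mono (S := (fdW f hc.le he h1 hwe hw hwg).zu.sp)
        ((pwW f hc he h1 hwe dm hw hwg hg hge wd).A_typ i) ?_
      filter_upwards [zW_ex f wd i] with k hex
      intro (ω : (l k).T.Ω) hω hA y j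
      have h1' : ∀ a, S.dl (w a * c) k * ((pwW f hc he h1 hwe dm hw hwg hg hge wd).sys.lf i).F k ω y a =
          MvPolynomial.eval ((s.lf i).F k ((l k).p.π ω)
            (fun m => crn (s.lf i) c k ((l k).p.π ω) m + S.dl c k * y m)) (inv (f.P k ω) a) := by
        intro a
        rw [(pwW f hc he h1 hwe dm hw hwg hg hge wd).sys_F i k ω y a, if_pos hA]
        show S.dl (w a * c) k * MvPolynomial.eval y (zW f wd i k ω a) = _
        rw [hex ω hω y a]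
        unfold frow
        rw [map_mul, MvPolynomial.eval_C, ← mul_assoc, mul_inv_cancel₀ (S.dl_pos _ _).ne', one_mul]
      show (s.lf i).F k ((l k).p.π ω) (fun m => crn (s.lf i) c k ((l k).p.π ω) m + S.dl c k * y m) j =
        MvPolynomial.eval (fun a => S.dl (w a * c) k * ((pwW f hc he h1 hwe dm hw hwg hg hge wd).sys.lf i).F k ω y a)
          (f.P k ω j) + S.dl (w j * c) k * ((pwW f hc he h1 hwe dm hw hwg hg hge wd).sys.lf i).F k ω y j
      rw [h1' j, show (fun a => S.dl (w a * c) k * ((pwW f hc he h1 hwe dm hw hwg hg hge wd).sys.lf i).F k ω y a) =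
        fun a => MvPolynomial.eval ((s.lf i).F k ((l k).p.π ω) (fun m => crn (s.lf i) c k ((l k).p.π ω) m +
          S.dl c k * y m)) (inv (f.P k ω) a) from funext h1']
      exact (inv_back (f.tri k ω) _ j).symm

end wd

/-- WD1: THE ZOOM IN THE COORDINATES OF A FRAME of a system with polynomial charts (of any bounded degree `κ`), exponents
`w j * c`, `c > 0`, unit `e ≤ (⌊w j⌋ + 1 - w j) c`: `t` is the exact zoom, `t'` has the same point, parameters, labels and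
windows; its charts differ from the charts of `t` by the finest resolution and have the weighted degrees `w`; the complexity
of `t'` is any `g ≥ w j`, `g ≥ dimensions of the types` -/
theorem exists_wd {s : MSys S M E ι} {l : Lab S} {w : Fin M → ℝ} {c e : ℝ} (f : Frm s.Q l (fun j => w j * c))
    (hc : 0 < c) (he : 0 < e) (h1 : c + e ≤ 1) (hwe : ∀ j, w j * c + e ≤ 1)
    (dm : ∀ i, Nul S (fun k => (l k).leak ((s.lf i).win c k))) (hw : ∀ j, 1 ≤ w j) {g : ℕ} (hwg : ∀ j, w j ≤ g)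
    (hg : 1 ≤ g) (hge : ∀ i, (s.lf i).e ≤ g) {κ : ℕ} (wd : WDeg s (fun _ => (κ : ℝ)))
    (hfl : ∀ j, e ≤ ((⌊w j⌋₊ : ℝ) + 1 - w j) * c) :
    ∃ (g₁ : ℕ) (t : MSys (l.ovr e he) M (Pool.Agent.Helper84.MT.lin g₁) ι)
      (t' : MSys (l.ovr e he) M (Pool.Agent.Helper84.MT.lin g) ι), g ≤ g₁ ∧ Gzf s l f c e he t ∧ Tay t t' ∧ WDeg t' w ∧
        Gz s l c e he f.X t' ∧ t.Q = (fdW f hc.le he h1 hwe hw hwg).XV ∧ t'.Q = (fdW f hc.le he h1 hwe hw hwg).XV ∧
          (∀ i, (t.lf i).e = (s.lf i).e) ∧ (∀ i, (t'.lf i).e = (s.lf i).e) ∧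
            ∀ b, 0 ≤ b → WZ ⟨l, c, e, hc.le, he, h1⟩ s t' b := by
  have h0 : ∀ j, (0 : ℝ) ≤ w j := fun j => zero_le_one.trans (hw j)
  let z : PW s M := pwW f hc he h1 hwe dm hw hwg hg hge wd
  let H : ∀ i k, (z.Z.l k).T.Ω → Fin M → MvPolynomial (Fin (s.lf i).e) ℝ := fun i k ω j => trd ⌊w j⌋₊ (z.G i k ω j)
  have hd1 : ∀ i k ω j, ((H i k ω j).totalDegree : ℝ) ≤ w j := fun i k ω j =>
    (Nat.cast_le.2 (trd_deg ⌊w j⌋₊ (z.G i k ω j))).trans (Nat.floor_le (h0 j))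
  have deg : ∀ i k ω j, (H i k ω j).totalDegree ≤ g := fun i k ω j => by
    have h2 := (hd1 i k ω j).trans (hwg j)
    exact_mod_cast h2
  have fn : ∀ i, ∀ᶠ k in UF, ∀ ω ω', (z.Z.l k).T.μ ω ≠ 0 → (z.Z.l k).T.μ ω' ≠ 0 → (z.Z.l k).T.Z ω ω' →
      (z.Z.l k).V ω ω' → (z.Z.zLa (s.lf i) k) ω ω' → H i k ω = H i k ω' := by
    intro i
    filter_upwards [z.fn i] with k h2 ω ω' a b c d r
    funext j
    show trd _ (z.G i k ω j) = trd _ (z.G i k ω' j)
    rw [h2 ω ω' a b c d r]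
  have sm : ∀ i, ∃ K : ℕ → ℝ, S.Sub K ∧ ∀ᶠ k in UF, ∀ ω, (z.Z.l k).T.μ ω ≠ 0 → ∀ j a,
      |(H i k ω j).coeff a - (z.G i k ω j).coeff a| ≤ K k * S.dl z.Z.u k := by
    intro i
    obtain ⟨K, hK, h2⟩ := zW_small f hc hw hwg wd hfl i
    refine ⟨K, hK, ?_⟩
    filter_upwards [h2, hK.1] with k a1 a2 ω hω j a
    show |(trd ⌊w j⌋₊ (zW f wd i k ω j)).coeff a - (zW f wd i k ω j).coeff a| ≤ K k * S.dl e k
    rw [trd_coeff]
    split_ifs with h3
    · rw [sub_self, abs_zero]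
      exact mul_nonneg a2 (S.dl_pos _ _).le
    · rw [zero_sub, abs_neg]
      exact a1 ω hω j a (not_le.1 h3)
  have hz := pwW_gzf f hc he h1 hwe dm hw hwg hg hge wd
  obtain ⟨K, hK, h2⟩ := (fdW f hc.le he h1 hwe hw hwg).near
  exact ⟨z.κx, z.sys, z.trm hg hge H deg fn sm, Nat.le_add_left _ _, hz, z.tay_trm hg hge H deg fn sm,
    z.trm_wd hg hge H deg fn sm h0 hd1,
    ⟨⟨K, hK, h2⟩, fun b i hb _ => ⟨(z.trm_wz hg hge H deg fn sm hb).le i, (z.trm_wz hg hge H deg fn sm hb).ge i⟩⟩,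
    rfl, rfl, fun i => rfl, fun i => rfl, fun b hb => z.trm_wz hg hge H deg fn sm hb⟩

end

end Pool.Agent.Helper7.RD
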