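import Pool.Agent.Helper7.RD.Kv
import Pool.Agent.Helper89.MG.Typf

/-! GENERAL LEAVES IN THE COORDINATES OF ROWS, EXACT CHARTS, all windows `c ≥ 0`: the chart of the zoom is the value of the
rows at the chart of the system (no Taylor approximation). -/

set_option autoImplicit false

namespace Pool.Agent.Helper7.RD

open Finset Filter Topology Matrix Pool.Agent.Helper69.RK Pool.Agent.Helper31.EC Pool.Agent.Helper31.EC.Sp
open Pool.Agent.Helper40.EL Pool.Agent.Helper89.LX Pool.Agent.Helper3.LF Pool.Agent.Helper84.MT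
open Pool.Agent.Helper81.AD Pool.Agent.Helper7.GZ
open Pool.Agent.Helper89.TAY (crn crn_lt)

noncomputable section

variable {S : Sp} {M M' : ℕ} {E E' : ℕ → ℕ} {ι : Type}

/-! ### leaves which are tame on a typical event -/

section leafT

variable {Q : S.VV M} (e : ℕ) (he : e ≤ E 0) (La : ∀ k, Setoid (S.F k).Ω) (Y : S.VV e)
    (F : ∀ k, (S.F k).Ω → (Fin e → ℝ) → Fin M → ℝ)
    (fn : ∀ᶠ k in UF, ∀ ω ω', (S.F k).μ ω ≠ 0 → (S.F k).μ ω' ≠ 0 → (S.F k).Z ω ω' → La k ω ω' → F k ω = F k ω')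
    (al : ∀ k, (S.F k).Ω → ℕ → Set ((Fin e → ℝ) → ℝ))
    (alg : ∀ᶠ k in UF, ∀ ω, (S.F k).μ ω ≠ 0 → Alg e (Y.v k ω) (al k ω))
    (crF : ∀ᶠ k in UF, ∀ ω, (S.F k).μ ω ≠ 0 → ∀ j, (fun y => F k ω y j) ∈ al k ω 1)
    (seg : ∀ D : ℕ, ∃ K : ℕ → ℝ, S.Sub K ∧ ∀ᶠ k in UF, ∀ ω, (S.F k).μ ω ≠ 0 → ∀ f ∈ al k ω D, ∀ y z : Fin e → ℝ,
      (∀ i, |y i - Y.v k ω i| ≤ 1) → (∀ i, |z i - Y.v k ω i| ≤ 1) →
      RemS (E D) (K k) (fun u => f (fun i => y i + u * (z i - y i))) ∧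
        BmS (K k) (fun u => f (fun i => y i + u * (z i - y i))))
    (A : ∀ k, (S.F k).Ω → Prop) (hA : Typ A)
    (bd : ∃ K : ℕ → ℝ, S.Sub K ∧ ∀ᶠ k in UF, ∀ ω, (S.F k).μ ω ≠ 0 → A k ω →
      (∀ y : Fin e → ℝ, (∀ i, |y i - Y.v k ω i| ≤ 1) → ∀ j, |F k ω y j| ≤ K k) ∧
        ∀ j, |Q.v k ω j - F k ω (Y.v k ω) j| ≤ K k * S.dl 1 k)
    (full : Tendsto (fun k => h (fc (Setoid.ker (Y.cellv 1 k))) (fc (La k)) / (S.F k).n) UF (𝓝 e))

open Classical in
/-- A LEAF whose chart is tame on a typical event only; off this event it is cut into the cells of the point -/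
def leafT : Leaf S Q E where
  e := e
  he := he
  La := fun k => La k ⊓ offS Q A k
  Y := Y
  F := fun k ω y j => if A k ω then F k ω y j else rnd (S.dl 1 k) (Q.v k ω j)
  fn := by
    filter_upwards [fn] with k hk ω ω' a b z r
    funext y j
    by_cases hA : A k ω
    · have hA' : A k ω' := r.2.1.1 hA
      rw [if_pos hA, if_pos hA', hk ω ω' a b z r.1]
    · have hA' : ¬ A k ω' := fun c => hA (r.2.1.2 c)
      rw [if_neg hA, if_neg hA']
      have h1 : Q.cellv 1 k ω = Q.cellv 1 k ω' := r.2.2.2 hA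
      rw [rnd_of_cell h1 j]
  bd := by
    obtain ⟨K, hK, h1⟩ := bd
    obtain ⟨L, hL, h2⟩ := Q.bd
    refine ⟨fun k => K k + (L k + 1), hK.add (hL.add (S.Sub_const zero_le_one)), ?_⟩
    filter_upwards [h1, h2, hK.1, hL.1] with k a b hK0 hL0 ω hω y hy j
    by_cases hA : A k ω
    · rw [if_pos hA]
      have := (a ω hω hA).1 y hy j
      linarith
    · rw [if_neg hA]
      have h3 := rnd_abs (S.dl_pos 1 k) (dl_one_le S k) (Q.v k ω j)
      have h4 := b ω hω j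
      linarith
  al := al
  alg := alg
  crF := by
    filter_upwards [alg, crF] with k h1 h2 ω hω j
    by_cases hA : A k ω
    · simp only [if_pos hA]
      exact h2 ω hω j
    · simp only [if_neg hA]
      exact (h1 ω hω).const' 1 _
  seg := seg
  pt := by
    obtain ⟨K, hK, h1⟩ := bd
    refine ⟨fun k => K k + 1, hK.add (S.Sub_const zero_le_one), ?_⟩
    filter_upwards [h1, hK.1] with k a hK0 ω hω i
    have hd := S.dl_pos 1 k
    by_cases hA : A k ω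
    · rw [if_pos hA]
      refine ((a ω hω hA).2 i).trans ?_
      nlinarith
    · rw [if_neg hA]
      have h3 := rnd_le hd (Q.v k ω i)
      nlinarith
  full := h_inf_nul (offP_nul Q hA) _ full

theorem leafT_e : (leafT (E := E) (Q := Q) e he La Y F fn al alg crF seg A hA bd full).e = e := rfl

theorem leafT_Y : (leafT (E := E) (Q := Q) e he La Y F fn al alg crF seg A hA bd full).Y = Y := rfl

theorem leafT_F (k : ℕ) (ω : (S.F k).Ω) (h : A k ω) (y : Fin e → ℝ) (j : Fin M) :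
    (leafT (E := E) (Q := Q) e he La Y F fn al alg crF seg A hA bd full).F k ω y j = F k ω y j := by
  classical
  exact if_pos h

theorem leafT_win_ge (c : ℝ) : PLe (fun k => fc (La k ⊓ Setoid.ker (Y.cellv c k)))
    ((leafT (E := E) (Q := Q) e he La Y F fn al alg crF seg A hA bd full).win c) := by
  apply PLe_of_le
  intro k
  apply fc_le
  intro ω ω' _ _ _ r
  exact ⟨r.1.1, r.2⟩

theorem leafT_win_le (c : ℝ) : PLe ((leafT (E := E) (Q := Q) e he La Y F fn al alg crF seg A hA bd full).win c)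
    (fun k => fc (La k ⊓ Setoid.ker (Y.cellv c k))) := by
  have h1 := PLe_inf_nul (La := fun k => La k ⊓ Setoid.ker (Y.cellv c k)) (offP_nul Q hA)
  refine PLe.trans (PLe_of_le ?_) h1
  intro k
  apply fc_le
  intro ω ω' _ _ _ r
  exact ⟨⟨r.1.1, r.2⟩, r.1.2⟩

end leafT

/-! ### a function on a segment -/

/-- Remez: a bound on the half open segment is a bound on the segment -/
theorem rem_closed {N : ℕ} {B : ℝ} {φ : ℝ → ℝ} (h : RemS N B φ) {a : ℝ} (ha : ∀ u : ℝ, 0 ≤ u → u < 1 → |φ u| ≤ a) :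
    |φ 1| ≤ B * (2 * ((N : ℝ) + 1)) ^ N * a := by
  have hN : (0 : ℝ) < 2 * ((N : ℝ) + 1) := by positivity
  have h1 := h (fun i => (i : ℝ) / (2 * ((N : ℝ) + 1))) (1 / (2 * ((N : ℝ) + 1))) a (by positivity) (fun i => ?_)
    (fun i j hij => ?_) (fun i => ?_) 1 ⟨zero_le_one, le_rfl⟩
  · rw [one_div_one_div] at h1
    exact h1
  · have h2 : ((i : ℕ) : ℝ) ≤ N := by exact_mod_cast Nat.le_of_lt_succ i.2
    constructor
    · positivity
    · rw [div_le_one hN]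
      linarith
  · rw [← sub_div, abs_div, abs_of_pos hN]
    apply div_le_div_of_nonneg_right _ hN.le
    have h3 : (i : ℤ) - (j : ℤ) ≠ 0 := by
      intro h4
      apply hij
      ext
      omega
    have h4 : (1 : ℤ) ≤ |(i : ℤ) - (j : ℤ)| := Int.one_le_abs h3
    exact_mod_cast h4
  · have h2 : ((i : ℕ) : ℝ) ≤ N := by exact_mod_cast Nat.le_of_lt_succ i.2
    apply ha
    · positivity
    · rw [div_lt_one hN]
      linarith

/-! ### the zoom of a general leaf -/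

section zleaf

variable (Z : ZU S) {Q : S.VV M} (l : Leaf S Q E)

/-- the map of parameters -/
def zpa (k : ℕ) (ω : (Z.l k).T.Ω) (y : Fin l.e → ℝ) : Fin l.e → ℝ :=
  fun a => crn l Z.c k ((Z.l k).p.π ω) a + S.dl Z.c k * y a

theorem zpa_sub (k : ℕ) (ω : (Z.l k).T.Ω) (y : Fin l.e → ℝ) (a : Fin l.e) :
    zpa Z l k ω y a - l.Y.v k ((Z.l k).p.π ω) a = S.dl Z.c k * (y a - (Z.fr l.Y).v k ω a) := by
  have hd := (S.dl_pos Z.c k).ne'
  rw [Z.fr_v]
  unfold zpa crn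
  field_simp
  ring

theorem zpa_Y (k : ℕ) (ω : (Z.l k).T.Ω) : zpa Z l k ω ((Z.fr l.Y).v k ω) = l.Y.v k ((Z.l k).p.π ω) := by
  funext a
  have h1 := zpa_sub Z l k ω ((Z.fr l.Y).v k ω) a
  rw [sub_self, mul_zero] at h1
  linarith

theorem zpa_cube (k : ℕ) (ω : (Z.l k).T.Ω) (y : Fin l.e → ℝ) (a : Fin l.e) {r : ℝ}
    (hy : |y a - (Z.fr l.Y).v k ω a| ≤ r) : |zpa Z l k ω y a - l.Y.v k ((Z.l k).p.π ω) a| ≤ S.dl Z.c k * r := by
  rw [zpa_sub, abs_mul, abs_of_pos (S.dl_pos Z.c k)]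
  exact mul_le_mul_of_nonneg_left hy (S.dl_pos Z.c k).le

theorem zpa_update (k : ℕ) (ω : (Z.l k).T.Ω) (y : Fin l.e → ℝ) (i : Fin l.e) (t : ℝ) :
    zpa Z l k ω (Function.update y i t) = Function.update (zpa Z l k ω y) i
      (crn l Z.c k ((Z.l k).p.π ω) i + S.dl Z.c k * t) := by
  funext a
  by_cases h : a = i
  · subst h
    rw [Function.update_self]
    unfold zpa
    rw [Function.update_self]
  · rw [Function.update_of_ne h]
    unfold zpa
    rw [Function.update_of_ne h]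

theorem zpa_seg (k : ℕ) (ω : (Z.l k).T.Ω) (y z : Fin l.e → ℝ) (u : ℝ) :
    zpa Z l k ω (fun i => y i + u * (z i - y i)) = fun i => zpa Z l k ω y i + u * (zpa Z l k ω z i - zpa Z l k ω y i) := by
  funext i
  unfold zpa
  ring

/-- the functions of the zoom -/
def zpal (D₀ : ℕ) (k : ℕ) (ω : (Z.l k).T.Ω) (D : ℕ) : Set ((Fin l.e → ℝ) → ℝ) :=
  {f | ∃ g ∈ l.al k ((Z.l k).p.π ω) (D₀ * D), f = fun y => g (zpa Z l k ω y)}

theorem zpal_alg {D₀ : ℕ} (h0 : 1 ≤ D₀) (k : ℕ) (ω : (Z.l k).T.Ω)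
    (h : Alg l.e (l.Y.v k ((Z.l k).p.π ω)) (l.al k ((Z.l k).p.π ω))) :
    Alg l.e ((Z.fr l.Y).v k ω) (zpal Z l D₀ k ω) where
  const := fun a => ⟨fun _ => a, h.const a, rfl⟩
  add := by
    rintro D f g ⟨f', hf, rfl⟩ ⟨g', hg, rfl⟩
    exact ⟨_, h.add _ _ _ hf hg, rfl⟩
  mul := by
    rintro D D' f g ⟨f', hf, rfl⟩ ⟨g', hg, rfl⟩
    refine ⟨fun y => f' y * g' y, ?_, rfl⟩
    rw [Nat.mul_add]
    exact h.mul _ _ _ _ hf hg
  mono := by
    rintro D D' hD f ⟨f', hf, rfl⟩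
    exact ⟨_, h.mono _ _ (Nat.mul_le_mul_left _ hD) hf, rfl⟩
  crd := by
    intro i
    refine ⟨fun y => (S.dl Z.c k)⁻¹ * y i + -((S.dl Z.c k)⁻¹ * crn l Z.c k ((Z.l k).p.π ω) i),
      h.mono 1 _ (by omega) (h.add 1 _ _ (h.smul (h.crd i) _) (h.const' 1 _)), ?_⟩
    funext y
    have hd := (S.dl_pos Z.c k).ne'
    unfold zpa
    field_simp
    ring
  der := by
    rintro D f ⟨g, hg, rfl⟩ i
    obtain ⟨g2, hg2, hd⟩ := h.der _ g hg i
    refine ⟨fun y => S.dl Z.c k * g2 (zpa Z l k ω y),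
      ⟨_, h.mono (D₀ * D + 1) (D₀ * (D + 1)) (by rw [Nat.mul_add]; omega) (h.smul hg2 (S.dl Z.c k)), rfl⟩, fun y hy => ?_⟩
    have h1 := hd (zpa Z l k ω y) (fun j => by
      rw [zpa_sub, abs_mul, abs_of_pos (S.dl_pos Z.c k)]
      have h2 := hy j
      have h3 := Z.dl_c_le k
      have h4 := S.dl_pos Z.c k
      have h5 := abs_nonneg (y j - (Z.fr l.Y).v k ω j)
      nlinarith)
    have h2 : HasDerivAt (fun t : ℝ => crn l Z.c k ((Z.l k).p.π ω) i + S.dl Z.c k * t) (S.dl Z.c k) (y i) := by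
      have h3 := ((hasDerivAt_id (y i)).const_mul (S.dl Z.c k)).const_add (crn l Z.c k ((Z.l k).p.π ω) i)
      rw [mul_one] at h3
      exact h3
    have h4 : zpa Z l k ω y i = crn l Z.c k ((Z.l k).p.π ω) i + S.dl Z.c k * y i := rfl
    rw [h4] at h1
    have h5 := HasDerivAt.comp (y i) h1 h2
    have h6 : ((fun t => g (Function.update (zpa Z l k ω y) i t)) ∘
        fun t : ℝ => crn l Z.c k ((Z.l k).p.π ω) i + S.dl Z.c k * t) =
        fun t => g (zpa Z l k ω (Function.update y i t)) := by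
      funext t
      rw [zpa_update]
      rfl
    rw [h6, mul_comm] at h5
    exact h5

theorem zpal_seg (D₀ : ℕ) (hE : ∀ D, E (D₀ * D) ≤ E' D) (D : ℕ) : ∃ K : ℕ → ℝ, S.Sub K ∧ ∀ᶠ k in UF,
    ∀ ω, (Z.l k).T.μ ω ≠ 0 → ∀ f ∈ zpal Z l D₀ k ω D, ∀ y z : Fin l.e → ℝ,
      (∀ i, |y i - (Z.fr l.Y).v k ω i| ≤ 1) → (∀ i, |z i - (Z.fr l.Y).v k ω i| ≤ 1) →
      RemS (E' D) (K k) (fun u => f (fun i => y i + u * (z i - y i))) ∧
        BmS (K k) (fun u => f (fun i => y i + u * (z i - y i))) := by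
  obtain ⟨K, hK, hb⟩ := l.seg (D₀ * D)
  refine ⟨K, hK, ?_⟩
  filter_upwards [hb, hK.1] with k hk hK0 ω hω f hf y z hy hz
  obtain ⟨g, hg, rfl⟩ := hf
  have hd1 := Z.dl_c_le k
  have h1 := hk _ (Z.supp k ω hω) g hg (zpa Z l k ω y) (zpa Z l k ω z)
    (fun i => (zpa_cube Z l k ω y i (hy i)).trans (by rw [mul_one]; exact hd1))
    (fun i => (zpa_cube Z l k ω z i (hz i)).trans (by rw [mul_one]; exact hd1))
  have h2 : (fun u : ℝ => g (zpa Z l k ω (fun i => y i + u * (z i - y i)))) =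
      fun u => g (fun i => zpa Z l k ω y i + u * (zpa Z l k ω z i - zpa Z l k ω y i)) := by
    funext u
    rw [zpa_seg]
  show RemS (E' D) (K k) (fun u : ℝ => g (zpa Z l k ω (fun i => y i + u * (z i - y i)))) ∧
    BmS (K k) (fun u : ℝ => g (zpa Z l k ω (fun i => y i + u * (z i - y i))))
  rw [h2]
  exact ⟨h1.1.mono (hE D) hK0 le_rfl, h1.2⟩

variable {D : ℕ} {Λ : ℝ} (R : Rows Q Z.l M' D Λ Z.u)

/-- the chart of the zoom: the value of the rows at the chart of the system -/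
def rch (k : ℕ) (ω : (Z.l k).T.Ω) (y : Fin l.e → ℝ) (j : Fin M') : ℝ :=
  MvPolynomial.eval (l.F k ((Z.l k).p.π ω) (zpa Z l k ω y)) (R.p k ω j)

theorem rch_fn : ∀ᶠ k in UF, ∀ ω ω', (Z.sp.F k).μ ω ≠ 0 → (Z.sp.F k).μ ω' ≠ 0 → (Z.sp.F k).Z ω ω' →
    (Z.zLa l k) ω ω' → rch Z l R k ω = rch Z l R k ω' := by
  filter_upwards [R.fn, l.fn] with k h1 h2 ω ω' a b g r
  obtain ⟨g1, g2, g3⟩ := Z.hZ k ω ω' a b g
  have e1 := h1 ω ω' a b g2 g1
  have e2 := h2 _ _ (Z.supp k ω a) (Z.supp k ω' b) g3 r.1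
  have e3 : crn l Z.c k ((Z.l k).p.π ω) = crn l Z.c k ((Z.l k).p.π ω') := by
    funext i
    have h5 : ⌊l.Y.v k ((Z.l k).p.π ω) i / S.dl Z.c k⌋ = ⌊l.Y.v k ((Z.l k).p.π ω') i / S.dl Z.c k⌋ := congrFun r.2 i
    unfold crn
    rw [h5]
  funext y j
  unfold rch zpa
  rw [e1, e2, e3]

theorem rch_crF {D₀ : ℕ} (hD : D ≤ D₀) : ∀ᶠ k in UF, ∀ ω, (Z.l k).T.μ ω ≠ 0 → ∀ j,
    (fun y => rch Z l R k ω y j) ∈ zpal Z l D₀ k ω 1 := by
  filter_upwards [l.eval_mem D, l.alg] with k h1 h2 ω hω j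
  refine ⟨fun y => MvPolynomial.eval (l.F k ((Z.l k).p.π ω) y) (R.p k ω j), ?_, rfl⟩
  rw [mul_one]
  exact (h2 _ (Z.supp k ω hω)).mono D D₀ hD (h1 _ (Z.supp k ω hω) _ (R.deg k ω j))

variable {X : Z.sp.VV M'}

/-- the chart of the zoom is tame on the cube, typically -/
theorem rch_bd (hl : Nul S (fun k => (Z.l k).leak (l.win Z.c k))) (hX : Rows.IsX Z R X) :
    ∃ K : ℕ → ℝ, S.Sub K ∧ Typ (S := Z.sp) (fun k (ω : (Z.l k).T.Ω) =>
      (∀ y : Fin l.e → ℝ, (∀ i, |y i - (Z.fr l.Y).v k ω i| ≤ 1) → ∀ j, |rch Z l R k ω y j| ≤ K k) ∧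
        ∀ j, |X.v k ω j - rch Z l R k ω ((Z.fr l.Y).v k ω) j| ≤ K k * Z.sp.dl 1 k) := by
  classical
  have hc1 : Z.c < 1 := by linarith [Z.h1, Z.hu]
  obtain ⟨KX, hKX, hX⟩ := hX
  obtain ⟨Kb, hKb, hbd⟩ := R.bd
  obtain ⟨Kp, hKp, hpt⟩ := l.pt
  obtain ⟨KL, hKL, hlp⟩ := R.lp Kp hKp
  obtain ⟨Ks, hKs, hseg⟩ := zpal_seg Z l D (E' := fun D' => E (D * D')) (fun _ => le_rfl) 1
  -- the value of the rows at the point of the chart
  have hlp' : Typ (S := Z.l.sp) (fun k (ω : (Z.l k).T.Ω) => ∀ j,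
      |MvPolynomial.eval (l.F k ((Z.l k).p.π ω) (l.Y.v k ((Z.l k).p.π ω))) (R.p k ω j) -
        MvPolynomial.eval (Q.v k ((Z.l k).p.π ω)) (R.p k ω j)| ≤ KL k * S.dl Z.u k) := by
    refine hlp.mono ?_
    filter_upwards [hpt] with k h1 ω hω h2
    apply h2
    intro i
    rw [abs_sub_comm]
    exact h1 _ ((Z.l k).p.supp ω hω) i
  have key : ∀ j : Fin M', ∃ K' : ℕ → ℝ, S.Sub K' ∧ Typ (S := Z.l.sp) (fun k w => ∀ y : Fin l.e → ℝ,
      (∀ i, |y i - l.Y.v k ((Z.l k).p.π w) i| < S.dl Z.c k) →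
        |MvPolynomial.eval (l.F k ((Z.l k).p.π w) y) (R.p k w j)| ≤
          K' k * |MvPolynomial.eval (l.F k ((Z.l k).p.π w) (l.Y.v k ((Z.l k).p.π w))) (R.p k w j)|) := by
    intro j
    refine typ_al l Z.h0 hc1 Z.l hl (D := D)
      (fun k w y => MvPolynomial.eval (l.F k ((Z.l k).p.π w) y) (R.p k w j)) ?_ (κ := fun _ => 1)
      (S.Sub_const zero_le_one) ?_
    · filter_upwards [l.eval_mem D] with k h1 w hw
      exact ⟨_, h1 _ ((Z.l k).p.supp w hw) _ (R.deg k w j), fun y _ => rfl⟩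
    · filter_upwards [R.fn, l.fn] with k h1 h2 w w' a b z v la cc y _
      have h3 := h1 w w' a b z v
      have h4 := h2 _ _ ((Z.l k).p.supp w a) ((Z.l k).p.supp w' b) (((Z.l k).p.hZ w w' a b).1 z) la
      rw [h3, h4, one_mul]
  choose K' hK' hT using key
  have hT2 := Typ_all _ hT
  have hpos : ∀ᶠ k in UF, ∀ j, 0 ≤ K' j k := eventually_all.2 fun j => (hK' j).1
  have hsumS : S.Sub (fun k => ∑ j, K' j k) := by
    have h2 : ∀ s : Finset (Fin M'), S.Sub (fun k => ∑ j ∈ s, K' j k) := by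
      intro s
      induction s using Finset.induction_on with
      | empty =>
        simp only [Finset.sum_empty]
        exact S.Sub_const le_rfl
      | insert a s ha ih =>
        simp only [Finset.sum_insert ha]
        exact (hK' a).add ih
    exact h2 _
  set N := E (D * 1) with hN
  have hcN : (0 : ℝ) ≤ (2 * ((N : ℝ) + 1)) ^ N := by positivity
  refine ⟨fun k => Ks k * (2 * ((N : ℝ) + 1)) ^ N * ((∑ j, K' j k) * (Kb k + KL k)) + (KL k + KX k),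
    ((hKs.mul (S.Sub_const hcN)).mul (hsumS.mul (hKb.add hKL))).add (hKL.add hKX), ?_⟩
  have hT4 := ((hT2.and hlp').and hbd).and hX
  refine Typ.mono (S := Z.sp) hT4 ?_
  filter_upwards [hpos, hKL.1, hKX.1, hKb.1, hKs.1, hseg, rch_crF Z l R le_rfl] with k h0 hL0 hX0 hb0 hs0 hsg hcr
  intro (w : (Z.l k).T.Ω) hw h2
  obtain ⟨⟨⟨h3, h4⟩, h5⟩, h6⟩ := h2
  have hdu : S.dl Z.u k ≤ 1 := by
    rw [← S.dl_zero k]
    exact S.dl_anti Z.hu.le k
  have hdu0 := S.dl_pos Z.u k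
  have hsum : ∀ j, K' j k ≤ ∑ j, K' j k := fun j =>
    Finset.single_le_sum (f := fun j => K' j k) (fun i _ => h0 i) (Finset.mem_univ j)
  have hsum0 : 0 ≤ ∑ j, K' j k := Finset.sum_nonneg fun j _ => h0 j
  -- the value at the point of the chart
  have h7 : ∀ j, |MvPolynomial.eval (l.F k ((Z.l k).p.π w) (l.Y.v k ((Z.l k).p.π w))) (R.p k w j)| ≤ Kb k + KL k := by
    intro j
    have a1 := h4 j
    have a2 := h5 j
    have a3 := abs_add_le (MvPolynomial.eval (l.F k ((Z.l k).p.π w) (l.Y.v k ((Z.l k).p.π w))) (R.p k w j) -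
      MvPolynomial.eval (Q.v k ((Z.l k).p.π w)) (R.p k w j)) (MvPolynomial.eval (Q.v k ((Z.l k).p.π w)) (R.p k w j))
    rw [sub_add_cancel] at a3
    have a4 : KL k * S.dl Z.u k ≤ KL k := mul_le_of_le_one_right hL0 hdu
    linarith
  -- the open cube
  have h8 : ∀ y : Fin l.e → ℝ, (∀ i, |y i - (Z.fr l.Y).v k w i| < 1) → ∀ j,
      |rch Z l R k w y j| ≤ (∑ j, K' j k) * (Kb k + KL k) := by
    intro y hy j
    have b1 := h3 j (zpa Z l k w y) (fun i => by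
      rw [zpa_sub, abs_mul, abs_of_pos (S.dl_pos Z.c k)]
      exact mul_lt_of_lt_one_right (S.dl_pos Z.c k) (hy i))
    refine b1.trans ?_
    exact mul_le_mul (hsum j) (h7 j) (abs_nonneg _) hsum0
  constructor
  · intro y hy j
    have c1 := (hsg w hw _ (hcr w hw j) ((Z.fr l.Y).v k w) y (fun i => by
      rw [sub_self, abs_zero]
      exact zero_le_one) hy).1
    have c2 := rem_closed c1 (a := (∑ j, K' j k) * (Kb k + KL k)) (fun u hu0 hu1 => by
      apply h8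
      intro i
      rw [add_sub_cancel_left, abs_mul, abs_of_nonneg hu0]
      have c3 := hy i
      have c4 := abs_nonneg (y i - (Z.fr l.Y).v k w i)
      nlinarith)
    have c5 : (fun i => (Z.fr l.Y).v k w i + 1 * (y i - (Z.fr l.Y).v k w i)) = y := by
      funext i
      ring
    rw [c5] at c2
    have c6 : 0 ≤ KL k + KX k := add_nonneg hL0 hX0
    exact c2.trans (le_add_of_nonneg_right c6)
  · intro j
    rw [Z.sp_dl1]
    have d1 : rch Z l R k w ((Z.fr l.Y).v k w) j =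
        MvPolynomial.eval (l.F k ((Z.l k).p.π w) (l.Y.v k ((Z.l k).p.π w))) (R.p k w j) := by
      unfold rch
      rw [zpa_Y]
    rw [d1]
    have d2 := h4 j
    have d3 := h6 j
    have d4 := abs_add_le (X.v k w j - Rows.val Z R k w j) (Rows.val Z R k w j -
      MvPolynomial.eval (l.F k ((Z.l k).p.π w) (l.Y.v k ((Z.l k).p.π w))) (R.p k w j))
    rw [sub_add_sub_cancel] at d4
    have d5 : |Rows.val Z R k w j - MvPolynomial.eval (l.F k ((Z.l k).p.π w) (l.Y.v k ((Z.l k).p.π w)))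
      (R.p k w j)| ≤ KL k * S.dl Z.u k := by
      rw [abs_sub_comm]
      exact d2
    have d6 : 0 ≤ Ks k * (2 * ((N : ℝ) + 1)) ^ N * ((∑ j, K' j k) * (Kb k + KL k)) * S.dl Z.u k := by
      have : 0 ≤ Kb k + KL k := add_nonneg hb0 hL0
      positivity
    rw [add_mul, add_mul]
    linarith

end zleaf

end

end Pool.Agent.Helper7.RD
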